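import Pool.Agent.Helper51_AWC.WrChar

/-!
Classification of the irreducible characters of `H wr C_m` and a counting formula.
-/

open scoped BigOperators

noncomputable section

namespace Pool.Agent.Helper51_AWC

variable {m : ℕ} [hm : Fact m.Prime] {H : Type} [Group H] [Fintype H]

open Classical in
/-- the extension of `α × ... × α` to the wreath product attached to a character of `C_m` -/
def extChar (α : H → ℂ) (lam : AddChar (ZMod m) ℂ) : Wr m H → ℂ :=
  if h : α ∈ Irr H then (exists_ext h lam).choose else 0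

theorem extChar_mem {α : H → ℂ} (hα : α ∈ Irr H) (lam : AddChar (ZMod m) ℂ) :
    extChar α lam ∈ Irr (Wr m H) := by
  rw [extChar, dif_pos hα]
  exact (exists_ext hα lam).choose_spec.1

theorem extChar_base {α : H → ℂ} (hα : α ∈ Irr H) (lam : AddChar (ZMod m) ℂ) (f : ZMod m → H) :
    extChar α lam (Wr.base m H f) = piChar (fun _ => α) f := by
  rw [extChar, dif_pos hα]
  exact (exists_ext hα lam).choose_spec.2.1 f

theorem extChar_single {α : H → ℂ} (hα : α ∈ Irr H) (lam : AddChar (ZMod m) ℂ) {s : ZMod m}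
    (hs : s ≠ 0) (c : H) : extChar α lam (single c s) = lam s * α c := by
  rw [extChar, dif_pos hα]
  exact (exists_ext hα lam).choose_spec.2.2 s hs c

theorem extChar_one {α : H → ℂ} (hα : α ∈ Irr H) (lam : AddChar (ZMod m) ℂ) :
    extChar α lam 1 = α 1 ^ m := by
  have := extChar_base hα lam 1
  rw [map_one] at this
  rw [this]
  unfold piChar
  simp [ZMod.card]

omit [Fintype H] in
theorem indChar_base (α : ZMod m → H → ℂ) (f : ZMod m → H) :
    indChar α (Wr.base m H f) = ∑ t : ZMod m, piChar (tr t α) f := by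
  unfold indChar
  rw [if_pos (Wr.base_s f)]
  rfl

omit [Group H] [Fintype H] in
theorem indChar_off (α : ZMod m → H → ℂ) {x : Wr m H} (hx : x.s ≠ 0) : indChar α x = 0 := by
  unfold indChar
  rw [if_neg hx]

omit [Group H] [Fintype H] in
theorem indChar_tr [Group H] (α : ZMod m → H → ℂ) (t : ZMod m) : indChar (tr t α) = indChar α := by
  funext x
  unfold indChar
  split_ifs with h
  · rw [← Equiv.sum_comp (Equiv.addRight t) (fun u => piChar (tr u α) x.f)]
    apply Finset.sum_congr rfl
    intro u _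
    congr 1
    funext j
    simp only [tr, Equiv.coe_addRight]
    congr 1
    ring
  · rfl

theorem wr_inner_base (θ ψ : Wr m H → ℂ) (h : ∀ x : Wr m H, x.s ≠ 0 → ψ x = 0) :
    ∑ x, θ x * ψ x⁻¹ = ∑ f : ZMod m → H, θ (Wr.base m H f) * ψ (Wr.base m H f⁻¹) := by
  rw [sum_wr, Finset.sum_eq_single_of_mem 0 (Finset.mem_univ _)]
  · apply Finset.sum_congr rfl
    intro f _
    rw [map_inv]
    rfl
  · intro s _ hs
    apply Finset.sum_eq_zero
    intro f _
    rw [h _ (by rw [Wr.inv_s]; exact neg_ne_zero.2 hs), mul_zero]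

theorem wr_cases {θ : Wr m H → ℂ} (hθ : θ ∈ Irr (Wr m H)) :
    (∃ α : ZMod m → H → ℂ, (∀ i, α i ∈ Irr H) ∧ (∃ i, α i ≠ α 0) ∧ θ = indChar α) ∨
      ∃ α ∈ Irr H, ∃ lam : AddChar (ZMod m) ℂ, θ = extChar α lam := by
  classical
  have h1 : ∃ ϑ ∈ Irr (ZMod m → H), ∑ f, θ (Wr.base m H f) * ϑ f⁻¹ ≠ 0 := by
    by_contra hcon
    push Not at hcon
    have h2 := irr_complete' (fun f : ZMod m → H => θ (Wr.base m H f)) (by
      intro f g
      rw [map_mul, map_mul, map_inv]
      exact irr_conj hθ _ _) hcon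
    have h3 := congrFun h2 1
    simp only [map_one, Pi.zero_apply] at h3
    exact irr_one_ne hθ h3
  obtain ⟨ϑ, hϑ, h2⟩ := h1
  obtain ⟨α, hα, rfl⟩ := exists_piChar hϑ
  by_cases hne : ∃ i, α i ≠ α 0
  · left
    refine ⟨α, hα, hne, ?_⟩
    rcases irr_orth hθ (indChar_mem hα hne) with h3 | h3
    · exfalso
      rw [wr_inner_base θ _ (fun x hx => indChar_off α hx)] at h3
      simp only [indChar_base, Finset.mul_sum] at h3
      rw [Finset.sum_comm] at h3
      have h4 : ∀ t : ZMod m, ∑ f : ZMod m → H, θ (Wr.base m H f) * piChar (tr t α) f⁻¹ =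
          ∑ f : ZMod m → H, θ (Wr.base m H f) * piChar α f⁻¹ := by
        intro t
        rw [← Equiv.sum_comp (Equiv.arrowCongr (Equiv.subRight t) (Equiv.refl H))
          (fun f : ZMod m → H => θ (Wr.base m H f) * piChar α f⁻¹)]
        apply Finset.sum_congr rfl
        intro f _
        have e1 : (Equiv.arrowCongr (Equiv.subRight t) (Equiv.refl H)) f = fun i => f (i + t) := by
          funext i
          simp [Equiv.arrowCongr_apply]
        rw [e1, ← piChar_tr]
        congr 1
        have h5 := irr_conj hθ (Wr.base m H f) (⟨fun _ => 1, -t⟩ : Wr m H)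
        rw [← h5]
        congr 1
        apply Wr.ext
        · funext i
          rw [Wr.conj_f]
          simp [Wr.base_f]
        · rw [Wr.conj_s]; rfl
      simp_rw [h4] at h3
      rw [Finset.sum_const, nsmul_eq_mul, Finset.card_univ, ZMod.card] at h3
      rcases mul_eq_zero.1 h3 with h5 | h5
      · exact hm.out.ne_zero (by exact_mod_cast h5)
      · exact h2 h5
    · exact h3.1
  · right
    push Not at hne
    have hα0 : α = fun _ => α 0 := funext hne
    refine ⟨α 0, hα 0, ?_⟩
    by_contra hcon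
    push Not at hcon
    have h3 : ∑ lam : AddChar (ZMod m) ℂ, ∑ x, θ x * extChar (α 0) lam x⁻¹ = 0 := by
      apply Finset.sum_eq_zero
      intro lam _
      exact irr_orth_ne hθ (extChar_mem (hα 0) lam) (hcon lam)
    rw [Finset.sum_comm] at h3
    simp_rw [← Finset.mul_sum] at h3
    have h4 : ∀ x : Wr m H, ∑ lam : AddChar (ZMod m) ℂ, extChar (α 0) lam x =
        if x.s = 0 then (m : ℂ) * piChar α x.f else 0 := by
      intro x
      split_ifs with hx
      · have hx' : x = Wr.base m H x.f := by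
          apply Wr.ext
          · rfl
          · exact hx
        rw [hx']
        simp only [extChar_base (hα 0)]
        rw [Finset.sum_const, nsmul_eq_mul, Finset.card_univ, AddChar.card_eq, ZMod.card, ← hα0]
        rfl
      · obtain ⟨c, hc⟩ := exists_single x hx
        have : ∀ lam : AddChar (ZMod m) ℂ, extChar (α 0) lam x = lam x.s * α 0 c := by
          intro lam
          rw [← irr_isConj (extChar_mem (hα 0) lam) hc, extChar_single (hα 0) lam hx]
        simp_rw [this]
        rw [← Finset.sum_mul, AddChar.sum_apply_eq_ite, if_neg hx, zero_mul]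
    rw [wr_inner_base θ (fun x => ∑ lam : AddChar (ZMod m) ℂ, extChar (α 0) lam x) (by
      intro x hx
      rw [h4, if_neg hx])] at h3
    simp only [h4, Wr.base_s, if_true, Wr.base_f] at h3
    have h5 : ∑ f : ZMod m → H, θ (Wr.base m H f) * ((m : ℂ) * piChar α f⁻¹) =
        (m : ℂ) * ∑ f : ZMod m → H, θ (Wr.base m H f) * piChar α f⁻¹ := by
      rw [Finset.mul_sum]
      apply Finset.sum_congr rfl
      intro f _; ring
    rw [h5] at h3
    rcases mul_eq_zero.1 h3 with h6 | h6
    · exact hm.out.ne_zero (by exact_mod_cast h6)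
    · exact h2 h6

theorem indChar_eq_iff {α β : ZMod m → H → ℂ} (hα : ∀ i, α i ∈ Irr H) (hβ : ∀ i, β i ∈ Irr H) :
    indChar α = indChar β ↔ ∃ t, tr t α = β := by
  classical
  constructor
  · intro h
    have h1 := indChar_inner_base hα hβ
    have h2 := indChar_inner_base hβ hβ
    have h3 : ∀ f : ZMod m → H, ∑ t : ZMod m, piChar (tr t α) f = ∑ t : ZMod m, piChar (tr t β) f := by
      intro f
      rw [← indChar_base, ← indChar_base, h]
    simp_rw [h3] at h1
    rw [h1] at h2
    by_contra hcon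
    push Not at hcon
    have h4 : (Finset.univ.filter fun t => tr t α = β).card = 0 := by
      rw [Finset.card_eq_zero, Finset.filter_eq_empty_iff]
      intro t _; exact hcon t
    rw [h4] at h2
    have h5 : (Finset.univ.filter fun t => tr t β = β).card ≠ 0 := by
      rw [Finset.card_ne_zero]
      refine ⟨0, Finset.mem_filter.2 ⟨Finset.mem_univ _, ?_⟩⟩
      funext j
      simp [tr]
    have h6 : (Fintype.card H : ℂ) ^ m ≠ 0 :=
      pow_ne_zero _ (by exact_mod_cast Fintype.card_ne_zero)
    simp only [Nat.cast_zero, mul_zero] at h2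
    rcases mul_eq_zero.1 h2.symm with h7 | h7
    · exact h6 h7
    · exact h5 (by exact_mod_cast h7)
  · rintro ⟨t, rfl⟩
    rw [indChar_tr]

theorem indChar_ne_extChar {α : ZMod m → H → ℂ} (hα : ∀ i, α i ∈ Irr H) (hne : ∃ i, α i ≠ α 0)
    {β : H → ℂ} (hβ : β ∈ Irr H) (lam : AddChar (ZMod m) ℂ) : indChar α ≠ extChar β lam := by
  classical
  intro h
  have h1 := indChar_inner_base hα (β := fun _ => β) (fun _ => hβ)
  have h2 : ∀ f : ZMod m → H, ∑ t : ZMod m, piChar (tr t α) f = piChar (fun _ => β) f := by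
    intro f
    rw [← indChar_base, h, extChar_base hβ]
  simp_rw [h2] at h1
  rw [piChar_inner_self (fun _ => hβ)] at h1
  have h4 : (Finset.univ.filter fun t => tr t α = fun _ => β).card = 0 := by
    rw [Finset.card_eq_zero, Finset.filter_eq_empty_iff]
    intro t _ ht
    obtain ⟨i, hi⟩ := hne
    apply hi
    have e1 := congrFun ht (i + t)
    have e2 := congrFun ht (0 + t)
    simp only [tr, add_sub_cancel_right] at e1 e2
    rw [e1, e2]
  rw [h4] at h1
  have : (Fintype.card (ZMod m → H) : ℂ) ≠ 0 := by exact_mod_cast Fintype.card_ne_zero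
  apply this
  rw [h1]; simp

theorem extChar_inj {α β : H → ℂ} (hα : α ∈ Irr H) (hβ : β ∈ Irr H)
    {lam mu : AddChar (ZMod m) ℂ} (h : extChar α lam = extChar β mu) : α = β ∧ lam = mu := by
  have h1 : piChar (fun _ : ZMod m => α) = piChar (fun _ : ZMod m => β) := by
    funext f
    rw [← extChar_base hα lam, h, extChar_base hβ]
  have h2 := congrFun (piChar_inj (fun _ => hα) (fun _ => hβ) h1) 0
  refine ⟨h2, ?_⟩
  apply AddChar.ext
  intro s
  by_cases hs : s = 0
  · subst hs; simp
  · have h3 := extChar_single hα lam hs 1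
    rw [h, extChar_single hβ mu hs, ← h2] at h3
    exact (mul_right_cancel₀ (irr_one_ne hα) h3).symm

/-- the counting formula -/
theorem wr_count (K : Set (H → ℂ)) (hK : K ⊆ Irr H) (Θ : Set (Wr m H → ℂ))
    (hΘ : Θ ⊆ Irr (Wr m H))
    (h1 : ∀ α : ZMod m → H → ℂ, (∀ i, α i ∈ Irr H) → (∃ i, α i ≠ α 0) →
      (indChar α ∈ Θ ↔ ∀ i, α i ∈ K))
    (h2 : ∀ α ∈ Irr H, ∀ lam : AddChar (ZMod m) ℂ, (extChar α lam ∈ Θ ↔ α ∈ K)) :
    m * Θ.ncard + K.ncard = K.ncard ^ m + m ^ 2 * K.ncard := by
  classical
  have hKf : K.Finite := irr_finite'.subset hK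
  set Kf := hKf.toFinset with hKf'
  have hKc : K.ncard = Kf.card := Set.ncard_eq_toFinset_card K hKf
  have hmem : ∀ α, α ∈ Kf ↔ α ∈ K := fun α => hKf.mem_toFinset
  let T : Finset (ZMod m → H → ℂ) := Fintype.piFinset (fun _ => Kf)
  let Tn := T.filter (fun α => ∃ i, α i ≠ α 0)
  let Tc := T.filter (fun α => ¬ ∃ i, α i ≠ α 0)
  have hT : T.card = Kf.card ^ m := by
    simp only [T]
    rw [Fintype.card_piFinset, Finset.prod_const, Finset.card_univ, ZMod.card]
  have hTc : Tc.card = Kf.card := by
    symm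
    apply Finset.card_bij (fun α _ => fun _ : ZMod m => α)
    · intro α hα
      simp only [Tc, T, Finset.mem_filter, Fintype.mem_piFinset]
      exact ⟨fun _ => hα, by simp⟩
    · intro α _ β _ h
      exact congrFun h 0
    · intro α hα
      simp only [Tc, T, Finset.mem_filter, Fintype.mem_piFinset] at hα
      refine ⟨α 0, hα.1 0, ?_⟩
      have := hα.2
      push Not at this
      funext i
      exact (this i).symm
  have hTn : Tn.card + Kf.card = Kf.card ^ m := by
    have h := Finset.card_filter_add_card_filter_not (s := T) (fun α => ∃ i, α i ≠ α 0)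
    calc Tn.card + Kf.card = Tn.card + Tc.card := by rw [hTc]
      _ = T.card := h
      _ = _ := hT
  have hTnm : ∀ α, α ∈ Tn ↔ (∀ i, α i ∈ K) ∧ ∃ i, α i ≠ α 0 := by
    intro α
    simp only [Tn, T, Finset.mem_filter, Fintype.mem_piFinset, hmem]
  -- the induced ones
  let A := Tn.image indChar
  have hA : Tn.card = m * A.card := by
    rw [Finset.card_eq_sum_card_image indChar Tn]
    rw [Finset.sum_const_nat (m := m), mul_comm]
    intro θ hθ
    obtain ⟨β, hβ, rfl⟩ := Finset.mem_image.1 hθ
    have hβ' := (hTnm β).1 hβ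
    have e : (Tn.filter fun α => indChar α = indChar β) =
        (Finset.univ : Finset (ZMod m)).image (fun t => tr t β) := by
      ext α
      rw [Finset.mem_filter, Finset.mem_image, hTnm]
      constructor
      · rintro ⟨⟨h3, h4⟩, h5⟩
        obtain ⟨t, ht⟩ := (indChar_eq_iff (fun i => hK (hβ'.1 i)) (fun i => hK (h3 i))).1 h5.symm
        exact ⟨t, Finset.mem_univ _, ht⟩
      · rintro ⟨t, _, rfl⟩
        refine ⟨⟨fun i => hβ'.1 _, ?_⟩, indChar_tr β t⟩
        by_contra hcon
        push Not at hcon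
        obtain ⟨i, hi⟩ := hβ'.2
        apply hi
        have e1 := hcon (i + t)
        have e2 := hcon (0 + t)
        simp only [tr, add_sub_cancel_right] at e1 e2
        rw [e1, e2]
    rw [e, Finset.card_image_of_injective, Finset.card_univ, ZMod.card]
    intro t t' h
    exact tr_inj hβ'.2 h
  -- the extended ones
  let B := (Kf ×ˢ (Finset.univ : Finset (AddChar (ZMod m) ℂ))).image
    (fun p => extChar p.1 p.2)
  have hB : B.card = m * Kf.card := by
    simp only [B]
    rw [Finset.card_image_of_injOn, Finset.card_product, Finset.card_univ, AddChar.card_eq,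
      ZMod.card, mul_comm]
    rintro ⟨α, lam⟩ ha ⟨β, mu⟩ hb h
    have ha' := hK ((hmem _).1 (Finset.mem_product.1 (Finset.mem_coe.1 ha)).1)
    have hb' := hK ((hmem _).1 (Finset.mem_product.1 (Finset.mem_coe.1 hb)).1)
    obtain ⟨e1, e2⟩ := extChar_inj ha' hb' h
    exact Prod.ext e1 e2
  have hAB : Disjoint A B := by
    rw [Finset.disjoint_left]
    intro θ hA' hB'
    obtain ⟨α, hα, rfl⟩ := Finset.mem_image.1 hA'
    obtain ⟨p, hp, hp'⟩ := Finset.mem_image.1 hB'
    have hα' := (hTnm α).1 hα
    have hp1 := hK ((hmem _).1 (Finset.mem_product.1 hp).1)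
    exact indChar_ne_extChar (fun i => hK (hα'.1 i)) hα'.2 hp1 p.2 hp'.symm
  have hΘ' : Θ = ((A ∪ B : Finset _) : Set (Wr m H → ℂ)) := by
    ext θ
    rw [Finset.mem_coe, Finset.mem_union]
    constructor
    · intro h
      rcases wr_cases (hΘ h) with ⟨α, hα, hne, rfl⟩ | ⟨α, hα, lam, rfl⟩
      · left
        exact Finset.mem_image.2 ⟨α, (hTnm α).2 ⟨(h1 α hα hne).1 h, hne⟩, rfl⟩
      · right
        exact Finset.mem_image.2 ⟨(α, lam), Finset.mem_product.2
          ⟨(hmem _).2 ((h2 α hα lam).1 h), Finset.mem_univ _⟩, rfl⟩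
    · rintro (h | h)
      · obtain ⟨α, hα, rfl⟩ := Finset.mem_image.1 h
        have hα' := (hTnm α).1 hα
        exact (h1 α (fun i => hK (hα'.1 i)) hα'.2).2 hα'.1
      · obtain ⟨p, hp, rfl⟩ := Finset.mem_image.1 h
        have hp1 := (hmem _).1 (Finset.mem_product.1 hp).1
        exact (h2 p.1 (hK hp1) p.2).2 hp1
  rw [hΘ', Set.ncard_coe_finset, Finset.card_union_of_disjoint hAB, hB, hKc, ← hTn, hA]
  ring

end Pool.Agent.Helper51_AWC
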