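import Pool.Agent.Helper51_AWC.ProdSum

/-!
The alternating sum of a finite abelian `ℓ`-group.
-/

open scoped BigOperators

noncomputable section

namespace Pool.Agent.Helper51_AWC

/-- linear characters are irreducible -/
theorem linear_mem_Irr {G : Type} [Group G] [Finite G] (ψ : G →* ℂˣ) :
    (fun g => (ψ g : ℂ)) ∈ Irr G := by
  have := Fintype.ofFinite G
  let ρ : Representation ℂ G ℂ :=
    { toFun := fun g => (ψ g : ℂ) • LinearMap.id
      map_one' := by ext; simp
      map_mul' := by intro g h; ext; simp [mul_comm] }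
  have hc : ρ.character = fun g => (ψ g : ℂ) := by
    ext g
    simp [Representation.character, ρ]
  rw [← hc]
  apply mem_Irr_of_norm
  rw [hc]
  simp

/-- an `ℓ`-power root of unity is congruent to `1` -/
theorem cong_one_of_pow {ℓ : ℕ} [hp : Fact ℓ.Prime] {M : Ideal (integralClosure ℤ ℂ)}
    [hM : M.IsPrime]
    (hℓ : (ℓ : integralClosure ℤ ℂ) ∈ M) {ζ : ℂ} {n : ℕ} (h : ζ ^ ℓ ^ n = 1) : Cong M ζ 1 := by
  have hpos : 0 < ℓ ^ n := pow_pos hp.out.pos n
  have hint : AI ζ := by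
    apply IsIntegral.of_pow hpos
    rw [h]; exact isIntegral_one
  let z : integralClosure ℤ ℂ := ⟨ζ, hint⟩
  have hnt : Nontrivial (integralClosure ℤ ℂ ⧸ M) := Ideal.Quotient.nontrivial_iff.2 hM.ne_top
  have hchar : CharP (integralClosure ℤ ℂ ⧸ M) ℓ := by
    rw [CharP.charP_iff_prime_eq_zero hp.out]
    have := Ideal.Quotient.eq_zero_iff_mem.2 hℓ
    simpa using this
  have h1 : z ^ ℓ ^ n = 1 := Subtype.ext h
  have h2 : (Ideal.Quotient.mk M (z - 1)) ^ ℓ ^ n = 0 := by
    rw [map_sub, sub_pow_char_pow, ← map_pow, h1]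
    simp
  have h3 : z - 1 ∈ M := by
    rw [← map_pow, Ideal.Quotient.eq_zero_iff_mem] at h2
    exact hM.mem_of_pow_mem _ h2
  exact ⟨z - 1, h3, by push_cast; rfl⟩

variable {Z : Type} [CommGroup Z] [Finite Z]

theorem omega_comm (χ : Z → ℂ) (g : Z) : omega (MonoidHom.id Z) χ g = χ g / χ 1 := by
  classical
  have := Fintype.ofFinite Z
  rw [omega_eq]
  congr 1
  rw [Finset.sum_eq_single_of_mem g (Finset.mem_univ _)]
  · simp
  · intro h _ hne
    rw [if_neg]
    intro hc
    apply hne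
    exact (isConj_iff_eq.1 hc).symm

theorem card_le_altSum {ℓ : ℕ} [hp : Fact ℓ.Prime] {M : Ideal (integralClosure ℤ ℂ)}
    [hM : M.IsPrime] (hℓ : (ℓ : integralClosure ℤ ℂ) ∈ M) (hZ : IsPGroup ℓ Z) :
    (Nat.card Z : ℤ) ≤ altSum ℓ M (fun _ : Z => (1 : ℂ)) := by
  classical
  have := Fintype.ofFinite Z
  obtain ⟨a1, a2, a3⟩ := opCore_spec ℓ Z
  have htop : opCore ℓ Z = ⊤ := by
    rw [eq_top_iff]
    exact a3 ⊤ inferInstance (hZ.to_subgroup ⊤)
  have hps : psub ℓ Z = {⊤} := by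
    ext D
    rw [mem_psub, htop, Finset.mem_singleton]
    constructor
    · rintro ⟨h, _⟩; exact eq_top_iff.2 h
    · rintro rfl; exact ⟨le_refl _, hZ.to_subgroup ⊤⟩
  have hch : chainsOn (psub ℓ Z) (opCore ℓ Z) = {{⊤}} := by
    ext d
    rw [mem_chainsOn, hps, htop, Finset.mem_singleton]
    constructor
    · rintro ⟨h1, h2, _⟩
      exact Finset.Subset.antisymm h1 (Finset.singleton_subset_iff.2 h2)
    · rintro rfl
      refine ⟨Finset.Subset.refl _, Finset.mem_singleton_self _, ?_⟩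
      intro x hx y hy hne
      exact absurd ((Finset.mem_singleton.1 hx).trans (Finset.mem_singleton.1 hy).symm) hne
  have hstab : stab ({⊤} : Finset (Subgroup Z)) = ⊤ := by
    rw [eq_top_iff]
    intro g _
    rw [mem_stab]
    intro D hD
    rw [Finset.mem_singleton] at hD
    subst hD
    ext x; simp [mem_conjS]
  have hS := card_mul_altSum ℓ M (fun _ : Z => (1 : ℂ))
  rw [hch, Finset.sum_singleton, weight, hstab] at hS
  simp only [Finset.card_singleton, Subgroup.card_top, Nat.cast_mul] at hS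
  have hc : ((Nat.card Z : ℤ)) ≠ 0 := by exact_mod_cast Nat.card_pos.ne'
  have hS' : altSum ℓ M (fun _ : Z => (1 : ℂ)) =
      ((IrrBlock M (⊤ : Subgroup Z).subtype (fun _ : Z => (1 : ℂ))).ncard : ℤ) := by
    apply mul_left_cancel₀ hc
    rw [hS]; norm_num
  rw [hS']
  norm_cast
  rw [ncard_IrrBlock_equiv M (fun _ : Z => (1 : ℂ)) _ (MonoidHom.id Z) Subgroup.topEquiv
    (fun h => IsConj.refl _)]
  -- the linear characters
  have hroots : HasEnoughRootsOfUnity ℂ (Monoid.exponent Z) := inferInstance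
  have hcard : Nat.card (Z →* ℂˣ) = Nat.card Z :=
    CommGroup.card_monoidHom_of_hasEnoughRootsOfUnity Z ℂ
  have hfin : Finite (Z →* ℂˣ) := by
    apply Nat.finite_of_card_ne_zero
    rw [hcard]; exact Nat.card_pos.ne'
  have hfin2 : (IrrBlock M (MonoidHom.id Z) (fun _ : Z => (1 : ℂ))).Finite :=
    (irr_finite' (G := Z)).subset fun ϑ hϑ => hϑ.1
  let F : (Z →* ℂˣ) → (Z → ℂ) := fun ψ g => (ψ g : ℂ)
  have hF : Function.Injective F := by
    intro ψ ψ' h
    ext g
    exact congrFun h g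
  have hF2 : Set.range F ⊆ IrrBlock M (MonoidHom.id Z) (fun _ : Z => (1 : ℂ)) := by
    rintro _ ⟨ψ, rfl⟩
    refine ⟨linear_mem_Irr ψ, fun g => ?_⟩
    rw [omega_comm, omega_comm]
    simp only [F, map_one, Units.val_one, div_one]
    obtain ⟨n, hn⟩ := hZ g
    apply cong_one_of_pow hℓ (n := n)
    rw [← Units.val_pow_eq_pow_val, ← map_pow, hn, map_one, Units.val_one]
  calc Nat.card Z = Nat.card (Z →* ℂˣ) := hcard.symm
    _ = (Set.range F).ncard := (Set.ncard_range_of_injective hF).symm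
    _ ≤ _ := Set.ncard_le_ncard hF2 hfin2

end Pool.Agent.Helper51_AWC
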