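import Pool.Agent.Helper51_AWC.WrBlock

/-!
The number of irreducible characters of `H wr C_m`, `H ≤ G`, in blocks inducing to the block of
the extension of `χ × ... × χ`.
-/

open scoped BigOperators

noncomputable section

namespace Pool.Agent.Helper51_AWC

variable {m : ℕ} [hm : Fact m.Prime] {G H : Type} [Group G] [Group H] [Fintype G] [Fintype H]

omit [Fintype G] in
theorem omega_map_base (i : H →* G) (θ : Wr m H → ℂ) (g : ZMod m → G) :
    omega (Wr.map i) θ (Wr.base m G g) =
      omega ((Wr.base m G).comp (pimap fun _ => i)) (fun f => θ (Wr.base m H f))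
        (Wr.base m G g) := by
  classical
  rw [omega_eq, omega_eq, map_one]
  congr 1
  rw [sum_wr, Finset.sum_eq_single_of_mem 0 (Finset.mem_univ _)]
  · apply Finset.sum_congr rfl
    intro f _
    rfl
  · intro s _ hs
    apply Finset.sum_eq_zero
    intro f _
    rw [if_neg]
    intro h
    exact hs (Wr.isConj_s h).symm

omit [Fintype G] in
theorem omega_map_base_ext (i : H →* G) {α : H → ℂ} (hα : α ∈ Irr H)
    (lam : AddChar (ZMod m) ℂ) (g : ZMod m → G) :
    omega (Wr.map i) (extChar α lam) (Wr.base m G g) =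
      omega ((Wr.base m G).comp (pimap fun _ => i)) (piChar fun _ => α) (Wr.base m G g) := by
  rw [omega_map_base]
  congr 1
  funext f
  exact extChar_base hα lam f

omit [Fintype G] [Fintype H] [Group H] in
theorem piChar_tr_one [Group H] (α : ZMod m → H → ℂ) (t : ZMod m) :
    piChar (tr t α) 1 = piChar α 1 := by
  rw [← piChar_tr]
  rfl

omit [Fintype G] in
theorem omega_piChar_tr (i : H →* G) (α : ZMod m → H → ℂ) (t : ZMod m) (g : ZMod m → G) :
    omega ((Wr.base m G).comp (pimap fun _ => i)) (piChar (tr t α)) (Wr.base m G g) =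
      omega ((Wr.base m G).comp (pimap fun _ => i)) (piChar α) (Wr.base m G g) := by
  classical
  rw [omega_eq, omega_eq, piChar_tr_one]
  congr 1
  rw [← Equiv.sum_comp (Equiv.arrowCongr (Equiv.subRight t) (Equiv.refl H))
    (fun f : ZMod m → H => if IsConj (Wr.base m G g)
      (((Wr.base m G).comp (pimap fun _ => i)) f) then piChar α f else 0)]
  apply Finset.sum_congr rfl
  intro f _
  have e1 : (Equiv.arrowCongr (Equiv.subRight t) (Equiv.refl H)) f = fun i => f (i + t) := by
    funext i
    simp [Equiv.arrowCongr_apply]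
  rw [e1, ← piChar_tr]
  have e2 : IsConj (Wr.base m G g) (((Wr.base m G).comp (pimap fun _ => i)) f) ↔
      IsConj (Wr.base m G g) (((Wr.base m G).comp (pimap fun _ => i)) fun j => f (j + t)) := by
    have h : IsConj (((Wr.base m G).comp (pimap fun _ => i)) f)
        (((Wr.base m G).comp (pimap fun _ => i)) fun j => f (j + t)) := by
      show IsConj (Wr.base m G fun j => i (f j)) (Wr.base m G fun j => i (f (j + t)))
      refine isConj_base_tr.2 ⟨-t, ?_⟩
      have : tr (-t) (fun j => i (f j)) = fun j => i (f (j + t)) := by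
        funext j
        simp [tr]
      rw [this]
    exact ⟨fun h' => h'.trans h, fun h' => h'.trans h.symm⟩
  by_cases h : IsConj (Wr.base m G g) (((Wr.base m G).comp (pimap fun _ => i)) f)
  · rw [if_pos h, if_pos (e2.1 h)]
  · rw [if_neg h, if_neg (fun h' => h (e2.2 h'))]

omit [Fintype G] in
theorem omega_map_base_ind (i : H →* G) {α : ZMod m → H → ℂ} (hα : ∀ j, α j ∈ Irr H)
    (g : ZMod m → G) :
    omega (Wr.map i) (indChar α) (Wr.base m G g) =
      omega ((Wr.base m G).comp (pimap fun _ => i)) (piChar α) (Wr.base m G g) := by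
  classical
  rw [omega_map_base]
  have h1 : ∀ t : ZMod m, ∑ f : ZMod m → H,
      (if IsConj (Wr.base m G g) (((Wr.base m G).comp (pimap fun _ => i)) f) then
        piChar (tr t α) f else 0) =
      omega ((Wr.base m G).comp (pimap fun _ => i)) (piChar α) (Wr.base m G g) *
        piChar α 1 := by
    intro t
    have h2 := omega_piChar_tr i α t g
    rw [← h2, omega_eq, piChar_tr_one, div_mul_cancel₀]
    exact irr_one_ne (piChar_mem hα)
  rw [omega_eq]
  simp only [indChar_base, piChar_tr_one]
  have h3 : ∀ f : ZMod m → H,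
      (if IsConj (Wr.base m G g) (((Wr.base m G).comp (pimap fun _ => i)) f) then
        ∑ t : ZMod m, piChar (tr t α) f else 0) =
      ∑ t : ZMod m, (if IsConj (Wr.base m G g) (((Wr.base m G).comp (pimap fun _ => i)) f) then
        piChar (tr t α) f else 0) := by
    intro f
    split_ifs
    · rfl
    · simp
  simp_rw [h3]
  rw [Finset.sum_comm]
  simp_rw [h1]
  rw [Finset.sum_const, Finset.sum_const, nsmul_eq_mul, nsmul_eq_mul, Finset.card_univ, ZMod.card,
    ← mul_assoc, mul_comm (m : ℂ), mul_assoc, mul_div_assoc, div_self, mul_one]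
  exact mul_ne_zero (by exact_mod_cast hm.out.ne_zero) (irr_one_ne (piChar_mem hα))

omit [Fintype G] in
theorem omega_map_off_ind (i : H →* G) (α : ZMod m → H → ℂ) {x : Wr m G} (hx : x.s ≠ 0) :
    omega (Wr.map i) (indChar α) x = 0 := by
  classical
  rw [omega_eq, Finset.sum_eq_zero, zero_div]
  intro y _
  split_ifs with h
  · apply indChar_off
    have := Wr.isConj_s h
    rw [Wr.map_s] at this
    rw [← this]; exact hx
  · rfl

variable {ℓ : ℕ} [hp : Fact ℓ.Prime] {M : Ideal (integralClosure ℤ ℂ)} [hM : M.IsPrime]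

omit [Fintype G] hM in
/-- the central character vanishes modulo `M` outside the base group -/
theorem omega_map_off_ext (i : H →* G) {α : H → ℂ} (hα : α ∈ Irr H)
    (hq : Cong M ((Fintype.card H : ℂ) / α 1) 0) (lam : AddChar (ZMod m) ℂ) {x : Wr m G}
    (hx : x.s ≠ 0) : Cong M (omega (Wr.map i) (extChar α lam) x) 0 := by
  classical
  have hm1 : 1 ≤ m - 1 := by
    have := hm.out.two_le
    omega
  obtain ⟨k, hk⟩ := Nat.exists_eq_add_of_le' hm1
  have h0 : AI (0 : ℂ) := isIntegral_zero
  have hqi : AI ((Fintype.card H : ℂ) / α 1) := hq.ai h0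
  -- the class function on `H`
  let z : H → ℤ := fun c => if IsConj x (Wr.map i (single c x.s)) then 1 else 0
  have hz : ∀ g h, z (h * g * h⁻¹) = z g := by
    intro g h
    have h1 : IsConj (Wr.map i (single (m := m) g x.s)) (Wr.map i (single (h * g * h⁻¹) x.s)) := by
      rw [isConj_iff]
      refine ⟨Wr.map i (Wr.base m H fun _ => h), ?_⟩
      rw [← map_mul, ← map_inv, ← map_mul]
      congr 1
      apply Wr.ext
      · funext j
        rw [Wr.conj_f]
        simp only [Wr.base_f, Wr.base_s, sub_zero, single]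
        by_cases hj : j = 0
        · subst hj; simp
        · rw [Pi.mulSingle_eq_of_ne hj, Pi.mulSingle_eq_of_ne hj]
          simp
      · rw [Wr.conj_s]; rfl
    have h2 : IsConj x (Wr.map i (single (h * g * h⁻¹) x.s)) ↔
        IsConj x (Wr.map i (single g x.s)) :=
      ⟨fun h' => h'.trans h1.symm, fun h' => h'.trans h1⟩
    simp only [z, h2]
  have hai := ai_central hα z hz
  have hlam : AI (lam x.s) := by
    apply IsIntegral.of_pow (n := m) hm.out.pos
    rw [← AddChar.map_nsmul_eq_pow, nsmul_eq_mul, ZMod.natCast_self, zero_mul,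
      AddChar.map_zero_eq_one]
    exact isIntegral_one
  have key : omega (Wr.map i) (extChar α lam) x =
      ((Fintype.card H : ℂ) / α 1) * (((Fintype.card H : ℂ) / α 1) ^ k * lam x.s *
        ((∑ c, (z c : ℂ) * α c) / α 1)) := by
    rw [omega_eq, extChar_one hα]
    have h1 : (∑ y : Wr m H, if IsConj x (Wr.map i y) then extChar α lam y else 0) =
        (Fintype.card H : ℂ) ^ (m - 1) * ∑ c : H, (lam x.s * ((z c : ℂ) * α c)) := by
      rw [sum_wr, Finset.sum_eq_single_of_mem x.s (Finset.mem_univ _)]
      · rw [sum_coset hx (fun y => if IsConj x (Wr.map i y) then extChar α lam y else 0)]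
        · congr 1
          apply Finset.sum_congr rfl
          intro c _
          rw [extChar_single hα lam hx]
          simp only [z]
          split_ifs <;> simp
        · intro a b
          have h2 : IsConj (Wr.map i a) (Wr.map i (b * a * b⁻¹)) := by
            rw [map_mul, map_mul, map_inv]; exact isConj_iff.2 ⟨_, rfl⟩
          have h3 : IsConj x (Wr.map i (b * a * b⁻¹)) ↔ IsConj x (Wr.map i a) :=
            ⟨fun h' => h'.trans h2.symm, fun h' => h'.trans h2⟩
          simp only [h3, irr_conj (extChar_mem hα lam)]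
      · intro s _ hs
        apply Finset.sum_eq_zero
        intro f _
        rw [if_neg]
        intro h
        exact hs (Wr.isConj_s h).symm
    rw [h1, ← Finset.mul_sum, hk]
    have h4 : α 1 ≠ 0 := irr_one_ne hα
    have h5 : m = k + 2 := by omega
    have h6 : α 1 ^ m = α 1 ^ (k + 2) := congrArg (fun n => α 1 ^ n) h5
    rw [h6, div_pow]
    field_simp
    ring
  rw [key]
  exact hq.mul_zero_right (((hqi.pow k).mul hlam).mul hai)

/-- The counting formula for the characters of `H wr C_m` in blocks inducing to the block of the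
extension of `χ × ... × χ`. -/
theorem wr_block_count (hℓ : (ℓ : integralClosure ℤ ℂ) ∈ M) (hne : m ≠ ℓ) {i : H →* G}
    (hi : Function.Injective i) {χ : G → ℂ} (hχ : χ ∈ Irr G)
    (hX : Cong M ((Nat.card G : ℂ) / χ 1) 0)
    (hD : ∀ α ∈ IrrBlock M i χ, Cong M ((Nat.card H : ℂ) / α 1) 0) :
    m * (IrrBlock M (Wr.map (m := m) i) (extChar χ 1)).ncard + (IrrBlock M i χ).ncard =
      (IrrBlock M i χ).ncard ^ m + m ^ 2 * (IrrBlock M i χ).ncard := by
  rw [Nat.card_eq_fintype_card] at hX
  simp only [Nat.card_eq_fintype_card] at hD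
  have hXoff : ∀ x : Wr m G, x.s ≠ 0 →
      Cong M (omega (MonoidHom.id (Wr m G)) (extChar χ 1) x) 0 := by
    intro x hx
    exact omega_map_off_ext (MonoidHom.id G) hχ hX 1 hx
  have hXbase : ∀ g : ZMod m → G, omega (MonoidHom.id (Wr m G)) (extChar χ 1) (Wr.base m G g) =
      omega ((Wr.base m G).comp (pimap fun _ => MonoidHom.id G)) (piChar fun _ => χ)
        (Wr.base m G g) :=
    fun g => omega_map_base_ext (MonoidHom.id G) hχ 1 g
  have hbase : ∀ x : Wr m G, x.s = 0 → x = Wr.base m G x.f := by
    intro x hx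
    apply Wr.ext
    · rfl
    · exact hx
  apply wr_count
  · exact fun α hα => hα.1
  · exact fun θ hθ => hθ.1
  · intro α hα hnc
    have hb := block_base (M := M) hℓ hne (fun _ => i) (fun _ => hi) hα hχ
    rw [← hb]
    constructor
    · rintro ⟨_, h⟩ g
      rw [← omega_map_base_ind i hα, ← hXbase]
      exact h _
    · intro h
      refine ⟨indChar_mem hα hnc, fun x => ?_⟩
      by_cases hx : x.s = 0
      · rw [hbase x hx, omega_map_base_ind i hα, hXbase]
        exact h _
      · rw [omega_map_off_ind i α hx]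
        exact (hXoff x hx).symm
  · intro α hα lam
    have hb := block_base (M := M) hℓ hne (fun _ : ZMod m => i) (fun _ => hi) (fun _ => hα) hχ
    constructor
    · rintro ⟨_, h⟩
      apply hb.1 _ 0
      intro g
      rw [← omega_map_base_ext i hα lam, ← hXbase]
      exact h _
    · intro h
      refine ⟨extChar_mem hα lam, fun x => ?_⟩
      by_cases hx : x.s = 0
      · rw [hbase x hx, omega_map_base_ext i hα lam, hXbase]
        exact hb.2 (fun _ => h) _
      · exact (omega_map_off_ext i hα (hD α h) lam hx).trans (hXoff x hx).symm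

omit [Fintype H] in
/-- the characters of a subgroup of the base group -/
theorem base_block_eq (hℓ : (ℓ : integralClosure ℤ ℂ) ∈ M) (hne : m ≠ ℓ)
    {K : ZMod m → Type} [∀ j, Group (K j)] [∀ j, Finite (K j)] {p : ∀ j, K j →* G}
    (hp' : ∀ j, Function.Injective (p j)) {χ : G → ℂ} (hχ : χ ∈ Irr G)
    (hX : Cong M ((Nat.card G : ℂ) / χ 1) 0) :
    IrrBlock M ((Wr.base m G).comp (pimap p)) (extChar χ 1) =
      IrrBlock M (pimap p) (piChar fun _ => χ) := by
  have : ∀ j, Fintype (K j) := fun j => Fintype.ofFinite _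
  rw [Nat.card_eq_fintype_card] at hX
  ext θ
  have hXoff : ∀ x : Wr m G, x.s ≠ 0 →
      Cong M (omega (MonoidHom.id (Wr m G)) (extChar χ 1) x) 0 := by
    intro x hx
    exact omega_map_off_ext (MonoidHom.id G) hχ hX 1 hx
  have hXbase : ∀ g : ZMod m → G, omega (MonoidHom.id (Wr m G)) (extChar χ 1) (Wr.base m G g) =
      omega ((Wr.base m G).comp (pimap fun _ => MonoidHom.id G)) (piChar fun _ => χ)
        (Wr.base m G g) :=
    fun g => omega_map_base_ext (MonoidHom.id G) hχ 1 g
  have hbase : ∀ x : Wr m G, x.s = 0 → x = Wr.base m G x.f := by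
    intro x hx
    apply Wr.ext
    · rfl
    · exact hx
  have key : ∀ α : ∀ j, K j → ℂ, (∀ j, α j ∈ Irr (K j)) →
      (piChar α ∈ IrrBlock M ((Wr.base m G).comp (pimap p)) (extChar χ 1) ↔
        piChar α ∈ IrrBlock M (pimap p) (piChar fun _ => χ)) := by
    intro α hα
    rw [mem_IrrBlock_pi hp' hα (fun _ => hχ), ← block_base (M := M) hℓ hne p hp' hα hχ]
    constructor
    · rintro ⟨_, h⟩ g
      rw [← hXbase]
      exact h _
    · intro h
      refine ⟨piChar_mem hα, fun x => ?_⟩
      by_cases hx : x.s = 0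
      · rw [hbase x hx, hXbase]
        exact h _
      · rw [omega_base_off _ _ hx]
        exact (hXoff x hx).symm
  constructor
  · intro h
    obtain ⟨α, hα, rfl⟩ := exists_piChar h.1
    exact (key α hα).1 h
  · intro h
    obtain ⟨α, hα, rfl⟩ := exists_piChar h.1
    exact (key α hα).2 h

end Pool.Agent.Helper51_AWC
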