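import Pool.Agent.Helper51_AWC.Transport
import Pool.Agent.Helper51_AWC.WrCount

/-!
Chains of `ℓ`-subgroups of the wreath product `G wr C_m`.
-/

open scoped BigOperators

noncomputable section

namespace Pool.Agent.Helper51_AWC

section general

variable {G : Type} [Group G]

/-- conjugation as an embedding -/
def conjEmb (g : G) : Subgroup G ↪ Subgroup G := ⟨conjS g, conjS_injective g⟩

theorem conjEmb_apply (g : G) (D : Subgroup G) : conjEmb g D = conjS g D := rfl

theorem stab_map_conj (g : G) (d : Finset (Subgroup G)) :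
    stab (d.map (conjEmb g)) = conjS g (stab d) := by
  ext x
  rw [mem_conjS, mem_stab, mem_stab]
  constructor
  · intro h D hD
    have := h (conjS g D) (Finset.mem_map_of_mem _ hD)
    apply conjS_injective g
    rw [conjS_conjS] at this ⊢
    rw [← this]
    congr 1
    group
  · intro h D hD
    obtain ⟨E, hE, rfl⟩ := Finset.mem_map.1 hD
    have := congrArg (conjS g) (h E hE)
    show conjS x (conjS g E) = conjS g E
    rw [conjS_conjS] at this ⊢
    rw [← this]
    congr 1
    group

theorem weight_map_conj (M : Ideal (integralClosure ℤ ℂ)) (χ : G → ℂ) (g : G)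
    (d : Finset (Subgroup G)) : weight M χ (d.map (conjEmb g)) = weight M χ d := by
  unfold weight
  rw [stab_map_conj]
  obtain ⟨h1, h2⟩ := weight_conjS M χ g (stab d)
  rw [h1, h2]

theorem conjS_self {D : Subgroup G} {x : G} (hx : x ∈ D) : conjS x D = D := by
  ext y
  rw [mem_conjS]
  constructor
  · intro h
    have := D.mul_mem (D.mul_mem hx h) (D.inv_mem hx)
    simpa [mul_assoc] using this
  · intro h
    exact D.mul_mem (D.mul_mem (D.inv_mem hx) h) hx

theorem conjS_bot (x : G) : conjS x (⊥ : Subgroup G) = ⊥ := Subgroup.map_bot _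

variable [Finite G] {ℓ : ℕ} [hp : Fact ℓ.Prime] {M : Ideal (integralClosure ℤ ℂ)} [hM : M.IsPrime]

/-- `ℓ` divides `|G_d| / α(1)` for the characters `α` of chain stabilisers in the block -/
theorem defect_chain (hℓ : (ℓ : integralClosure ℤ ℂ) ∈ M) {χ : G → ℂ}
    (hχ : χ ∈ Irr G) (hX : Cong M ((Nat.card G : ℂ) / χ 1) 0) {d : Finset (Subgroup G)}
    (hd1 : ∀ D ∈ d, IsPGroup ℓ D) (hd2 : IsChain (· ≤ ·) (d : Set (Subgroup G)))
    {α : stab d → ℂ} (hα : α ∈ IrrBlock M (stab d).subtype χ) :
    Cong M ((Nat.card (stab d) : ℂ) / α 1) 0 := by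
  classical
  have := Fintype.ofFinite G
  have := Fintype.ofFinite (stab d)
  by_cases h : ∃ D ∈ d, D ≠ ⊥
  · obtain ⟨D, hD, hD'⟩ := h
    obtain ⟨P, hP, hPmin⟩ := exists_least (d := d.filter (fun D => D ≠ ⊥))
      (hd2.mono (by intro y hy; exact Finset.mem_of_mem_filter y hy))
      ⟨D, Finset.mem_filter.2 ⟨hD, hD'⟩⟩
    rw [Finset.mem_filter] at hP
    have hPs : P ≤ stab d := by
      intro x hx
      rw [mem_stab]
      intro E hE
      by_cases hE' : E = ⊥
      · rw [hE', conjS_bot]
      · exact conjS_self (hPmin E (Finset.mem_filter.2 ⟨hE, hE'⟩) hx)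
    have hn : (P.subgroupOf (stab d)).Normal := by
      constructor
      intro n hn g
      rw [Subgroup.mem_subgroupOf] at hn ⊢
      have h1 := mem_stab.1 g.2 P hP.1
      rw [← h1, mem_conjS]
      simpa [mul_assoc] using hn
    have hp1 : IsPGroup ℓ (P.subgroupOf (stab d)) :=
      (hd1 P hP.1).comap_of_injective _ (stab d).subtype_injective
    have hne : P.subgroupOf (stab d) ≠ ⊥ := by
      intro h1
      apply hP.2
      rw [eq_bot_iff]
      intro x hx
      have h2 : (⟨x, hPs hx⟩ : stab d) ∈ P.subgroupOf (stab d) := by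
        rw [Subgroup.mem_subgroupOf]; exact hx
      rw [h1, Subgroup.mem_bot] at h2
      rw [Subgroup.mem_bot]
      exact congrArg Subtype.val h2
    have := defect_normal hℓ hn hp1 hne hα.1
    rw [Nat.card_eq_fintype_card]
    exact this
  · push Not at h
    have htop : stab d = ⊤ := by
      rw [eq_top_iff]
      intro x _
      rw [mem_stab]
      intro D hD
      rw [h D hD, conjS_bot]
    have e : G ≃* stab d := (Subgroup.topEquiv.symm).trans (MulEquiv.subgroupCongr htop.symm)
    let e' : stab d ≃* G := (MulEquiv.subgroupCongr htop).trans Subgroup.topEquiv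
    have he : ∀ x : stab d, e' x = (x : G) := fun x => rfl
    have h1 : (fun g => α (e'.symm g)) ∈ Irr G := irr_comp_equiv e'.symm hα.1
    have h2 : ∀ g, omega (MonoidHom.id G) (fun g => α (e'.symm g)) g =
        omega (stab d).subtype α g := by
      intro g
      apply omega_equiv (MonoidHom.id G) (stab d).subtype e'.symm
      intro h
      have : ((e'.symm h : stab d) : G) = h := by
        rw [← he, e'.apply_symm_apply]
      rw [Subgroup.coe_subtype, this]
      exact IsConj.refl _
    have h3 := defect_block (M := M) h1 hχ (by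
      intro g
      rw [h2]
      exact (hα.2 g).symm) (by rw [← Nat.card_eq_fintype_card]; exact hX)
    have h4 : Nat.card (stab d) = Fintype.card G := by
      rw [← Nat.card_eq_fintype_card]; exact Nat.card_congr e'.toEquiv
    rw [h4]
    have h5 : α (e'.symm 1) = α 1 := by rw [map_one]
    rw [← h5]
    exact h3

end general

/-! ### subgroups of the base group -/

section box

variable {m : ℕ} {G : Type} [Group G]

/-- projection of a subgroup of the base group -/
def pr (i : ZMod m) (D : Subgroup (ZMod m → G)) : Subgroup G :=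
  D.map (Pi.evalMonoidHom (fun _ : ZMod m => G) i)

theorem mem_pr {i : ZMod m} {D : Subgroup (ZMod m → G)} {x : G} :
    x ∈ pr i D ↔ ∃ f ∈ D, f i = x := Iff.rfl

/-- the product of subgroups -/
def box (E : ZMod m → Subgroup G) : Subgroup (ZMod m → G) := Subgroup.pi Set.univ E

theorem mem_box {E : ZMod m → Subgroup G} {f : ZMod m → G} : f ∈ box E ↔ ∀ i, f i ∈ E i := by
  simp [box, Subgroup.mem_pi]

theorem pr_box (E : ZMod m → Subgroup G) (i : ZMod m) : pr i (box E) = E i := by
  ext x
  rw [mem_pr]
  constructor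
  · rintro ⟨f, hf, rfl⟩
    exact mem_box.1 hf i
  · intro hx
    refine ⟨Pi.mulSingle i x, mem_box.2 fun j => ?_, by simp⟩
    by_cases h : j = i
    · subst h; rw [Pi.mulSingle_eq_same]; exact hx
    · rw [Pi.mulSingle_eq_of_ne h]; exact (E j).one_mem

theorem box_injective : Function.Injective (box (m := m) (G := G)) := by
  intro E F h
  funext i
  rw [← pr_box E i, h, pr_box]

theorem box_mono {E F : ZMod m → Subgroup G} (h : ∀ i, E i ≤ F i) : box E ≤ box F := by
  intro f hf
  exact mem_box.2 fun i => h i (mem_box.1 hf i)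

theorem pr_mono {i : ZMod m} {D E : Subgroup (ZMod m → G)} (h : D ≤ E) : pr i D ≤ pr i E :=
  Subgroup.map_mono h

/-- the closure operator -/
def closN (D : Subgroup (ZMod m → G)) : Subgroup (ZMod m → G) := box fun i => pr i D

theorem le_closN (D : Subgroup (ZMod m → G)) : D ≤ closN D := by
  intro f hf
  exact mem_box.2 fun i => ⟨f, hf, rfl⟩

theorem closN_mono {D E : Subgroup (ZMod m → G)} (h : D ≤ E) : closN D ≤ closN E :=
  box_mono fun _ => pr_mono h

theorem closN_box (E : ZMod m → Subgroup G) : closN (box E) = box E := by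
  unfold closN
  simp only [pr_box]

theorem closN_closN (D : Subgroup (ZMod m → G)) : closN (closN D) = closN D := closN_box _

theorem conjS_box (g : ZMod m → G) (E : ZMod m → Subgroup G) :
    conjS g (box E) = box fun i => conjS (g i) (E i) := by
  ext f
  simp only [mem_conjS, mem_box]
  rfl

theorem box_pgroup {ℓ : ℕ} [Finite G] [NeZero m] {E : ZMod m → Subgroup G}
    (h : ∀ i, IsPGroup ℓ (E i)) : IsPGroup ℓ (box E) := by
  classical
  have := Fintype.ofFinite G
  rintro ⟨f, hf⟩
  have h1 : ∀ i, ∃ k, f i ^ ℓ ^ k = 1 := by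
    intro i
    obtain ⟨k, hk⟩ := h i ⟨f i, mem_box.1 hf i⟩
    exact ⟨k, congrArg Subtype.val hk⟩
  choose k hk using h1
  refine ⟨∑ i, k i, ?_⟩
  apply Subtype.ext
  show f ^ ℓ ^ (∑ i, k i) = 1
  funext i
  rw [Pi.pow_apply, Pi.one_apply]
  have h2 : k i ≤ ∑ i, k i := Finset.single_le_sum (fun _ _ => Nat.zero_le _) (Finset.mem_univ i)
  obtain ⟨c, hc⟩ := Nat.exists_eq_add_of_le h2
  rw [hc, pow_add, pow_mul, hk, one_pow]

/-- the inclusion of the base group on subgroups -/
def iS (m : ℕ) (G : Type) [Group G] : Subgroup (ZMod m → G) ↪o Subgroup (Wr m G) where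
  toFun D := D.map (Wr.base m G)
  inj' := Subgroup.map_injective Wr.base_injective
  map_rel_iff' := by
    intro D E
    exact Subgroup.map_le_map_iff_of_injective Wr.base_injective

theorem mem_iS {D : Subgroup (ZMod m → G)} {x : Wr m G} :
    x ∈ iS m G D ↔ x.s = 0 ∧ x.f ∈ D := by
  show x ∈ D.map (Wr.base m G) ↔ _
  rw [Subgroup.mem_map]
  constructor
  · rintro ⟨f, hf, rfl⟩
    exact ⟨rfl, hf⟩
  · rintro ⟨h1, h2⟩
    refine ⟨x.f, h2, ?_⟩
    apply Wr.ext
    · rfl
    · exact h1.symm

theorem inv_conj_f (x y : Wr m G) (i : ZMod m) (hx : x.s = 0) :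
    (y⁻¹ * x * y).f (i - y.s) = (y.f i)⁻¹ * x.f i * y.f i := by
  simp only [Wr.mul_f, Wr.inv_f, Wr.inv_s, Wr.mul_s, hx]
  congr 3 <;> ring_nf

theorem conjS_iS_iff {t : Wr m G} {D E : Subgroup (ZMod m → G)} :
    conjS t (iS m G D) = iS m G E ↔
      ∀ f : ZMod m → G, f ∈ E ↔ (fun i => (t.f (i + t.s))⁻¹ * f (i + t.s) * t.f (i + t.s)) ∈ D := by
  have key : ∀ f : ZMod m → G, Wr.base m G f ∈ conjS t (iS m G D) ↔
      (fun i => (t.f (i + t.s))⁻¹ * f (i + t.s) * t.f (i + t.s)) ∈ D := by
    intro f
    rw [mem_conjS, mem_iS]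
    have h1 : (t⁻¹ * Wr.base m G f * t).s = 0 := by
      simp [Wr.mul_s, Wr.inv_s, Wr.base_s]
    have h2 : (t⁻¹ * Wr.base m G f * t).f =
        fun i => (t.f (i + t.s))⁻¹ * f (i + t.s) * t.f (i + t.s) := by
      funext i
      have := inv_conj_f (Wr.base m G f) t (i + t.s) rfl
      rw [add_sub_cancel_right] at this
      exact this
    rw [h2]
    exact ⟨fun h => h.2, fun h => ⟨h1, h⟩⟩
  constructor
  · intro h f
    rw [← key, h, mem_iS]
    exact ⟨fun h => ⟨rfl, h⟩, fun h => h.2⟩
  · intro h
    ext x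
    by_cases hx : x.s = 0
    · have hx' : x = Wr.base m G x.f := by
        apply Wr.ext
        · rfl
        · exact hx
      rw [hx', key, ← h, mem_iS]
      exact ⟨fun h => ⟨rfl, h⟩, fun h => h.2⟩
    · constructor
      · intro h'
        rw [mem_conjS, mem_iS] at h'
        exfalso
        apply hx
        have := h'.1
        simp only [Wr.mul_s, Wr.inv_s] at this
        linear_combination this
      · intro h'
        exact absurd (mem_iS.1 h').1 hx

/-- projections of a stable subgroup -/
theorem pr_of_stable {t : Wr m G} {D : Subgroup (ZMod m → G)}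
    (h : conjS t (iS m G D) = iS m G D) (i : ZMod m) :
    conjS (t.f i) (pr (i - t.s) D) = pr i D := by
  have h1 := conjS_iS_iff.1 h
  ext x
  rw [mem_conjS, mem_pr, mem_pr]
  constructor
  · rintro ⟨f, hf, hx⟩
    refine ⟨fun j => t.f j * f (j - t.s) * (t.f j)⁻¹, ?_, ?_⟩
    · rw [h1]
      have : (fun i => (t.f (i + t.s))⁻¹ * (t.f (i + t.s) * f (i + t.s - t.s) *
          (t.f (i + t.s))⁻¹) * t.f (i + t.s)) = f := by
        funext i
        rw [add_sub_cancel_right]; group
      rw [this]; exact hf
    · show t.f i * f (i - t.s) * (t.f i)⁻¹ = x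
      rw [hx]; group
  · rintro ⟨f, hf, rfl⟩
    refine ⟨_, (h1 f).1 hf, ?_⟩
    show (t.f (i - t.s + t.s))⁻¹ * f (i - t.s + t.s) * t.f (i - t.s + t.s) = _
    rw [sub_add_cancel]

theorem conjS_iS_box {t : Wr m G} {E F : ZMod m → Subgroup G} :
    conjS t (iS m G (box E)) = iS m G (box F) ↔ ∀ i, conjS (t.f i) (E (i - t.s)) = F i := by
  constructor
  · intro h i
    have h1 := conjS_iS_iff.1 h
    ext x
    rw [mem_conjS]
    constructor
    · intro hx
      rw [← pr_box E, mem_pr] at hx
      obtain ⟨f, hf, hx⟩ := hx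
      rw [← pr_box F, mem_pr]
      refine ⟨fun j => t.f j * f (j - t.s) * (t.f j)⁻¹, ?_, ?_⟩
      · rw [h1]
        have : (fun i => (t.f (i + t.s))⁻¹ * (t.f (i + t.s) * f (i + t.s - t.s) *
            (t.f (i + t.s))⁻¹) * t.f (i + t.s)) = f := by
          funext i
          rw [add_sub_cancel_right]; group
        rw [this]; exact hf
      · show t.f i * f (i - t.s) * (t.f i)⁻¹ = x
        rw [hx]; group
    · intro hx
      rw [← pr_box F, mem_pr] at hx
      obtain ⟨f, hf, rfl⟩ := hx
      rw [← pr_box E, mem_pr]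
      refine ⟨_, (h1 f).1 hf, ?_⟩
      show (t.f (i - t.s + t.s))⁻¹ * f (i - t.s + t.s) * t.f (i - t.s + t.s) = _
      rw [sub_add_cancel]
  · intro h
    rw [conjS_iS_iff]
    intro f
    rw [mem_box, mem_box]
    constructor
    · intro h1 i
      have h2 := h1 (i + t.s)
      rw [← h, mem_conjS, add_sub_cancel_right] at h2
      exact h2
    · intro h1 i
      have h2 := h1 (i - t.s)
      rw [← h, mem_conjS]
      simp only [sub_add_cancel] at h2
      exact h2

theorem closN_stable {t : Wr m G} {D : Subgroup (ZMod m → G)}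
    (h : conjS t (iS m G D) = iS m G D) : conjS t (iS m G (closN D)) = iS m G (closN D) := by
  unfold closN
  rw [conjS_iS_box]
  exact fun i => pr_of_stable h i

theorem conjS_base (g : ZMod m → G) (D : Subgroup (ZMod m → G)) :
    conjS (Wr.base m G g) (iS m G D) = iS m G (conjS g D) := by
  rw [conjS_iS_iff]
  intro f
  rw [mem_conjS]
  have : (fun i => ((Wr.base m G g).f (i + (Wr.base m G g).s))⁻¹ *
      f (i + (Wr.base m G g).s) * (Wr.base m G g).f (i + (Wr.base m G g).s)) =
      g⁻¹ * f * g := by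
    funext i
    simp [Wr.base_f, Wr.base_s]
  rw [this]

theorem closN_stable_base {g : ZMod m → G} {D : Subgroup (ZMod m → G)} (h : conjS g D = D) :
    conjS g (closN D) = closN D := by
  have h1 : conjS (Wr.base m G g) (iS m G D) = iS m G D := by rw [conjS_base, h]
  have h2 := closN_stable h1
  rw [conjS_base] at h2
  exact (iS m G).injective h2

end box

end Pool.Agent.Helper51_AWC
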