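import Pool.Agent.Helper51_AWC.BlockProd

/-!
The alternating sum of a direct product of groups is the product of the alternating sums.
-/

open scoped BigOperators

noncomputable section

namespace Pool.Agent.Helper51_AWC

variable {G : Type} [Group G] {G₁ G₂ : Type} [Group G₁] [Group G₂]

theorem opCore_exists (ℓ : ℕ) [Fact ℓ.Prime] (G : Type) [Group G] [Finite G] :
    ∃ N : Subgroup G, N.Normal ∧ IsPGroup ℓ N ∧ ∀ K : Subgroup G, K.Normal → IsPGroup ℓ K → K ≤ N := by
  classical
  have hfin : {N : Subgroup G | N.Normal ∧ IsPGroup ℓ N}.Finite := Set.toFinite _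
  obtain ⟨N, hN⟩ := hfin.exists_maximal ⟨⊥, Subgroup.normal_bot, IsPGroup.of_bot⟩
  refine ⟨N, hN.1.1, hN.1.2, fun K hK hKp => ?_⟩
  have hNn := hN.1.1
  have h1 : (N ⊔ K) ∈ {N : Subgroup G | N.Normal ∧ IsPGroup ℓ N} :=
    ⟨Subgroup.sup_normal N K, hN.1.2.to_sup_of_normal_right hKp⟩
  exact le_sup_right.trans (hN.2 h1 le_sup_left)

theorem opCore_spec (ℓ : ℕ) [Fact ℓ.Prime] (G : Type) [Group G] [Finite G] :
    (opCore ℓ G).Normal ∧ IsPGroup ℓ (opCore ℓ G) ∧
      ∀ K : Subgroup G, K.Normal → IsPGroup ℓ K → K ≤ opCore ℓ G := by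
  obtain ⟨N, h1, h2, h3⟩ := opCore_exists ℓ G
  have : opCore ℓ G = N := by
    apply le_antisymm
    · exact sSup_le fun K hK => h3 K hK.1 hK.2
    · exact le_sSup ⟨h1, h2⟩
  rw [this]
  exact ⟨h1, h2, h3⟩

theorem isPGroup_prod {ℓ : ℕ} {P : Subgroup G₁} {Q : Subgroup G₂} (hP : IsPGroup ℓ P)
    (hQ : IsPGroup ℓ Q) : IsPGroup ℓ (P.prod Q) := by
  rintro ⟨⟨a, b⟩, h⟩
  obtain ⟨m, hm⟩ := hP ⟨a, (Subgroup.mem_prod.1 h).1⟩
  obtain ⟨n, hn⟩ := hQ ⟨b, (Subgroup.mem_prod.1 h).2⟩
  refine ⟨m + n, ?_⟩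
  have h1 : a ^ ℓ ^ m = 1 := congrArg Subtype.val hm
  have h2 : b ^ ℓ ^ n = 1 := congrArg Subtype.val hn
  apply Subtype.ext
  show (a, b) ^ ℓ ^ (m + n) = 1
  rw [Prod.pow_mk, pow_add, pow_mul, h1, one_pow, mul_comm, pow_mul, h2, one_pow]
  rfl

theorem opCore_prod (ℓ : ℕ) [Fact ℓ.Prime] [Finite G₁] [Finite G₂] :
    opCore ℓ (G₁ × G₂) = (opCore ℓ G₁).prod (opCore ℓ G₂) := by
  obtain ⟨a1, a2, a3⟩ := opCore_spec ℓ G₁
  obtain ⟨b1, b2, b3⟩ := opCore_spec ℓ G₂
  obtain ⟨c1, c2, c3⟩ := opCore_spec ℓ (G₁ × G₂)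
  apply le_antisymm
  · intro x hx
    rw [Subgroup.mem_prod]
    constructor
    · apply a3 ((opCore ℓ (G₁ × G₂)).map (MonoidHom.fst G₁ G₂))
      · exact c1.map _ Prod.fst_surjective
      · exact c2.map _
      · exact ⟨x, hx, rfl⟩
    · apply b3 ((opCore ℓ (G₁ × G₂)).map (MonoidHom.snd G₁ G₂))
      · exact c1.map _ Prod.snd_surjective
      · exact c2.map _
      · exact ⟨x, hx, rfl⟩
  · exact c3 _ (Subgroup.prod_normal _ _) (isPGroup_prod a2 b2)

/-- the closure operator `D ↦ π₁(D) × π₂(D)` -/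
def clos (D : Subgroup (G₁ × G₂)) : Subgroup (G₁ × G₂) :=
  (D.map (MonoidHom.fst G₁ G₂)).prod (D.map (MonoidHom.snd G₁ G₂))

theorem le_clos (D : Subgroup (G₁ × G₂)) : D ≤ clos D := by
  intro x hx
  exact Subgroup.mem_prod.2 ⟨⟨x, hx, rfl⟩, ⟨x, hx, rfl⟩⟩

theorem clos_mono {D E : Subgroup (G₁ × G₂)} (h : D ≤ E) : clos D ≤ clos E :=
  Subgroup.prod_mono (Subgroup.map_mono h) (Subgroup.map_mono h)

theorem map_fst_prod (P : Subgroup G₁) (Q : Subgroup G₂) :
    (P.prod Q).map (MonoidHom.fst G₁ G₂) = P := by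
  ext x
  constructor
  · rintro ⟨y, hy, rfl⟩; exact (Subgroup.mem_prod.1 hy).1
  · intro hx; exact ⟨(x, 1), Subgroup.mem_prod.2 ⟨hx, Q.one_mem⟩, rfl⟩

theorem map_snd_prod (P : Subgroup G₁) (Q : Subgroup G₂) :
    (P.prod Q).map (MonoidHom.snd G₁ G₂) = Q := by
  ext x
  constructor
  · rintro ⟨y, hy, rfl⟩; exact (Subgroup.mem_prod.1 hy).2
  · intro hx; exact ⟨(1, x), Subgroup.mem_prod.2 ⟨P.one_mem, hx⟩, rfl⟩

theorem clos_prod (P : Subgroup G₁) (Q : Subgroup G₂) : clos (P.prod Q) = P.prod Q := by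
  rw [clos, map_fst_prod, map_snd_prod]

theorem clos_clos (D : Subgroup (G₁ × G₂)) : clos (clos D) = clos D := clos_prod _ _

theorem conjS_clos {g : G₁ × G₂} {D : Subgroup (G₁ × G₂)} (h : conjS g D = D) :
    conjS g (clos D) = clos D := by
  rw [clos, conjS_prod]
  congr 1
  · ext x
    rw [mem_conjS]
    constructor
    · rintro ⟨y, hy, hyx⟩
      refine ⟨g * y * g⁻¹, ?_, ?_⟩
      · rw [← h, SetLike.mem_coe, mem_conjS]; simpa [mul_assoc] using hy
      · have : y.1 = g.1⁻¹ * x * g.1 := hyx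
        show g.1 * y.1 * g.1⁻¹ = x
        rw [this]; simp [mul_assoc]
    · rintro ⟨y, hy, rfl⟩
      refine ⟨g⁻¹ * y * g, ?_, rfl⟩
      rw [SetLike.mem_coe, ← h, mem_conjS] at hy
      exact hy
  · ext x
    rw [mem_conjS]
    constructor
    · rintro ⟨y, hy, hyx⟩
      refine ⟨g * y * g⁻¹, ?_, ?_⟩
      · rw [← h, SetLike.mem_coe, mem_conjS]; simpa [mul_assoc] using hy
      · have : y.2 = g.2⁻¹ * x * g.2 := hyx
        show g.2 * y.2 * g.2⁻¹ = x
        rw [this]; simp [mul_assoc]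
    · rintro ⟨y, hy, rfl⟩
      refine ⟨g⁻¹ * y * g, ?_, rfl⟩
      rw [SetLike.mem_coe, ← h, mem_conjS] at hy
      exact hy

theorem stab_insert_of {d : Finset (Subgroup G)} [DecidableEq (Subgroup G)] {E D : Subgroup G}
    (hD : D ∈ d) (h : ∀ g, conjS g D = D → conjS g E = E) : stab (insert E d) = stab d := by
  ext g
  rw [mem_stab, mem_stab]
  constructor
  · intro h1 K hK; exact h1 K (Finset.mem_insert_of_mem hK)
  · intro h1 K hK
    rcases Finset.mem_insert.1 hK with rfl | hK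
    · exact h g (h1 D hD)
    · exact h1 K hK

theorem altSum_prod (ℓ : ℕ) [Fact ℓ.Prime] (M : Ideal (integralClosure ℤ ℂ)) [Finite G₁]
    [Finite G₂] {χ : G₁ → ℂ} {ψ : G₂ → ℂ} (hχ : χ ∈ Irr G₁) (hψ : ψ ∈ Irr G₂) :
    altSum ℓ M (prodChar χ ψ) = altSum ℓ M χ * altSum ℓ M ψ := by
  classical
  have hc1 : ((Nat.card G₁ : ℤ)) ≠ 0 := by exact_mod_cast Nat.card_pos.ne'
  have hc2 : ((Nat.card G₂ : ℤ)) ≠ 0 := by exact_mod_cast Nat.card_pos.ne'
  obtain ⟨a1, a2, a3⟩ := opCore_spec ℓ G₁
  obtain ⟨b1, b2, b3⟩ := opCore_spec ℓ G₂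
  have key : ((Nat.card (G₁ × G₂) : ℤ)) * altSum ℓ M (prodChar χ ψ) =
      (Nat.card G₁ * altSum ℓ M χ) * (Nat.card G₂ * altSum ℓ M ψ) := by
    rw [card_mul_altSum, card_mul_altSum, card_mul_altSum]
    rw [sum_closure (psub ℓ (G₁ × G₂)) (opCore ℓ (G₁ × G₂)) clos]
    · -- closed chains
      have h1 : ∑ d ∈ (chainsOn (psub ℓ (G₁ × G₂)) (opCore ℓ (G₁ × G₂))).filter
            (fun d => ∀ x ∈ d, clos x = x),
            (-1) ^ (d.card + 1) * (weight M (prodChar χ ψ) d : ℤ) =
          ∑ d ∈ chainsOn (psub ℓ G₁ ×ˢ psub ℓ G₂) (opCore ℓ G₁, opCore ℓ G₂),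
            (-1) ^ (d.card + 1) * ((weight M χ (d.image Prod.fst) : ℤ) *
              (weight M ψ (d.image Prod.snd) : ℤ)) := by
        symm
        apply Finset.sum_bij (fun d _ => d.map (prodEmb G₁ G₂))
        · intro d hd
          obtain ⟨l1, l2, l3⟩ := mem_chainsOn.1 hd
          rw [Finset.mem_filter, mem_chainsOn]
          refine ⟨⟨?_, ?_, ?_⟩, ?_⟩
          · intro D hD
            obtain ⟨p, hp, rfl⟩ := Finset.mem_map.1 hD
            have h2 := Finset.mem_product.1 (l1 hp)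
            rw [mem_psub, mem_psub] at h2
            rw [mem_psub, opCore_prod]
            exact ⟨Subgroup.prod_mono h2.1.1 h2.2.1, isPGroup_prod h2.1.2 h2.2.2⟩
          · rw [opCore_prod]
            exact Finset.mem_map.2 ⟨_, l2, rfl⟩
          · intro D hD E hE hne
            rw [Finset.mem_coe] at hD hE
            obtain ⟨p, hp, rfl⟩ := Finset.mem_map.1 hD
            obtain ⟨q, hq, rfl⟩ := Finset.mem_map.1 hE
            rcases chain_total l3 hp hq with h | h
            · left; exact Subgroup.prod_mono h.1 h.2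
            · right; exact Subgroup.prod_mono h.1 h.2
          · intro D hD
            obtain ⟨p, hp, rfl⟩ := Finset.mem_map.1 hD
            exact clos_prod _ _
        · intro d _ e _ h
          exact Finset.map_injective _ h
        · intro D hD
          rw [Finset.mem_filter, mem_chainsOn] at hD
          obtain ⟨⟨l1, l2, l3⟩, l4⟩ := hD
          have hform : ∀ E ∈ D, E = (E.map (MonoidHom.fst G₁ G₂)).prod
              (E.map (MonoidHom.snd G₁ G₂)) := fun E hE => (l4 E hE).symm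
          refine ⟨D.image (fun E => (E.map (MonoidHom.fst G₁ G₂), E.map (MonoidHom.snd G₁ G₂))),
            ?_, ?_⟩
          · rw [mem_chainsOn]
            refine ⟨?_, ?_, ?_⟩
            · intro p hp
              obtain ⟨E, hE, rfl⟩ := Finset.mem_image.1 hp
              have h2 := mem_psub.1 (l1 hE)
              rw [opCore_prod, hform E hE] at h2
              rw [Finset.mem_product, mem_psub, mem_psub]
              have h3 := h2.1
              refine ⟨⟨?_, (mem_psub.1 (l1 hE)).2.map _⟩, ⟨?_, (mem_psub.1 (l1 hE)).2.map _⟩⟩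
              · have := Subgroup.map_mono (f := MonoidHom.fst G₁ G₂) h3
                rwa [map_fst_prod, map_fst_prod] at this
              · have := Subgroup.map_mono (f := MonoidHom.snd G₁ G₂) h3
                rwa [map_snd_prod, map_snd_prod] at this
            · refine Finset.mem_image.2 ⟨_, l2, ?_⟩
              rw [opCore_prod, map_fst_prod, map_snd_prod]
            · intro p hp q hq hne
              rw [Finset.mem_coe] at hp hq
              obtain ⟨E, hE, rfl⟩ := Finset.mem_image.1 hp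
              obtain ⟨F, hF, rfl⟩ := Finset.mem_image.1 hq
              rcases chain_total l3 hE hF with h | h
              · left; exact ⟨Subgroup.map_mono h, Subgroup.map_mono h⟩
              · right; exact ⟨Subgroup.map_mono h, Subgroup.map_mono h⟩
          · ext E
            rw [Finset.mem_map]
            constructor
            · rintro ⟨p, hp, rfl⟩
              obtain ⟨F, hF, rfl⟩ := Finset.mem_image.1 hp
              show (F.map (MonoidHom.fst G₁ G₂)).prod (F.map (MonoidHom.snd G₁ G₂)) ∈ D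
              rw [← hform F hF]; exact hF
            · intro hE
              exact ⟨_, Finset.mem_image_of_mem _ hE, (hform E hE).symm⟩
        · intro d _
          rw [Finset.card_map, weight_prod M hχ hψ]
          push_cast
          ring
      rw [h1, sum_prod_chains (psub ℓ G₁) (opCore ℓ G₁) (psub ℓ G₂) (opCore ℓ G₂)
        (fun x hx => (mem_psub.1 hx).1) (fun x hx => (mem_psub.1 hx).1)
        (fun c c' => (weight M χ c : ℤ) * (weight M ψ c' : ℤ)), Finset.sum_mul_sum]
      apply Finset.sum_congr rfl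
      intro c _
      apply Finset.sum_congr rfl
      intro c' _
      ring
    · intro D hD
      rw [mem_psub] at hD ⊢
      exact ⟨hD.1.trans (le_clos D), isPGroup_prod (hD.2.map _) (hD.2.map _)⟩
    · intro D _; exact le_clos D
    · intro D _ E _ h; exact clos_mono h
    · intro D _; exact clos_clos D
    · rw [opCore_prod]; exact clos_prod _ _
    · intro D hD; exact (mem_psub.1 hD).1
    · intro d _ D hD hDn
      have : stab (insert (clos D) d) = stab d := stab_insert_of hD (fun g h => conjS_clos h)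
      unfold weight
      rw [this, Finset.card_insert_of_notMem hDn]
      ring
  rw [Nat.card_prod] at key
  push_cast at key
  have : (Nat.card G₁ : ℤ) * Nat.card G₂ * altSum ℓ M (prodChar χ ψ) =
      (Nat.card G₁ : ℤ) * Nat.card G₂ * (altSum ℓ M χ * altSum ℓ M ψ) := by
    rw [key]; ring
  exact mul_left_cancel₀ (mul_ne_zero hc1 hc2) this

end Pool.Agent.Helper51_AWC
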