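import Pool.Agent.Helper51_AWC.Cong

/-!
Divisibility by `ℓ` of `|H| / α(1)`: for a character in a block with a character of positive
defect, and for a group with a nontrivial normal `ℓ`-subgroup.
-/

open scoped BigOperators

noncomputable section

namespace Pool.Agent.Helper51_AWC

variable {G : Type} [Group G] [Fintype G]

theorem sum_classes [Fintype (ConjClasses G)] {φ ψ : G → ℂ} (hφ1 : φ 1 ≠ 0)
    (hψ : ∀ g h, ψ (h * g * h⁻¹) = ψ g) :
    ∑ g, φ g * ψ g⁻¹ =
      φ 1 * ∑ K : ConjClasses G, omega (MonoidHom.id G) φ (Quotient.out K) *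
        ψ (Quotient.out K)⁻¹ := by
  classical
  rw [← Finset.sum_fiberwise Finset.univ (fun g : G => ConjClasses.mk g), Finset.mul_sum]
  apply Finset.sum_congr rfl
  intro K _
  have hK : ConjClasses.mk (Quotient.out K) = K := Quotient.out_eq K
  rw [omega_eq]
  have h1 : ∀ g ∈ Finset.univ.filter (fun g : G => ConjClasses.mk g = K),
      φ g * ψ g⁻¹ = φ g * ψ (Quotient.out K)⁻¹ := by
    intro g hg
    have hg' := (Finset.mem_filter.1 hg).2
    rw [← hK] at hg'
    obtain ⟨c, hc⟩ := isConj_iff.1 (ConjClasses.mk_eq_mk_iff_isConj.1 hg')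
    congr 1
    rw [← hc, mul_inv_rev, mul_inv_rev, inv_inv, ← mul_assoc, hψ]
  rw [Finset.sum_congr rfl h1, ← Finset.sum_mul, Finset.sum_filter]
  have h2 : ∀ g : G, (if ConjClasses.mk g = K then φ g else 0) =
      if IsConj (Quotient.out K) ((MonoidHom.id G) g) then φ g else 0 := by
    intro g
    have : ConjClasses.mk g = K ↔ IsConj (Quotient.out K) g := by
      conv_lhs => rw [← hK]
      rw [ConjClasses.mk_eq_mk_iff_isConj]
      exact ⟨fun h => h.symm, fun h => h.symm⟩
    simp only [this, MonoidHom.id_apply]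
  simp_rw [h2]
  field_simp

/-- `|G| / χ(1)` as a sum over the classes -/
theorem codeg_eq [Fintype (ConjClasses G)] {χ : G → ℂ} (hχ : χ ∈ Irr G) :
    (Fintype.card G : ℂ) / χ 1 = ∑ K : ConjClasses G,
      omega (MonoidHom.id G) χ (Quotient.out K) * χ (Quotient.out K)⁻¹ := by
  have h := sum_classes (irr_one_ne hχ) (fun g h => irr_conj hχ g h)
  rw [irr_orth_self hχ] at h
  rw [h, mul_comm, mul_div_assoc, div_self (irr_one_ne hχ), mul_one]

variable {ℓ : ℕ} [hp : Fact ℓ.Prime] {M : Ideal (integralClosure ℤ ℂ)} [hM : M.IsPrime]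

omit hM in
theorem defect_block {χ ψ : G → ℂ} (hχ : χ ∈ Irr G) (hψ : ψ ∈ Irr G)
    (h : ∀ g, Cong M (omega (MonoidHom.id G) ψ g) (omega (MonoidHom.id G) χ g))
    (hq : Cong M ((Fintype.card G : ℂ) / ψ 1) 0) : Cong M ((Fintype.card G : ℂ) / χ 1) 0 := by
  classical
  by_cases hne : ψ = χ
  · rw [← hne]; exact hq
  · have := Fintype.ofFinite (ConjClasses G)
    rw [codeg_eq hχ]
    have h1 := sum_classes (irr_one_ne hψ) (fun g h => irr_conj hχ g h)
    rw [irr_orth_ne hψ hχ hne] at h1
    have h2 : ∑ K : ConjClasses G,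
      omega (MonoidHom.id G) ψ (Quotient.out K) * χ (Quotient.out K)⁻¹ = 0 := by
      rcases mul_eq_zero.1 h1.symm with h3 | h3
      · exact absurd h3 (irr_one_ne hψ)
      · exact h3
    rw [← h2]
    apply Cong.sum
    intro K _
    exact ((h _).symm).mul_right (irr_integral hχ _)

/-! ### nontrivial normal `ℓ`-subgroups -/

theorem act_mul {V : Type*} [AddCommGroup V] [Module ℂ V] (ρ : Representation ℂ G V)
    (a b : G → ℂ) :
    act ρ a * act ρ b = act ρ (fun y => ∑ h, a h * b (h⁻¹ * y)) := by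
  unfold act
  rw [Finset.sum_mul_sum]
  simp_rw [Finset.sum_smul]
  rw [Finset.sum_comm (s := Finset.univ) (t := Finset.univ)
    (f := fun y h => (a h * b (h⁻¹ * y)) • ρ y)]
  apply Finset.sum_congr rfl
  intro h _
  rw [← Equiv.sum_comp (Equiv.mulLeft h) (fun y => (a h * b (h⁻¹ * y)) • ρ y)]
  apply Finset.sum_congr rfl
  intro k _
  simp only [Equiv.coe_mulLeft, inv_mul_cancel_left, map_mul]
  rw [smul_mul_smul_comm]

theorem act_class {χ : G → ℂ} {n : ℕ} {ρ : Representation ℂ G (Fin n → ℂ)}
    (hρ : ρ.IsIrreducible) (hχ : ρ.character = χ) (h1 : χ 1 ≠ 0) (g : G)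
    [DecidablePred fun h => IsConj g h] :
    act ρ (fun h => if IsConj g h then 1 else 0) =
      (omega (MonoidHom.id G) χ g) • LinearMap.id := by
  classical
  obtain ⟨c, hc⟩ := act_scalar ρ (fun h => if IsConj g h then 1 else 0) (by
    intro x h
    have e : IsConj g (h * x * h⁻¹) ↔ IsConj g x := by
      have : IsConj x (h * x * h⁻¹) := isConj_iff.2 ⟨h, rfl⟩
      exact ⟨fun h' => h'.trans this.symm, fun h' => h'.trans this⟩
    simp only [e])
  rw [hc]
  congr 1
  have h2 := act_trace ρ (fun h => if IsConj g h then (1 : ℂ) else 0)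
  rw [hc] at h2
  have h3 : LinearMap.trace ℂ (Fin n → ℂ) (c • LinearMap.id) = c * χ 1 := by
    rw [map_smul, smul_eq_mul]
    congr 1
    rw [← hχ, Representation.character, map_one]; rfl
  rw [h3] at h2
  rw [omega_eq, eq_div_iff h1, h2, hχ]
  apply Finset.sum_congr rfl
  intro h _
  simp only [MonoidHom.id_apply]
  split_ifs <;> simp

/-- a set stable under right multiplication by the elements of a nontrivial `ℓ`-subgroup has
order divisible by `ℓ` -/
theorem dvd_card_of_stable {P : Subgroup G} (hP : IsPGroup ℓ P) (hne : P ≠ ⊥) (E : Finset G)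
    (hE : ∀ h ∈ E, ∀ x ∈ P, h * x ∈ E) : ℓ ∣ E.card := by
  classical
  have hPn : ℓ ∣ Nat.card P := by
    obtain ⟨k, hk⟩ := (IsPGroup.iff_card (p := ℓ)).1 hP
    rw [hk]
    apply dvd_pow_self
    rintro rfl
    apply hne
    rw [pow_zero] at hk
    exact (Subgroup.card_eq_one).1 hk
  rw [Finset.card_eq_sum_card_image (fun h : G => (QuotientGroup.mk h : G ⧸ P)) E]
  apply Finset.dvd_sum
  intro q hq
  obtain ⟨h, hh, rfl⟩ := Finset.mem_image.1 hq
  have : (E.filter fun a => (QuotientGroup.mk a : G ⧸ P) = QuotientGroup.mk h).card =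
      Nat.card P := by
    rw [Nat.card_eq_fintype_card, ← Finset.card_univ]
    symm
    apply Finset.card_bij (fun (x : P) _ => h * (x : G))
    · intro x _
      rw [Finset.mem_filter]
      refine ⟨hE h hh x x.2, ?_⟩
      rw [QuotientGroup.eq]
      simp
    · intro x _ y _ hxy
      exact Subtype.ext (mul_left_cancel hxy)
    · intro a ha
      rw [Finset.mem_filter] at ha
      exact ⟨⟨h⁻¹ * a, QuotientGroup.eq.1 ha.2.symm⟩, Finset.mem_univ _, by simp⟩
  rw [this]
  exact hPn

/-- classes whose centralisers have order prime to `ℓ` are unions of cosets of a normal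
`ℓ`-subgroup -/
theorem class_stable {P : Subgroup G} (hn : P.Normal) (hP : IsPGroup ℓ P) {g : G}
    (hg : ¬ ℓ ∣ Nat.card (Subgroup.centralizer {g} : Subgroup G)) {x : G} (hx : x ∈ P) {h : G}
    (hh : IsConj g h) : IsConj g (x * h) := by
  classical
  -- the centraliser of `h` meets `P` trivially
  have h1 : ∀ z ∈ P, z * h = h * z → z = 1 := by
    intro z hz hzh
    obtain ⟨c, rfl⟩ := isConj_iff.1 hh
    by_contra hne
    apply hg
    let w : G := c⁻¹ * z * c
    have hw : w ∈ Subgroup.centralizer {g} := by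
      rw [Subgroup.mem_centralizer_singleton_iff]
      show c⁻¹ * z * c * g = g * (c⁻¹ * z * c)
      have : z * c * g = c * g * c⁻¹ * z * c := by
        calc z * c * g = z * (c * g * c⁻¹) * c := by group
          _ = c * g * c⁻¹ * z * c := by rw [hzh]
      calc c⁻¹ * z * c * g = c⁻¹ * (z * c * g) := by group
        _ = _ := by rw [this]; group
    have hwP : w ∈ P := by
      have := hn.conj_mem z hz c⁻¹
      simpa using this
    have hw1 : w ≠ 1 := by
      intro h'
      apply hne
      have : z = c * w * c⁻¹ := by simp only [w]; group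
      rw [this, h']; group
    obtain ⟨k, hk⟩ := hP ⟨w, hwP⟩
    have hk' : w ^ ℓ ^ k = 1 := congrArg Subtype.val hk
    have hord : ℓ ∣ orderOf w := by
      obtain ⟨j, _, hj⟩ := (Nat.dvd_prime_pow hp.out).1 (orderOf_dvd_of_pow_eq_one hk')
      rw [hj]
      apply dvd_pow_self
      rintro rfl
      rw [pow_zero, orderOf_eq_one_iff] at hj
      exact hw1 hj
    have h2 : orderOf (⟨w, hw⟩ : (Subgroup.centralizer {g} : Subgroup G)) = orderOf w :=
      Subgroup.orderOf_mk w hw
    rw [← h2] at hord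
    exact hord.trans (orderOf_dvd_natCard _)
  -- commutators fill `P`
  let f : P → P := fun z => ⟨(z : G) * h * (z : G)⁻¹ * h⁻¹, by
    have h2 : h * (z : G)⁻¹ * h⁻¹ ∈ P := hn.conj_mem _ (P.inv_mem z.2) h
    have : (z : G) * h * (z : G)⁻¹ * h⁻¹ = z * (h * (z : G)⁻¹ * h⁻¹) := by group
    rw [this]
    exact P.mul_mem z.2 h2⟩
  have hf : Function.Injective f := by
    intro z w hzw
    have h2 : (z : G) * h * (z : G)⁻¹ * h⁻¹ = w * h * (w : G)⁻¹ * h⁻¹ := congrArg Subtype.val hzw
    have h3 : (w : G)⁻¹ * z * h = h * ((w : G)⁻¹ * z) := by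
      have h4 : (z : G) * h * (z : G)⁻¹ = w * h * (w : G)⁻¹ := mul_right_cancel h2
      calc (w : G)⁻¹ * z * h = (w : G)⁻¹ * (z * h * (z : G)⁻¹) * z := by group
        _ = h * ((w : G)⁻¹ * z) := by rw [h4]; group
    have h4 := h1 _ (P.mul_mem (P.inv_mem w.2) z.2) h3
    apply Subtype.ext
    have := mul_eq_one_iff_inv_eq.1 h4
    simpa using this.symm
  obtain ⟨z, hz⟩ := (Finite.injective_iff_surjective.1 hf) ⟨x, hx⟩
  have hz' : (z : G) * h * (z : G)⁻¹ * h⁻¹ = x := congrArg Subtype.val hz
  apply hh.trans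
  rw [isConj_iff]
  refine ⟨z, ?_⟩
  rw [← hz']; group

theorem card_class (g : G) [DecidablePred fun h => IsConj g h] :
    Nat.card (Subgroup.centralizer {g} : Subgroup G) *
      (Finset.univ.filter fun h => IsConj g h).card = Fintype.card G := by
  classical
  have h := MulAction.card_orbit_mul_card_stabilizer_eq_card_group (ConjAct G) g
  rw [← Nat.card_eq_fintype_card, ← Nat.card_eq_fintype_card, ← Nat.card_eq_fintype_card,
    ← Subgroup.nat_card_centralizer_nat_card_stabilizer] at h
  have h1 : Nat.card (MulAction.orbit (ConjAct G) g) =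
      (Finset.univ.filter fun h => IsConj g h).card := by
    rw [Nat.card_coe_set_eq, ← Set.ncard_coe_finset]
    congr 1
    ext x
    rw [ConjAct.mem_orbit_conjAct]
    simp only [Finset.coe_filter, Finset.mem_univ, true_and, Set.mem_ofPred_eq]
    exact ⟨fun h => h.symm, fun h => h.symm⟩
  have h2 : Nat.card (ConjAct G) = Fintype.card G := by
    rw [← Nat.card_eq_fintype_card]
    exact Nat.card_congr ConjAct.ofConjAct.toEquiv
  rw [h1, h2] at h
  rw [mul_comm]; exact h

theorem defect_normal (hℓ : (ℓ : integralClosure ℤ ℂ) ∈ M) {P : Subgroup G} (hn : P.Normal)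
    (hP : IsPGroup ℓ P) (hne : P ≠ ⊥) {χ : G → ℂ} (hχ : χ ∈ Irr G) :
    Cong M ((Fintype.card G : ℂ) / χ 1) 0 := by
  classical
  have := Fintype.ofFinite (ConjClasses G)
  have h0 := irr_one_ne hχ
  -- vanishing on the classes with small centraliser
  have key : ∀ g : G, ¬ ℓ ∣ Nat.card (Subgroup.centralizer {g} : Subgroup G) →
      Cong M (omega (MonoidHom.id G) χ g) 0 := by
    intro g hg
    have hai := omega_integral (MonoidHom.id G) hχ g
    apply cong_sq_zero hai
    obtain ⟨n, ρ, hρ, hρχ⟩ := hχ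
    have h1 := act_class hρ hρχ h0 g
    have h2 := act_mul ρ (fun h => if IsConj g h then (1 : ℂ) else 0)
      (fun h => if IsConj g h then (1 : ℂ) else 0)
    rw [h1] at h2
    -- the structure constants
    let E : G → Finset G := fun y => Finset.univ.filter fun h => IsConj g h ∧ IsConj g (h⁻¹ * y)
    have hE : ∀ y, ℓ ∣ (E y).card := by
      intro y
      apply dvd_card_of_stable hP hne
      intro h hh x hx
      rw [Finset.mem_filter] at hh ⊢
      refine ⟨Finset.mem_univ _, ?_, ?_⟩
      · have h3 : h * x = (h * x * h⁻¹) * h := by group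
        rw [h3]
        exact class_stable hn hP hg (hn.conj_mem x hx h) hh.2.1
      · have h3 : (h * x)⁻¹ * y = x⁻¹ * (h⁻¹ * y) := by group
        rw [h3]
        exact class_stable hn hP hg (P.inv_mem hx) hh.2.2
    choose z hz using hE
    have h3 : (fun y => ∑ h, (if IsConj g h then (1 : ℂ) else 0) *
        (if IsConj g (h⁻¹ * y) then (1 : ℂ) else 0)) = fun y => (ℓ : ℂ) * ((z y : ℤ) : ℂ) := by
      funext y
      have h4 : ∀ h, (if IsConj g h then (1 : ℂ) else 0) *
        (if IsConj g (h⁻¹ * y) then (1 : ℂ) else 0) =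
          if (IsConj g h ∧ IsConj g (h⁻¹ * y)) then 1 else 0 := by
        intro h
        by_cases a : IsConj g h
        · by_cases b : IsConj g (h⁻¹ * y)
          · rw [if_pos a, if_pos b, if_pos ⟨a, b⟩, one_mul]
          · have c : ¬ (IsConj g h ∧ IsConj g (h⁻¹ * y)) := fun h' => b h'.2
            rw [if_neg b, if_neg c, mul_zero]
        · have c : ¬ (IsConj g h ∧ IsConj g (h⁻¹ * y)) := fun h' => a h'.1
          rw [if_neg a, if_neg c, zero_mul]
      simp_rw [h4]
      rw [Finset.sum_boole]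
      have h5 : ((E y).card : ℂ) = ((ℓ * z y : ℕ) : ℂ) := by rw [hz]
      push_cast at h5
      exact h5
    rw [h3] at h2
    have hℓ0 : (ℓ : ℂ) ≠ 0 := by exact_mod_cast hp.out.ne_zero
    set w := omega (MonoidHom.id G) χ g with hw
    have h4 : act ρ (fun y => ((z y : ℤ) : ℂ)) = (w ^ 2 / ℓ) • LinearMap.id := by
      have h5 : act ρ (fun y => (ℓ : ℂ) * ((z y : ℤ) : ℂ)) =
          (ℓ : ℂ) • act ρ (fun y => ((z y : ℤ) : ℂ)) := by
        unfold act
        rw [Finset.smul_sum]
        apply Finset.sum_congr rfl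
        intro y _
        rw [mul_smul]
      rw [h5] at h2
      have h6 : (w • LinearMap.id : (Fin n → ℂ) →ₗ[ℂ] (Fin n → ℂ)) * (w • LinearMap.id) =
          w ^ 2 • LinearMap.id := by
        rw [smul_mul_smul_comm, ← sq]
        rfl
      rw [h6] at h2
      calc act ρ (fun y => ((z y : ℤ) : ℂ)) =
            (ℓ : ℂ)⁻¹ • ((ℓ : ℂ) • act ρ (fun y => ((z y : ℤ) : ℂ))) := by
            rw [smul_smul, inv_mul_cancel₀ hℓ0, one_smul]
        _ = (w ^ 2 / ℓ) • LinearMap.id := by
            rw [← h2, smul_smul]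
            congr 1
            field_simp
    have hnt : Nontrivial (Fin n → ℂ) := by
      by_contra hcon
      rw [not_nontrivial_iff_subsingleton] at hcon
      apply h0
      rw [← hρχ, Representation.char_one, Module.finrank_zero_of_subsingleton, Nat.cast_zero]
    have h5 : AI (w ^ 2 / ℓ) := integral_of_act ρ (fun y => (z y : ℤ)) _ h4
    have h6 : w ^ 2 = (ℓ : ℂ) * (w ^ 2 / ℓ) := by field_simp
    rw [h6]
    exact (cong_nat_of_dvd hℓ (dvd_refl ℓ)).mul_zero_right h5
  -- `q² = ∑ |C(g)| ω(g) ω(g⁻¹)`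
  have hcent : ∀ g : G, (Fintype.card G : ℂ) / χ 1 * χ g =
      (Nat.card (Subgroup.centralizer {g} : Subgroup G) : ℂ) * omega (MonoidHom.id G) χ g := by
    intro g
    have h1 : omega (MonoidHom.id G) χ g =
        ((Finset.univ.filter fun h => IsConj g h).card : ℂ) * χ g / χ 1 := by
      rw [omega_eq]
      congr 1
      simp only [MonoidHom.id_apply]
      rw [← Finset.sum_filter]
      have : ∀ h ∈ Finset.univ.filter (fun h => IsConj g h), χ h = χ g := by
        intro h hh
        exact (irr_isConj hχ (Finset.mem_filter.1 hh).2).symm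
      rw [Finset.sum_congr rfl this, Finset.sum_const, nsmul_eq_mul]
    have h2 := card_class g
    rw [h1, ← h2]
    push_cast
    ring
  have hq : ((Fintype.card G : ℂ) / χ 1) ^ 2 = ∑ K : ConjClasses G,
      omega (MonoidHom.id G) χ (Quotient.out K) *
        ((Nat.card (Subgroup.centralizer {(Quotient.out K)⁻¹} : Subgroup G) : ℂ) *
          omega (MonoidHom.id G) χ (Quotient.out K)⁻¹) := by
    have h1 : ∀ K : ConjClasses G, omega (MonoidHom.id G) χ (Quotient.out K) *
        ((Nat.card (Subgroup.centralizer {(Quotient.out K)⁻¹} : Subgroup G) : ℂ) *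
          omega (MonoidHom.id G) χ (Quotient.out K)⁻¹) =
        (Fintype.card G : ℂ) / χ 1 * (omega (MonoidHom.id G) χ (Quotient.out K) *
          χ (Quotient.out K)⁻¹) := by
      intro K
      rw [← hcent]
      ring
    simp_rw [h1]
    rw [← Finset.mul_sum, ← codeg_eq hχ, sq]
  have hai : AI ((Fintype.card G : ℂ) / χ 1) := by
    rw [codeg_eq hχ]
    apply IsIntegral.sum
    intro K _
    exact (omega_integral _ hχ _).mul (irr_integral hχ _)
  apply cong_sq_zero hai
  rw [hq]
  have h0' : (0 : ℂ) = ∑ _K : ConjClasses G, (0 : ℂ) := by simp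
  rw [h0']
  apply Cong.sum
  intro K _
  apply Cong.mul_zero_left _ (omega_integral _ hχ _)
  by_cases hd : ℓ ∣ Nat.card (Subgroup.centralizer {(Quotient.out K)⁻¹} : Subgroup G)
  · exact (cong_nat_of_dvd hℓ hd).mul_zero_right (omega_integral _ hχ _)
  · exact (key _ hd).mul_zero_left (AI.natCast _)

end Pool.Agent.Helper51_AWC
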