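import Mathlib

/-!
Complex irreducible characters of finite groups: orthogonality, completeness,
norm criterion, scalars by which central elements act.
-/

open scoped BigOperators MonoidAlgebra
open Module

noncomputable section

namespace Pool.Agent.Helper51_AWC

/-- The set of complex irreducible characters of a group (as functions): the characters of the
irreducible representations of `G` on the spaces `ℂ^n`. -/
def Irr (G : Type) [Group G] : Set (G → ℂ) :=
  {χ | ∃ (n : ℕ) (ρ : Representation ℂ G (Fin n → ℂ)), ρ.IsIrreducible ∧ ρ.character = χ}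

variable {G : Type} [Group G]

section transport

variable {V W : Type*} [AddCommGroup V] [Module ℂ V] [AddCommGroup W] [Module ℂ W]

/-- transport of a representation along a linear equivalence -/
def conjRep (e : V ≃ₗ[ℂ] W) (ρ : Representation ℂ G V) : Representation ℂ G W where
  toFun g := e.toLinearMap ∘ₗ ρ g ∘ₗ e.symm.toLinearMap
  map_one' := by ext; simp
  map_mul' g h := by ext; simp

theorem conjRep_apply (e : V ≃ₗ[ℂ] W) (ρ : Representation ℂ G V) (g : G) (w : W) :
    conjRep e ρ g w = e (ρ g (e.symm w)) := rfl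

def conjRepEquiv (e : V ≃ₗ[ℂ] W) (ρ : Representation ℂ G V) :
    Subrepresentation ρ ≃o Subrepresentation (conjRep e ρ) where
  toFun S := ⟨S.toSubmodule.map e.toLinearMap, by
    rintro g w ⟨v, hv, rfl⟩
    exact ⟨ρ g v, S.apply_mem_toSubmodule g hv, by simp [conjRep_apply]⟩⟩
  invFun S := ⟨S.toSubmodule.comap e.toLinearMap, by
    intro g v hv
    have := S.apply_mem_toSubmodule g hv
    simpa [conjRep_apply] using this⟩
  left_inv S := by
    apply Subrepresentation.toSubmodule_injective
    ext v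
    simp
  right_inv S := by
    apply Subrepresentation.toSubmodule_injective
    ext v
    simp
  map_rel_iff' := by
    intro S T
    constructor
    · intro h v hv
      have := h (show e v ∈ _ from ⟨v, hv, rfl⟩)
      obtain ⟨v', hv', h'⟩ := this
      rw [← e.injective h']
      exact hv'
    · rintro h _ ⟨v, hv, rfl⟩
      exact ⟨v, h hv, rfl⟩

theorem conjRep_irreducible (e : V ≃ₗ[ℂ] W) (ρ : Representation ℂ G V) [h : ρ.IsIrreducible] :
    (conjRep e ρ).IsIrreducible :=
  (OrderIso.isSimpleOrder_iff (conjRepEquiv e ρ)).1 h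

theorem conjRep_character (e : V ≃ₗ[ℂ] W) (ρ : Representation ℂ G V) :
    (conjRep e ρ).character = ρ.character := by
  ext g
  exact LinearMap.trace_conj' (ρ g) e

end transport

/-- a finite-dimensional irreducible representation has its character in `Irr G` -/
theorem mem_Irr_of_irreducible {V : Type*} [AddCommGroup V] [Module ℂ V] [FiniteDimensional ℂ V]
    (ρ : Representation ℂ G V) [ρ.IsIrreducible] : ρ.character ∈ Irr G :=
  ⟨finrank ℂ V, conjRep (finBasis ℂ V).equivFun ρ, conjRep_irreducible _ _,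
    conjRep_character _ _⟩

theorem irr_conj {χ : G → ℂ} (hχ : χ ∈ Irr G) (g h : G) : χ (h * g * h⁻¹) = χ g := by
  obtain ⟨n, ρ, _, rfl⟩ := hχ
  simp

theorem irr_mul_comm {χ : G → ℂ} (hχ : χ ∈ Irr G) (g h : G) : χ (h * g) = χ (g * h) := by
  obtain ⟨n, ρ, _, rfl⟩ := hχ
  exact ρ.char_mul_comm g h

theorem irr_isConj {χ : G → ℂ} (hχ : χ ∈ Irr G) {g h : G} (hgh : IsConj g h) : χ g = χ h := by
  obtain ⟨c, rfl⟩ := isConj_iff.1 hgh
  exact (irr_conj hχ g c).symm

/-- the degree -/
theorem irr_one {χ : G → ℂ} (hχ : χ ∈ Irr G) : ∃ d : ℕ, 0 < d ∧ χ 1 = d := by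
  obtain ⟨n, ρ, h, rfl⟩ := hχ
  refine ⟨n, ?_, by simp⟩
  rcases Nat.eq_zero_or_pos n with rfl | h0
  · exfalso
    have h1 := h.toNontrivial
    obtain ⟨S, T, hST⟩ := h1
    apply hST
    apply Subrepresentation.toSubmodule_injective
    exact Subsingleton.elim _ _
  · exact h0

theorem irr_one_ne {χ : G → ℂ} (hχ : χ ∈ Irr G) : χ 1 ≠ 0 := by
  obtain ⟨d, hd, h⟩ := irr_one hχ
  rw [h]; exact_mod_cast hd.ne'

section finite

variable [Fintype G]

theorem irr_orth {χ ψ : G → ℂ} (hχ : χ ∈ Irr G) (hψ : ψ ∈ Irr G) :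
    (∑ g : G, χ g * ψ g⁻¹) = 0 ∨ (χ = ψ ∧ (∑ g : G, χ g * ψ g⁻¹) = Fintype.card G) := by
  classical
  obtain ⟨n, ρ, hρ, rfl⟩ := hχ
  obtain ⟨m, σ, hσ, rfl⟩ := hψ
  have hc : (Nat.card G : ℂ) ≠ 0 := by
    exact_mod_cast Nat.card_pos.ne'
  have := invertibleOfNonzero hc
  have h := Representation.char_orthonormal ρ σ
  by_cases hn : Nonempty (Representation.Equiv σ ρ)
  · right
    rw [if_pos hn] at h
    obtain ⟨φ⟩ := hn
    refine ⟨(Representation.char_iso φ).symm, ?_⟩
    rw [inv_mul_eq_one₀ hc] at h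
    rw [← h]; simp
  · left
    rw [if_neg hn] at h
    rcases mul_eq_zero.1 h with h | h
    · exact absurd (inv_eq_zero.1 h) hc
    · exact h

theorem irr_orth_self {χ : G → ℂ} (hχ : χ ∈ Irr G) :
    (∑ g : G, χ g * χ g⁻¹) = Fintype.card G := by
  classical
  obtain ⟨n, ρ, hρ, rfl⟩ := hχ
  have hc : (Nat.card G : ℂ) ≠ 0 := by
    exact_mod_cast Nat.card_pos.ne'
  have := invertibleOfNonzero hc
  have h := Representation.char_orthonormal ρ ρ
  rw [if_pos ⟨Representation.Equiv.refl ρ⟩] at h
  rw [inv_mul_eq_one₀ hc] at h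
  rw [← h]; simp

theorem irr_orth_ne {χ ψ : G → ℂ} (hχ : χ ∈ Irr G) (hψ : ψ ∈ Irr G) (hne : χ ≠ ψ) :
    (∑ g : G, χ g * ψ g⁻¹) = 0 := by
  rcases irr_orth hχ hψ with h | h
  · exact h
  · exact absurd h.1 hne

omit [Fintype G] in
/-- Schur: an endomorphism commuting with an irreducible representation is a scalar -/
theorem schur_scalar {V : Type*} [AddCommGroup V] [Module ℂ V] [FiniteDimensional ℂ V]
    (ρ : Representation ℂ G V) [ρ.IsIrreducible] (T : V →ₗ[ℂ] V)
    (hT : ∀ g, T ∘ₗ ρ g = ρ g ∘ₗ T) : ∃ c : ℂ, T = c • LinearMap.id := by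
  have hb := Representation.IsIrreducible.algebraMap_intertwiningMap_bijective_of_isAlgClosed
    (ρ := ρ)
  obtain ⟨c, hc⟩ := hb.2 ⟨T, hT⟩
  refine ⟨c, ?_⟩
  have := congrArg Representation.IntertwiningMap.toLinearMap hc
  simp only at this
  rw [← this]
  ext v
  simp [Algebra.algebraMap_eq_smul_one]

/-- the operator by which a coefficient function acts -/
def act {V : Type*} [AddCommGroup V] [Module ℂ V] (ρ : Representation ℂ G V) (z : G → ℂ) :
    V →ₗ[ℂ] V := ∑ g : G, z g • ρ g

theorem act_scalar {V : Type*} [AddCommGroup V] [Module ℂ V] [FiniteDimensional ℂ V]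
    (ρ : Representation ℂ G V) [ρ.IsIrreducible] (z : G → ℂ)
    (hz : ∀ g h, z (h * g * h⁻¹) = z g) : ∃ c : ℂ, act ρ z = c • LinearMap.id := by
  apply schur_scalar ρ
  intro h
  have h1 : ρ h⁻¹ * ρ h = 1 := by rw [← map_mul]; simp
  have h2 : ρ h * ρ h⁻¹ = 1 := by rw [← map_mul]; simp
  have key : ρ h * act ρ z * ρ h⁻¹ = act ρ z := by
    unfold act
    rw [Finset.mul_sum, Finset.sum_mul]
    rw [← Equiv.sum_comp (MulAut.conj h).toEquiv (fun g => z g • ρ g)]
    apply Finset.sum_congr rfl
    intro g _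
    simp [hz]
  have : act ρ z * ρ h = ρ h * act ρ z := by
    calc act ρ z * ρ h = (ρ h * act ρ z * ρ h⁻¹) * ρ h := by rw [key]
      _ = ρ h * act ρ z * (ρ h⁻¹ * ρ h) := by simp [mul_assoc]
      _ = ρ h * act ρ z := by rw [h1, mul_one]
  exact this

theorem act_trace {V : Type*} [AddCommGroup V] [Module ℂ V] [FiniteDimensional ℂ V]
    (ρ : Representation ℂ G V) (z : G → ℂ) :
    LinearMap.trace ℂ V (act ρ z) = ∑ g, z g * ρ.character g := by
  simp [act, map_sum, Representation.character]

/-- if a class function is orthogonal to all irreducible characters then it acts as zero -/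
theorem act_zero {V : Type*} [AddCommGroup V] [Module ℂ V] [FiniteDimensional ℂ V]
    (ρ : Representation ℂ G V) [ρ.IsIrreducible] (z : G → ℂ)
    (hz : ∀ g h, z (h * g * h⁻¹) = z g) (h0 : ∀ χ ∈ Irr G, ∑ g, z g * χ g = 0) :
    act ρ z = 0 := by
  obtain ⟨c, hc⟩ := act_scalar ρ z hz
  have h1 := act_trace ρ z
  rw [hc, h0 _ (mem_Irr_of_irreducible ρ)] at h1
  simp only [map_smul, smul_eq_mul, mul_eq_zero] at h1
  rcases h1 with h1 | h1
  · rw [hc, h1, zero_smul]
  · rw [hc]
    have : finrank ℂ V = 0 := by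
      have : LinearMap.trace ℂ V LinearMap.id = (finrank ℂ V : ℂ) := LinearMap.trace_id ℂ V
      rw [this] at h1; exact_mod_cast h1
    have := Module.finrank_zero_iff.1 this
    exact Subsingleton.elim _ _

/-- the representation on a left ideal of the group algebra -/
def idealEquiv (S : Submodule ℂ[G] ℂ[G]) :
    (Representation.ofModule' (k := ℂ) (G := G) S).asModule ≃ₗ[ℂ[G]] S where
  toFun x := (Representation.asModuleEquiv _ x)
  invFun x := (Representation.asModuleEquiv _).symm x
  left_inv x := by simp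
  right_inv x := by simp
  map_add' x y := by simp
  map_smul' r x := by
    simp only [RingHom.id_apply]
    rw [Representation.asModuleEquiv_map_smul]
    have : (Representation.ofModule' (k := ℂ) (G := G) S).asAlgebraHom = Algebra.lsmul ℂ ℂ S := by
      rw [Representation.asAlgebraHom]
      simp [Representation.ofModule']
    rw [this]
    rfl

/-- a class function orthogonal to all irreducible characters vanishes -/
theorem irr_complete (f : G → ℂ) (hf : ∀ g h, f (h * g * h⁻¹) = f g)
    (h0 : ∀ χ ∈ Irr G, ∑ g, f g * χ g = 0) : f = 0 := by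
  classical
  set z : ℂ[G] := ∑ g, MonoidAlgebra.single g (f g) with hz
  have hfin : FiniteDimensional ℂ ℂ[G] := inferInstance
  have key : ∀ S : Submodule ℂ[G] ℂ[G], IsSimpleModule ℂ[G] S → ∀ s ∈ S, z * s = 0 := by
    intro S hS s hs
    have h1 : (Representation.ofModule' (k := ℂ) (G := G) S).IsIrreducible := by
      rw [Representation.irreducible_iff_isSimpleModule_asModule]
      exact IsSimpleModule.congr (idealEquiv S)
    have : FiniteDimensional ℂ S :=
      FiniteDimensional.finiteDimensional_submodule (S.restrictScalars ℂ)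
    have h2 := act_zero (Representation.ofModule' (k := ℂ) (G := G) S) f hf h0
    have h3 := congrArg (fun T : S →ₗ[ℂ] S => ((T ⟨s, hs⟩ : S) : ℂ[G])) h2
    simp only [act, LinearMap.zero_apply, ZeroMemClass.coe_zero] at h3
    rw [← h3, hz, Finset.sum_mul, LinearMap.sum_apply]
    rw [AddSubmonoidClass.coe_finsetSum]
    apply Finset.sum_congr rfl
    intro g _
    have : MonoidAlgebra.single g (f g) = f g • MonoidAlgebra.single g (1 : ℂ) := by simp
    rw [this, smul_mul_assoc]
    simp [Representation.ofModule', Algebra.lsmul]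
  have hne : NeZero (Nat.card G : ℂ) := ⟨by exact_mod_cast Nat.card_pos.ne'⟩
  have hss : IsSemisimpleRing ℂ[G] := inferInstance
  have htop := IsSemisimpleModule.sSup_simples_eq_top ℂ[G] ℂ[G]
  have hz1 : ∀ s : ℂ[G], z * s = 0 := by
    intro s
    let K : Submodule ℂ[G] ℂ[G] :=
      { carrier := {s | ∀ a : ℂ[G], z * (a * s) = 0}
        add_mem' := by
          intro x y hx hy a
          rw [mul_add, mul_add, hx a, hy a, add_zero]
        zero_mem' := by intro a; simp
        smul_mem' := by
          intro c x hx a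
          have := hx (a * c)
          rw [mul_assoc] at this
          exact this }
    have hK : K = ⊤ := by
      rw [eq_top_iff, ← htop]
      apply sSup_le
      intro S hS s hs a
      exact key S hS _ (S.smul_mem a hs)
    have : s ∈ K := by rw [hK]; trivial
    simpa using this 1
  have hz0 : z = 0 := by simpa using hz1 1
  ext g
  have h4 : z.coeff g = f g := by
    rw [hz, MonoidAlgebra.coeff_sum, Finsupp.finsetSum_apply]
    simp [Finsupp.single_apply]
  rw [← h4, hz0]; rfl

/-- irreducible characters are linearly independent -/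
theorem irr_linearIndependent :
    LinearIndependent ℂ (fun χ : Irr G => (χ : G → ℂ)) := by
  classical
  rw [linearIndependent_iff']
  intro s a ha χ hχ
  have h1 := congrArg (fun f : G → ℂ => ∑ g, f g * (χ : G → ℂ) g⁻¹) ha
  simp only [Finset.sum_apply, Pi.smul_apply, smul_eq_mul, Pi.zero_apply, zero_mul,
    Finset.sum_const_zero, Finset.sum_mul] at h1
  rw [Finset.sum_comm] at h1
  rw [Finset.sum_eq_single_of_mem χ hχ] at h1
  · simp_rw [mul_assoc] at h1
    rw [← Finset.mul_sum, irr_orth_self χ.2] at h1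
    have : (Fintype.card G : ℂ) ≠ 0 := by exact_mod_cast Fintype.card_ne_zero
    exact (mul_eq_zero.1 h1).resolve_right this
  · intro ψ _ hne
    simp_rw [mul_assoc]
    rw [← Finset.mul_sum, irr_orth_ne ψ.2 χ.2 (fun h => hne (Subtype.ext h)), mul_zero]

instance irr_finite : Finite (Irr G) := by
  have h := irr_linearIndependent (G := G)
  exact h.finite

theorem irr_finite' : (Irr G).Finite := Set.toFinite _

/-- the inverse-twisted form of completeness -/
theorem irr_complete' (f : G → ℂ) (hf : ∀ g h, f (h * g * h⁻¹) = f g)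
    (h0 : ∀ χ ∈ Irr G, ∑ g, f g * χ g⁻¹ = 0) : f = 0 := by
  have h1 : (fun g => f g⁻¹) = 0 := by
    apply irr_complete
    · intro g h
      have := hf g⁻¹ h
      simp only [mul_inv_rev, inv_inv]
      rw [← mul_assoc, this]
    · intro χ hχ
      rw [← h0 χ hχ, ← Equiv.sum_comp (Equiv.inv G)]
      simp
  ext g
  have := congrFun h1 g⁻¹
  simpa using this

/-- norm criterion -/
theorem mem_Irr_of_norm {V : Type*} [AddCommGroup V] [Module ℂ V] [FiniteDimensional ℂ V]
    (ρ : Representation ℂ G V)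
    (h : ∑ g, ρ.character g * ρ.character g⁻¹ = Fintype.card G) : ρ.character ∈ Irr G := by
  classical
  have hc : (Nat.card G : ℂ) ≠ 0 := by
    exact_mod_cast Nat.card_pos.ne'
  have hc' : (Fintype.card G : ℂ) ≠ 0 := by exact_mod_cast Fintype.card_ne_zero
  have hinv := invertibleOfNonzero hc
  have := Fintype.ofFinite (Irr G)
  -- multiplicities
  have hm : ∀ χ : Irr G, ∃ m : ℕ, ∑ g, ρ.character g * (χ : G → ℂ) g⁻¹ = m * Fintype.card G := by
    rintro ⟨χ, n, σ, hσ, rfl⟩
    refine ⟨finrank ℂ (Representation.IntertwiningMap σ ρ), ?_⟩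
    have := Representation.card_inv_mul_sum_char_mul_char_eq_finrank σ ρ
    rw [← this, mul_comm, ← mul_assoc, ← Nat.card_eq_fintype_card, mul_inv_cancel₀ hc, one_mul]
  choose m hm using hm
  have hdec : ρ.character = ∑ χ : Irr G, (m χ : ℂ) • (χ : G → ℂ) := by
    have : ρ.character - ∑ χ : Irr G, (m χ : ℂ) • (χ : G → ℂ) = 0 := by
      apply irr_complete'
      · intro g h
        simp only [Pi.sub_apply, Finset.sum_apply, Pi.smul_apply, Representation.char_conj]
        congr 1
        apply Finset.sum_congr rfl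
        intro χ _
        rw [irr_conj χ.2]
      · intro ψ hψ
        simp only [Pi.sub_apply, Finset.sum_apply, Pi.smul_apply, smul_eq_mul, sub_mul,
          Finset.sum_sub_distrib, Finset.sum_mul]
        rw [hm ⟨ψ, hψ⟩, Finset.sum_comm, Finset.sum_eq_single_of_mem ⟨ψ, hψ⟩ (Finset.mem_univ _)]
        · simp_rw [mul_assoc]
          rw [← Finset.mul_sum, irr_orth_self hψ, sub_self]
        · intro χ _ hne
          simp_rw [mul_assoc]
          rw [← Finset.mul_sum, irr_orth_ne χ.2 hψ (fun h => hne (Subtype.ext h)), mul_zero]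
    exact sub_eq_zero.1 this
  have hnorm : (∑ χ : Irr G, (m χ) ^ 2) = 1 := by
    have h2 : ∑ g, ρ.character g * ρ.character g⁻¹ =
        ((∑ χ : Irr G, (m χ) ^ 2 : ℕ) : ℂ) * Fintype.card G := by
      have : ∀ g, ρ.character g * ρ.character g⁻¹ =
          ∑ χ : Irr G, (m χ : ℂ) * (ρ.character g * (χ : G → ℂ) g⁻¹) := by
        intro g
        conv_lhs => rw [show ρ.character g⁻¹ = ∑ χ : Irr G, (m χ : ℂ) * (χ : G → ℂ) g⁻¹ by
          conv_lhs => rw [hdec]
          simp]
        rw [Finset.mul_sum]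
        apply Finset.sum_congr rfl
        intro χ _; ring
      simp_rw [this]
      rw [Finset.sum_comm]
      simp_rw [← Finset.mul_sum, hm]
      push_cast
      rw [Finset.sum_mul]
      apply Finset.sum_congr rfl
      intro χ _; ring
    rw [h2] at h
    have h3 : ((∑ χ : Irr G, (m χ) ^ 2 : ℕ) : ℂ) = 1 :=
      mul_right_cancel₀ hc' (by rw [h, one_mul])
    exact_mod_cast h3
  obtain ⟨χ, hχ⟩ : ∃ χ : Irr G, m χ ≠ 0 := by
    by_contra hcon
    push Not at hcon
    simp [hcon] at hnorm
  have h1 : m χ ^ 2 ≤ 1 := by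
    rw [← hnorm]
    exact Finset.single_le_sum (f := fun χ => m χ ^ 2) (fun _ _ => Nat.zero_le _)
      (Finset.mem_univ χ)
  have h1' : m χ = 1 := by
    have : m χ ≤ 1 := by nlinarith
    omega
  have h2 : ∀ ψ : Irr G, ψ ≠ χ → m ψ = 0 := by
    intro ψ hne
    by_contra hψ
    have h3 : m χ ^ 2 + m ψ ^ 2 ≤ 1 := by
      rw [← hnorm]
      calc m χ ^ 2 + m ψ ^ 2 = ∑ x ∈ {χ, ψ}, m x ^ 2 := by
            rw [Finset.sum_pair (Ne.symm hne)]
        _ ≤ _ := Finset.sum_le_sum_of_subset (Finset.subset_univ _)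
    have : 0 < m ψ := Nat.pos_of_ne_zero hψ
    nlinarith
  have h3 : ρ.character = χ := by
    rw [hdec, Finset.sum_eq_single_of_mem χ (Finset.mem_univ _)]
    · rw [h1']; simp
    · intro ψ _ hne
      rw [h2 ψ hne]; simp
  rw [h3]; exact χ.2

end finite

end Pool.Agent.Helper51_AWC
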