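import Mathlib

/-!
Alternating sums over chains in finite posets: cancellation by a closure operator, and
chains in a product of two posets.
-/

open scoped BigOperators

noncomputable section

namespace Pool.Agent.Helper51_AWC

open Classical in
/-- chains (as finite sets) inside `s` containing the base element `b` -/
def chainsOn {α : Type*} [PartialOrder α] (s : Finset α) (b : α) : Finset (Finset α) :=
  s.powerset.filter (fun d => b ∈ d ∧ IsChain (· ≤ ·) (d : Set α))

section

variable {α : Type*} [PartialOrder α]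

theorem mem_chainsOn {s : Finset α} {b : α} {d : Finset α} :
    d ∈ chainsOn s b ↔ d ⊆ s ∧ b ∈ d ∧ IsChain (· ≤ ·) (d : Set α) := by
  classical
  simp [chainsOn]

theorem chain_total {d : Finset α} (hd : IsChain (· ≤ ·) (d : Set α)) {x y : α} (hx : x ∈ d)
    (hy : y ∈ d) : x ≤ y ∨ y ≤ x := by
  rcases eq_or_ne x y with h | h
  · left; exact h.le
  · exact hd hx hy h

theorem exists_greatest {d : Finset α} (hd : IsChain (· ≤ ·) (d : Set α)) (hne : d.Nonempty) :
    ∃ x ∈ d, ∀ y ∈ d, y ≤ x := by
  obtain ⟨x, hx⟩ := d.exists_maximal hne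
  refine ⟨x, hx.1, fun y hy => ?_⟩
  rcases chain_total hd hx.1 hy with h | h
  · exact hx.2 hy h
  · exact h

theorem exists_least {d : Finset α} (hd : IsChain (· ≤ ·) (d : Set α)) (hne : d.Nonempty) :
    ∃ x ∈ d, ∀ y ∈ d, x ≤ y := by
  obtain ⟨x, hx⟩ := d.exists_minimal hne
  refine ⟨x, hx.1, fun y hy => ?_⟩
  rcases chain_total hd hx.1 hy with h | h
  · exact h
  · exact hx.2 hy h

/-- the toggle of an element -/
def toggle [DecidableEq α] (d : Finset α) (e : α) : Finset α :=
  if e ∈ d then d.erase e else insert e d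

omit [PartialOrder α] in
theorem toggle_toggle [DecidableEq α] (d : Finset α) (e : α) : toggle (toggle d e) e = d := by
  unfold toggle
  split_ifs with h1 h2 h2
  · simp at h2
  · exact Finset.insert_erase h1
  · exact Finset.erase_insert h1
  · simp at h2

omit [PartialOrder α] in
theorem toggle_ne [DecidableEq α] (d : Finset α) (e : α) : toggle d e ≠ d := by
  unfold toggle
  split_ifs with h1
  · intro h; rw [← h] at h1; simp at h1
  · intro h; rw [← h] at h1; simp at h1

omit [PartialOrder α] in
/-- cancellation by toggling -/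
theorem sum_toggle [DecidableEq α] (S : Finset (Finset α)) (e : Finset α → α)
    (f : Finset α → ℤ) (h1 : ∀ d ∈ S, toggle d (e d) ∈ S)
    (h2 : ∀ d ∈ S, e (toggle d (e d)) = e d)
    (h3 : ∀ d ∈ S, f (toggle d (e d)) = - f d) : ∑ d ∈ S, f d = 0 := by
  apply Finset.sum_involution (fun d _ => toggle d (e d))
  · intro d hd; rw [h3 d hd]; ring
  · intro d _ _; exact toggle_ne _ _
  · intro d hd; exact h1 d hd
  · intro d hd
    rw [h2 d hd, toggle_toggle]

end

/-- cancellation by a closure operator `c` : only the chains of closed elements remain -/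
theorem sum_closure {α : Type*} [PartialOrder α] [DecidableEq α] (s : Finset α) (b : α)
    (c : α → α)
    (hs : ∀ x ∈ s, c x ∈ s) (hle : ∀ x ∈ s, x ≤ c x)
    (hmono : ∀ x ∈ s, ∀ y ∈ s, x ≤ y → c x ≤ c y) (hidem : ∀ x ∈ s, c (c x) = c x)
    (hb : c b = b) (hbl : ∀ x ∈ s, b ≤ x) (f : Finset α → ℤ)
    (hf : ∀ d ∈ chainsOn s b, ∀ x ∈ d, c x ∉ d → f (insert (c x) d) = - f d) :
    ∑ d ∈ chainsOn s b, f d = ∑ d ∈ (chainsOn s b).filter (fun d => ∀ x ∈ d, c x = x), f d := by
  classical
  rw [← Finset.sum_filter_add_sum_filter_not (chainsOn s b) (fun d => ∀ x ∈ d, c x = x)]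
  rw [add_eq_left]
  -- the greatest non-closed element
  have hex : ∀ d : Finset α, ∃ m : α, d ∈ (chainsOn s b).filter (fun d => ¬ ∀ x ∈ d, c x = x) →
      m ∈ d ∧ c m ≠ m ∧ ∀ y ∈ d, c y ≠ y → y ≤ m := by
    intro d
    by_cases hd : d ∈ (chainsOn s b).filter (fun d => ¬ ∀ x ∈ d, c x = x)
    · have hd' := hd
      rw [Finset.mem_filter, mem_chainsOn] at hd'
      obtain ⟨⟨_, _, hch⟩, hne⟩ := hd'
      push Not at hne
      obtain ⟨x, hx, hxc⟩ := hne
      obtain ⟨m, hm, hmax⟩ := exists_greatest (d := d.filter (fun x => c x ≠ x))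
        (hch.mono (by intro y hy; exact Finset.mem_of_mem_filter y hy))
        ⟨x, Finset.mem_filter.2 ⟨hx, hxc⟩⟩
      rw [Finset.mem_filter] at hm
      exact ⟨m, fun _ => ⟨hm.1, hm.2, fun y hy hyc => hmax y (Finset.mem_filter.2 ⟨hy, hyc⟩)⟩⟩
    · exact ⟨b, fun h => absurd h hd⟩
  choose m hm using hex
  have hkey : ∀ d ∈ (chainsOn s b).filter (fun d => ¬ ∀ x ∈ d, c x = x),
      toggle d (c (m d)) ∈ (chainsOn s b).filter (fun d => ¬ ∀ x ∈ d, c x = x) ∧
      m (toggle d (c (m d))) = m d := by
    intro d hd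
    obtain ⟨hmd, hmc, hmax⟩ := hm d hd
    have hd' := hd
    rw [Finset.mem_filter, mem_chainsOn] at hd'
    obtain ⟨⟨hsub, hbd, hch⟩, -⟩ := hd'
    have hms := hsub hmd
    have hmem : toggle d (c (m d)) ∈ (chainsOn s b).filter (fun d => ¬ ∀ x ∈ d, c x = x) := by
      rw [Finset.mem_filter, mem_chainsOn]
      unfold toggle
      split_ifs with h
      · refine ⟨⟨(Finset.erase_subset _ _).trans hsub, ?_, ?_⟩, ?_⟩
        · rw [Finset.mem_erase]
          refine ⟨?_, hbd⟩
          intro hbe
          -- `b = c (m d)`, then `m d ≤ b`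
          apply hmc
          have h1 : m d ≤ b := hbe ▸ hle _ hms
          have : m d = b := le_antisymm h1 (hbl _ hms)
          rw [this, hb]
        · exact hch.mono (by intro y hy; exact Finset.mem_of_mem_erase hy)
        · push Not
          exact ⟨m d, Finset.mem_erase.2 ⟨fun h' => hmc h'.symm, hmd⟩, hmc⟩
      · refine ⟨⟨?_, Finset.mem_insert_of_mem hbd, ?_⟩, ?_⟩
        · intro y hy
          rcases Finset.mem_insert.1 hy with rfl | hy
          · exact hs _ hms
          · exact hsub hy
        · rw [Finset.coe_insert]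
          apply hch.insert
          intro y hy hne
          rcases chain_total hch hy hmd with h1 | h1
          · right; exact h1.trans (hle _ hms)
          · by_cases hyc : c y = y
            · left
              rw [← hyc]; exact hmono _ hms _ (hsub hy) h1
            · have := hmax y hy hyc
              have : y = m d := le_antisymm this h1
              right; rw [this]; exact hle _ hms
        · push Not
          exact ⟨m d, Finset.mem_insert_of_mem hmd, hmc⟩
    refine ⟨hmem, ?_⟩
    obtain ⟨h1, h2, h3⟩ := hm _ hmem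
    have hmt : m d ∈ toggle d (c (m d)) := by
      unfold toggle
      split_ifs with h
      · exact Finset.mem_erase.2 ⟨fun h' => hmc h'.symm, hmd⟩
      · exact Finset.mem_insert_of_mem hmd
    apply le_antisymm
    · have h4 : m (toggle d (c (m d))) ∈ d := by
        generalize m (toggle d (c (m d))) = t at h1 h2
        unfold toggle at h1
        split_ifs at h1 with h
        · exact Finset.mem_of_mem_erase h1
        · rcases Finset.mem_insert.1 h1 with h' | h'
          · exfalso; apply h2; rw [h', hidem _ hms]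
          · exact h'
      exact hmax _ h4 h2
    · exact h3 _ hmt hmc
  apply sum_toggle _ (fun d => c (m d))
  · intro d hd; exact (hkey d hd).1
  · intro d hd; rw [(hkey d hd).2]
  · intro d hd
    obtain ⟨hmd, hmc, hmax⟩ := hm d hd
    have hd' := Finset.mem_filter.1 hd
    simp only [toggle]
    split_ifs with h
    · have h1 : d.erase (c (m d)) ∈ chainsOn s b := by
        have := (hkey d hd).1
        unfold toggle at this
        rw [if_pos h] at this
        exact (Finset.mem_filter.1 this).1
      have h2 := hf _ h1 (m d) (Finset.mem_erase.2 ⟨fun h' => hmc h'.symm, hmd⟩)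
        (Finset.notMem_erase _ _)
      rw [Finset.insert_erase h] at h2
      rw [h2]; ring
    · exact hf d hd'.1 (m d) hmd h

section product

variable {A B : Type*} [PartialOrder A] [PartialOrder B]

open Classical in
/-- the greatest element of a nonempty chain -/
def greatest (c : Finset A) (dflt : A) : A :=
  if h : ∃ x ∈ c, ∀ y ∈ c, y ≤ x then h.choose else dflt

theorem greatest_eq {c : Finset A} {dflt x : A} (hx : x ∈ c) (h : ∀ y ∈ c, y ≤ x) :
    greatest c dflt = x := by
  have hex : ∃ x ∈ c, ∀ y ∈ c, y ≤ x := ⟨x, hx, h⟩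
  unfold greatest
  rw [dif_pos hex]
  exact le_antisymm (h _ hex.choose_spec.1) (hex.choose_spec.2 x hx)

theorem greatest_spec {c : Finset A} {dflt : A} (hc : IsChain (· ≤ ·) (c : Set A))
    (hne : c.Nonempty) : greatest c dflt ∈ c ∧ ∀ y ∈ c, y ≤ greatest c dflt := by
  have hex := exists_greatest hc hne
  unfold greatest
  rw [dif_pos hex]
  exact hex.choose_spec

open Classical in
/-- the greatest element of a nonempty chain -/
def least (c : Finset A) (dflt : A) : A :=
  if h : ∃ x ∈ c, ∀ y ∈ c, x ≤ y then h.choose else dflt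

theorem least_eq {c : Finset A} {dflt x : A} (hx : x ∈ c) (h : ∀ y ∈ c, x ≤ y) :
    least c dflt = x := by
  have hex : ∃ x ∈ c, ∀ y ∈ c, x ≤ y := ⟨x, hx, h⟩
  unfold least
  rw [dif_pos hex]
  exact le_antisymm (hex.choose_spec.2 x hx) (h _ hex.choose_spec.1)

theorem least_spec {c : Finset A} {dflt : A} (hc : IsChain (· ≤ ·) (c : Set A))
    (hne : c.Nonempty) : least c dflt ∈ c ∧ ∀ y ∈ c, least c dflt ≤ y := by
  have hex := exists_least hc hne
  unfold least
  rw [dif_pos hex]
  exact hex.choose_spec

open Classical in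
/-- the row `y = b` of a set of pairs -/
def row (b : B) (d : Finset (A × B)) : Finset A :=
  (d.filter (fun p => p.2 = b)).image Prod.fst

omit [PartialOrder A] [PartialOrder B] in
theorem mem_row {b : B} {d : Finset (A × B)} {x : A} : x ∈ row b d ↔ (x, b) ∈ d := by
  classical
  simp [row]

open Classical in
/-- alternating sums over the chains of a product of two posets with least elements -/
theorem sum_prod_chains (s : Finset A) (a : A) (t : Finset B) (b : B)
    (has : ∀ x ∈ s, a ≤ x) (hbt : ∀ y ∈ t, b ≤ y) (F : Finset A → Finset B → ℤ) :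
    ∑ d ∈ chainsOn (s ×ˢ t) (a, b), (-1) ^ (d.card + 1) *
        F (d.image Prod.fst) (d.image Prod.snd) =
      ∑ c ∈ chainsOn s a, ∑ c' ∈ chainsOn t b, (-1) ^ (c.card + 1) * (-1) ^ (c'.card + 1) *
        F c c' := by
  -- `X d` is the greatest element of the row `y = b`
  let X : Finset (A × B) → A := fun d => greatest (row b d) a
  have hX : ∀ d ∈ chainsOn (s ×ˢ t) (a, b), (X d, b) ∈ d ∧ ∀ x, (x, b) ∈ d → x ≤ X d := by
    intro d hd
    obtain ⟨_, hb, hch⟩ := mem_chainsOn.1 hd
    have hrow : IsChain (· ≤ ·) (row b d : Set A) := by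
      intro x hx y hy hne
      have hx' := mem_row.1 hx
      have hy' := mem_row.1 hy
      rcases chain_total hch hx' hy' with h | h
      · left; exact h.1
      · right; exact h.1
    have := greatest_spec (dflt := a) hrow ⟨a, mem_row.2 hb⟩
    exact ⟨mem_row.1 this.1, fun x hx => this.2 x (mem_row.2 hx)⟩
  let bad : Finset (A × B) → Finset (A × B) := fun d => d.filter (fun p => ¬ p.1 ≤ X d)
  let m : Finset (A × B) → A × B := fun d => least (bad d) (a, b)
  let e : Finset (A × B) → A × B := fun d => (X d, (m d).2)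
  have hm : ∀ d ∈ (chainsOn (s ×ˢ t) (a, b)).filter (fun d => ¬ ∀ p ∈ d, p.1 ≤ X d),
      m d ∈ d ∧ ¬ (m d).1 ≤ X d ∧ ∀ p ∈ d, ¬ p.1 ≤ X d → m d ≤ p := by
    intro d hd
    rw [Finset.mem_filter] at hd
    obtain ⟨hd, hne⟩ := hd
    obtain ⟨_, hb, hch⟩ := mem_chainsOn.1 hd
    push Not at hne
    obtain ⟨p, hp, hp'⟩ := hne
    have := least_spec (dflt := (a, b)) (c := bad d)
      (hch.mono (by intro y hy; exact Finset.mem_of_mem_filter y hy))
      ⟨p, Finset.mem_filter.2 ⟨hp, hp'⟩⟩
    have h1 := Finset.mem_filter.1 this.1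
    exact ⟨h1.1, h1.2, fun q hq hq' => this.2 q (Finset.mem_filter.2 ⟨hq, hq'⟩)⟩
  have hcan : ∑ d ∈ (chainsOn (s ×ˢ t) (a, b)).filter (fun d => ¬ ∀ p ∈ d, p.1 ≤ X d),
      (-1) ^ (d.card + 1) * F (d.image Prod.fst) (d.image Prod.snd) = 0 := by
    -- basic facts on the toggled chain
    have hfact : ∀ d ∈ (chainsOn (s ×ˢ t) (a, b)).filter (fun d => ¬ ∀ p ∈ d, p.1 ≤ X d),
        (m d).2 ≠ b := by
      intro d hd hb'
      obtain ⟨h1, h2, _⟩ := hm d hd
      apply h2
      apply (hX d (Finset.mem_filter.1 hd).1).2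
      rw [← hb']; exact h1
    have hmem : ∀ d ∈ (chainsOn (s ×ˢ t) (a, b)).filter (fun d => ¬ ∀ p ∈ d, p.1 ≤ X d),
        (X d, b) ∈ toggle d (e d) ∧ m d ∈ toggle d (e d) ∧
        (∀ p, p ∈ toggle d (e d) → p ≠ e d → p ∈ d) ∧
        (∀ p, p ∈ d → p ≠ e d → p ∈ toggle d (e d)) := by
      intro d hd
      obtain ⟨h1, h2, _⟩ := hm d hd
      obtain ⟨h3, h4⟩ := hX d (Finset.mem_filter.1 hd).1
      have hn1 : (X d, b) ≠ e d := by
        intro h
        exact hfact d hd (congrArg Prod.snd h).symm
      have hn2 : m d ≠ e d := by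
        intro h
        apply h2
        have : (m d).1 = X d := congrArg Prod.fst h
        rw [this]
      have hA : ∀ p, p ∈ d → p ≠ e d → p ∈ toggle d (e d) := by
        intro p hp hpe
        unfold toggle
        split_ifs with h
        · exact Finset.mem_erase.2 ⟨hpe, hp⟩
        · exact Finset.mem_insert_of_mem hp
      refine ⟨hA _ h3 hn1, hA _ h1 hn2, ?_, hA⟩
      intro p hp hpe
      unfold toggle at hp
      split_ifs at hp with h
      · exact Finset.mem_of_mem_erase hp
      · exact (Finset.mem_insert.1 hp).resolve_left hpe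
    have hXt : ∀ d ∈ (chainsOn (s ×ˢ t) (a, b)).filter (fun d => ¬ ∀ p ∈ d, p.1 ≤ X d),
        X (toggle d (e d)) = X d := by
      intro d hd
      obtain ⟨h1, h2, h3, h4⟩ := hmem d hd
      apply greatest_eq
      · exact mem_row.2 h1
      · intro x hx
        apply (hX d (Finset.mem_filter.1 hd).1).2
        apply h3 _ (mem_row.1 hx)
        intro h
        exact hfact d hd (congrArg Prod.snd h).symm
    have hmt : ∀ d ∈ (chainsOn (s ×ˢ t) (a, b)).filter (fun d => ¬ ∀ p ∈ d, p.1 ≤ X d),
        m (toggle d (e d)) = m d := by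
      intro d hd
      obtain ⟨h1, h2, h3, h4⟩ := hmem d hd
      obtain ⟨g1, g2, g3⟩ := hm d hd
      apply least_eq
      · apply Finset.mem_filter.2
        rw [hXt d hd]
        exact ⟨h2, g2⟩
      · intro p hp
        have hp' := Finset.mem_filter.1 hp
        rw [hXt d hd] at hp'
        apply g3 p _ hp'.2
        apply h3 p hp'.1
        intro h
        apply hp'.2
        rw [h]
    have het : ∀ d ∈ (chainsOn (s ×ˢ t) (a, b)).filter (fun d => ¬ ∀ p ∈ d, p.1 ≤ X d),
        e (toggle d (e d)) = e d := by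
      intro d hd
      simp only [e]
      rw [Prod.mk.injEq]
      exact ⟨hXt d hd, congrArg Prod.snd (hmt d hd)⟩
    have himg : ∀ d ∈ (chainsOn (s ×ˢ t) (a, b)).filter (fun d => ¬ ∀ p ∈ d, p.1 ≤ X d),
        (toggle d (e d)).image Prod.fst = d.image Prod.fst ∧
        (toggle d (e d)).image Prod.snd = d.image Prod.snd := by
      intro d hd
      obtain ⟨h1, h2, h3, h4⟩ := hmem d hd
      obtain ⟨g1, g2, g3⟩ := hm d hd
      obtain ⟨k1, k2⟩ := hX d (Finset.mem_filter.1 hd).1
      constructor
      · ext x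
        simp only [Finset.mem_image]
        constructor
        · rintro ⟨p, hp, rfl⟩
          by_cases hpe : p = e d
          · exact ⟨(X d, b), k1, by rw [hpe]⟩
          · exact ⟨p, h3 p hp hpe, rfl⟩
        · rintro ⟨p, hp, rfl⟩
          by_cases hpe : p = e d
          · exact ⟨(X d, b), h1, by rw [hpe]⟩
          · exact ⟨p, h4 p hp hpe, rfl⟩
      · ext x
        simp only [Finset.mem_image]
        constructor
        · rintro ⟨p, hp, rfl⟩
          by_cases hpe : p = e d
          · exact ⟨m d, g1, by rw [hpe]⟩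
          · exact ⟨p, h3 p hp hpe, rfl⟩
        · rintro ⟨p, hp, rfl⟩
          by_cases hpe : p = e d
          · exact ⟨m d, h2, by rw [hpe]⟩
          · exact ⟨p, h4 p hp hpe, rfl⟩
    apply sum_toggle _ e
    · intro d hd
      obtain ⟨h1, h2, h3, h4⟩ := hmem d hd
      obtain ⟨g1, g2, g3⟩ := hm d hd
      obtain ⟨k1, k2⟩ := hX d (Finset.mem_filter.1 hd).1
      obtain ⟨l1, l2, l3⟩ := mem_chainsOn.1 (Finset.mem_filter.1 hd).1
      rw [Finset.mem_filter, mem_chainsOn]
      have hXm : X d ≤ (m d).1 := by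
        rcases chain_total l3 k1 g1 with h | h
        · exact h.1
        · exact absurd h.1 g2
      refine ⟨⟨?_, ?_, ?_⟩, ?_⟩
      · intro p hp
        by_cases hpe : p = e d
        · rw [hpe, Finset.mem_product]
          exact ⟨(Finset.mem_product.1 (l1 k1)).1, (Finset.mem_product.1 (l1 g1)).2⟩
        · exact l1 (h3 p hp hpe)
      · apply h4 _ l2
        intro h
        exact hfact d hd (congrArg Prod.snd h).symm
      · unfold toggle
        split_ifs with h
        · exact l3.mono (by intro y hy; exact Finset.mem_of_mem_erase hy)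
        · rw [Finset.coe_insert]
          apply l3.insert
          intro p hp hne
          by_cases hpX : p.1 ≤ X d
          · right
            rcases chain_total l3 hp g1 with h | h
            · exact ⟨hpX, h.2⟩
            · exact absurd (h.1.trans hpX) g2
          · left
            have := g3 p hp hpX
            exact ⟨hXm.trans this.1, this.2⟩
      · push Not
        rw [hXt d hd]
        exact ⟨m d, h2, g2⟩
    · exact het
    · intro d hd
      obtain ⟨i1, i2⟩ := himg d hd
      rw [i1, i2]
      unfold toggle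
      split_ifs with h
      · have : d.card = (d.erase (e d)).card + 1 := by
          rw [Finset.card_erase_of_mem h]
          have : 0 < d.card := Finset.card_pos.2 ⟨_, h⟩
          omega
        rw [this]; ring
      · rw [Finset.card_insert_of_notMem h]; ring
  rw [← Finset.sum_filter_add_sum_filter_not (chainsOn (s ×ˢ t) (a, b))
    (fun d => ∀ p ∈ d, p.1 ≤ X d), hcan, add_zero, ← Finset.sum_product']
  -- the bijection
  let J : Finset A × Finset B → Finset (A × B) := fun c =>
    c.1.image (fun x => (x, b)) ∪ c.2.image (fun y => (greatest c.1 a, y))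
  apply Finset.sum_bij' (fun d _ => (d.image Prod.fst, d.image Prod.snd)) (fun c _ => J c)
  · intro d hd
    rw [Finset.mem_filter, mem_chainsOn] at hd
    obtain ⟨⟨l1, l2, l3⟩, hgood⟩ := hd
    rw [Finset.mem_product, mem_chainsOn, mem_chainsOn]
    refine ⟨⟨?_, ?_, ?_⟩, ⟨?_, ?_, ?_⟩⟩
    · intro x hx
      obtain ⟨p, hp, rfl⟩ := Finset.mem_image.1 hx
      exact (Finset.mem_product.1 (l1 hp)).1
    · exact Finset.mem_image.2 ⟨_, l2, rfl⟩
    · intro x hx y hy hne
      obtain ⟨p, hp, rfl⟩ := Finset.mem_image.1 hx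
      obtain ⟨q, hq, rfl⟩ := Finset.mem_image.1 hy
      rcases chain_total l3 hp hq with h | h
      · left; exact h.1
      · right; exact h.1
    · intro x hx
      obtain ⟨p, hp, rfl⟩ := Finset.mem_image.1 hx
      exact (Finset.mem_product.1 (l1 hp)).2
    · exact Finset.mem_image.2 ⟨_, l2, rfl⟩
    · intro x hx y hy hne
      obtain ⟨p, hp, rfl⟩ := Finset.mem_image.1 hx
      obtain ⟨q, hq, rfl⟩ := Finset.mem_image.1 hy
      rcases chain_total l3 hp hq with h | h
      · left; exact h.2
      · right; exact h.2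
  · intro c hc
    rw [Finset.mem_product, mem_chainsOn, mem_chainsOn] at hc
    obtain ⟨⟨u1, u2, u3⟩, ⟨v1, v2, v3⟩⟩ := hc
    have hg := greatest_spec (dflt := a) u3 ⟨a, u2⟩
    have hmemJ : ∀ p, p ∈ J c ↔ (p.1 ∈ c.1 ∧ p.2 = b) ∨ (p.1 = greatest c.1 a ∧ p.2 ∈ c.2) := by
      intro p
      simp only [J, Finset.mem_union, Finset.mem_image]
      constructor
      · rintro (⟨x, hx, rfl⟩ | ⟨y, hy, rfl⟩)
        · left; exact ⟨hx, rfl⟩
        · right; exact ⟨rfl, hy⟩
      · rintro (⟨h1, h2⟩ | ⟨h1, h2⟩)
        · left; exact ⟨p.1, h1, by rw [← h2]⟩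
        · right; exact ⟨p.2, h2, by rw [← h1]⟩
    have hchain : J c ∈ chainsOn (s ×ˢ t) (a, b) := by
      rw [mem_chainsOn]
      refine ⟨?_, ?_, ?_⟩
      · intro p hp
        rw [Finset.mem_product]
        rcases (hmemJ p).1 hp with ⟨h1, h2⟩ | ⟨h1, h2⟩
        · exact ⟨u1 h1, by rw [h2]; exact v1 v2⟩
        · exact ⟨by rw [h1]; exact u1 hg.1, v1 h2⟩
      · exact (hmemJ _).2 (Or.inl ⟨u2, rfl⟩)
      · intro p hp q hq hne
        rcases (hmemJ p).1 hp with ⟨h1, h2⟩ | ⟨h1, h2⟩ <;>
        rcases (hmemJ q).1 hq with ⟨g1, g2⟩ | ⟨g1, g2⟩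
        · rcases chain_total u3 h1 g1 with h | h
          · left; exact ⟨h, by rw [h2, g2]⟩
          · right; exact ⟨h, by rw [h2, g2]⟩
        · left; exact ⟨by rw [g1]; exact hg.2 _ h1, by rw [h2]; exact hbt _ (v1 g2)⟩
        · right; exact ⟨by rw [h1]; exact hg.2 _ g1, by rw [g2]; exact hbt _ (v1 h2)⟩
        · rcases chain_total v3 h2 g2 with h | h
          · left; exact ⟨by rw [h1, g1], h⟩
          · right; exact ⟨by rw [h1, g1], h⟩
    rw [Finset.mem_filter]
    refine ⟨hchain, ?_⟩
    have hXJ : X (J c) = greatest c.1 a := by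
      apply greatest_eq
      · exact mem_row.2 ((hmemJ _).2 (Or.inl ⟨hg.1, rfl⟩))
      · intro x hx
        rcases (hmemJ _).1 (mem_row.1 hx) with ⟨h1, h2⟩ | ⟨h1, h2⟩
        · exact hg.2 _ h1
        · exact h1.le
    rw [hXJ]
    intro p hp
    rcases (hmemJ p).1 hp with ⟨h1, h2⟩ | ⟨h1, h2⟩
    · exact hg.2 _ h1
    · exact h1.le
  · intro d hd
    rw [Finset.mem_filter] at hd
    obtain ⟨hd, hgood⟩ := hd
    obtain ⟨k1, k2⟩ := hX d hd
    obtain ⟨l1, l2, l3⟩ := mem_chainsOn.1 hd
    have hg : greatest (d.image Prod.fst) a = X d := by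
      apply greatest_eq
      · exact Finset.mem_image.2 ⟨_, k1, rfl⟩
      · intro x hx
        obtain ⟨p, hp, rfl⟩ := Finset.mem_image.1 hx
        exact hgood p hp
    ext p
    simp only [J, hg, Finset.mem_union, Finset.mem_image]
    constructor
    · rintro (⟨x, ⟨q, hq, rfl⟩, rfl⟩ | ⟨y, ⟨q, hq, rfl⟩, rfl⟩)
      · rcases chain_total l3 hq k1 with h | h
        · have : q.2 = b := le_antisymm h.2 (hbt _ (Finset.mem_product.1 (l1 hq)).2)
          rw [← this]; exact hq
        · have : q.1 = X d := le_antisymm (hgood q hq) h.1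
          rw [this]; exact k1
      · rcases chain_total l3 hq k1 with h | h
        · have : q.2 = b := le_antisymm h.2 (hbt _ (Finset.mem_product.1 (l1 hq)).2)
          rw [this]; exact k1
        · have : q.1 = X d := le_antisymm (hgood q hq) h.1
          rw [← this]; exact hq
    · intro hp
      rcases chain_total l3 hp k1 with h | h
      · have : p.2 = b := le_antisymm h.2 (hbt _ (Finset.mem_product.1 (l1 hp)).2)
        left; exact ⟨p.1, ⟨p, hp, rfl⟩, by rw [← this]⟩
      · have : p.1 = X d := le_antisymm (hgood p hp) h.1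
        right; exact ⟨p.2, ⟨p, hp, rfl⟩, by rw [← this]⟩
  · intro c hc
    rw [Finset.mem_product, mem_chainsOn, mem_chainsOn] at hc
    obtain ⟨⟨u1, u2, u3⟩, ⟨v1, v2, v3⟩⟩ := hc
    have hg := greatest_spec (dflt := a) u3 ⟨a, u2⟩
    apply Prod.ext
    · ext x
      simp only [J, Finset.mem_image, Finset.mem_union]
      constructor
      · rintro ⟨p, ⟨x', hx', rfl⟩ | ⟨y', hy', rfl⟩, rfl⟩
        · exact hx'
        · exact hg.1
      · intro hx
        exact ⟨(x, b), Or.inl ⟨x, hx, rfl⟩, rfl⟩
    · ext y
      simp only [J, Finset.mem_image, Finset.mem_union]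
      constructor
      · rintro ⟨p, ⟨x', hx', rfl⟩ | ⟨y', hy', rfl⟩, rfl⟩
        · exact v2
        · exact hy'
      · intro hy
        exact ⟨(greatest c.1 a, y), Or.inr ⟨y, hy, rfl⟩, rfl⟩
  · intro d hd
    rw [Finset.mem_filter] at hd
    obtain ⟨hd, hgood⟩ := hd
    obtain ⟨k1, k2⟩ := hX d hd
    obtain ⟨l1, l2, l3⟩ := mem_chainsOn.1 hd
    -- `card d + 1 = card (image fst) + card (image snd)`
    have hcard : d.card + 1 = (d.image Prod.fst).card + (d.image Prod.snd).card := by
      have e1 : d = (d.filter (fun p => p.2 = b)) ∪ (d.filter (fun p => p.1 = X d)) := by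
        ext p
        simp only [Finset.mem_union, Finset.mem_filter]
        constructor
        · intro hp
          rcases chain_total l3 hp k1 with h | h
          · left; exact ⟨hp, le_antisymm h.2 (hbt _ (Finset.mem_product.1 (l1 hp)).2)⟩
          · right; exact ⟨hp, le_antisymm (hgood p hp) h.1⟩
        · rintro (h | h) <;> exact h.1
      have e2 : (d.filter (fun p => p.2 = b)) ∩ (d.filter (fun p => p.1 = X d)) = {(X d, b)} := by
        ext p
        simp only [Finset.mem_inter, Finset.mem_filter, Finset.mem_singleton]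
        constructor
        · rintro ⟨⟨_, h1⟩, ⟨_, h2⟩⟩
          exact Prod.ext h2 h1
        · rintro rfl
          exact ⟨⟨k1, rfl⟩, ⟨k1, rfl⟩⟩
      have e3 : (d.filter (fun p => p.2 = b)).card = (d.image Prod.fst).card := by
        have : d.image Prod.fst = (d.filter (fun p => p.2 = b)).image Prod.fst := by
          ext x
          simp only [Finset.mem_image, Finset.mem_filter]
          constructor
          · rintro ⟨p, hp, rfl⟩
            rcases chain_total l3 hp k1 with h | h
            · exact ⟨p, ⟨hp, le_antisymm h.2 (hbt _ (Finset.mem_product.1 (l1 hp)).2)⟩, rfl⟩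
            · exact ⟨(X d, b), ⟨k1, rfl⟩, (le_antisymm (hgood p hp) h.1).symm⟩
          · rintro ⟨p, hp, rfl⟩
            exact ⟨p, hp.1, rfl⟩
        rw [this, Finset.card_image_of_injOn]
        intro p hp q hq h
        have hp' := (Finset.mem_filter.1 hp).2
        have hq' := (Finset.mem_filter.1 hq).2
        exact Prod.ext h (hp'.trans hq'.symm)
      have e4 : (d.filter (fun p => p.1 = X d)).card = (d.image Prod.snd).card := by
        have : d.image Prod.snd = (d.filter (fun p => p.1 = X d)).image Prod.snd := by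
          ext x
          simp only [Finset.mem_image, Finset.mem_filter]
          constructor
          · rintro ⟨p, hp, rfl⟩
            rcases chain_total l3 hp k1 with h | h
            · exact ⟨(X d, b), ⟨k1, rfl⟩,
                (le_antisymm h.2 (hbt _ (Finset.mem_product.1 (l1 hp)).2)).symm⟩
            · exact ⟨p, ⟨hp, le_antisymm (hgood p hp) h.1⟩, rfl⟩
          · rintro ⟨p, hp, rfl⟩
            exact ⟨p, hp.1, rfl⟩
        rw [this, Finset.card_image_of_injOn]
        intro p hp q hq h
        have hp' := (Finset.mem_filter.1 hp).2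
        have hq' := (Finset.mem_filter.1 hq).2
        exact Prod.ext (hp'.trans hq'.symm) h
      have := Finset.card_union_add_card_inter (d.filter (fun p => p.2 = b))
        (d.filter (fun p => p.1 = X d))
      rw [← e1, e2, Finset.card_singleton, e3, e4] at this
      exact this
    rw [hcard]
    ring

end product

end Pool.Agent.Helper51_AWC
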