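import Pool.Agent.Helper51_AWC.Defs
import Pool.Agent.Helper51_AWC.Chains

/-!
The alternating sum as an average over all chains.
-/

open scoped BigOperators

noncomputable section

namespace Pool.Agent.Helper51_AWC

variable {G H : Type} [Group G] [Group H]

theorem mem_conjS {g : G} {D : Subgroup G} {x : G} : x ∈ conjS g D ↔ g⁻¹ * x * g ∈ D := by
  simp only [conjS, Subgroup.mem_map]
  constructor
  · rintro ⟨y, hy, rfl⟩
    simpa [mul_assoc] using hy
  · intro h
    exact ⟨_, h, by simp [mul_assoc]⟩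

theorem conjS_mono {g : G} {D E : Subgroup G} : conjS g D ≤ conjS g E ↔ D ≤ E := by
  constructor
  · intro h x hx
    have : g * x * g⁻¹ ∈ conjS g D := by rw [mem_conjS]; simpa [mul_assoc] using hx
    have := mem_conjS.1 (h this)
    simpa [mul_assoc] using this
  · intro h x hx
    exact mem_conjS.2 (h (mem_conjS.1 hx))

theorem conjS_injective (g : G) : Function.Injective (conjS g) := by
  intro D E h
  apply le_antisymm
  · exact conjS_mono.1 h.le
  · exact conjS_mono.1 h.ge

theorem conjS_pgroup {ℓ : ℕ} {g : G} {D : Subgroup G} (h : IsPGroup ℓ D) :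
    IsPGroup ℓ (conjS g D) := h.map _

theorem mem_normalizer_iff_conjS {g : G} {D : Subgroup G} :
    g ∈ Subgroup.normalizer (D : Set G) ↔ conjS g D = D := by
  rw [Subgroup.mem_normalizer_iff]
  constructor
  · intro h
    ext x
    rw [mem_conjS, h]
    simp [mul_assoc]
  · intro h x
    conv_rhs => rw [← h, mem_conjS]
    simp [mul_assoc]

theorem mem_stab {d : Finset (Subgroup G)} {g : G} :
    g ∈ stab d ↔ ∀ D ∈ d, conjS g D = D := by
  simp only [stab, Subgroup.mem_iInf, mem_normalizer_iff_conjS]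

theorem opCore_conj (ℓ : ℕ) (g : G) : conjS g (opCore ℓ G) = opCore ℓ G := by
  have key : ∀ g : G, opCore ℓ G ≤ conjS g (opCore ℓ G) := by
    intro g
    apply sSup_le
    rintro N ⟨hN, hp⟩ x hx
    rw [mem_conjS]
    have h1 : N ≤ opCore ℓ G := le_sSup ⟨hN, hp⟩
    apply h1
    have := hN.conj_mem x hx g⁻¹
    simpa using this
  apply le_antisymm
  · have := conjS_mono (g := g).2 (key g⁻¹)
    rwa [conjS_conjS, mul_inv_cancel, conjS_one] at this
  · exact key g

/-- conjugate chain -/
def PChain.conj {ℓ : ℕ} (g : G) (d : PChain ℓ G) : PChain ℓ G where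
  mem := d.mem.map ⟨conjS g, conjS_injective g⟩
  core_mem := by
    rw [Finset.mem_map]
    exact ⟨_, d.core_mem, opCore_conj ℓ g⟩
  core_le := by
    intro D hD
    obtain ⟨E, hE, rfl⟩ := Finset.mem_map.1 hD
    have := conjS_mono (g := g).2 (d.core_le E hE)
    rwa [opCore_conj] at this
  pgroup := by
    intro D hD
    obtain ⟨E, hE, rfl⟩ := Finset.mem_map.1 hD
    exact conjS_pgroup (d.pgroup E hE)
  chain := by
    intro D hD E hE hne
    rw [Finset.mem_coe] at hD hE
    obtain ⟨D', hD', rfl⟩ := Finset.mem_map.1 hD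
    obtain ⟨E', hE', rfl⟩ := Finset.mem_map.1 hE
    rcases chain_total d.chain hD' hE' with h | h
    · left; exact conjS_mono.2 h
    · right; exact conjS_mono.2 h

theorem PChain.ext' {ℓ : ℕ} {d e : PChain ℓ G} (h : d.mem = e.mem) : d = e := by
  cases d; cases e; simp only at h; subst h; rfl

instance (ℓ : ℕ) : MulAction G (PChain ℓ G) where
  smul := PChain.conj
  one_smul := by
    intro d
    apply PChain.ext'
    show (PChain.conj 1 d).mem = d.mem
    ext D
    simp [PChain.conj, conjS_one]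
  mul_smul := by
    intro g h d
    apply PChain.ext'
    show (PChain.conj (g * h) d).mem = (PChain.conj g (PChain.conj h d)).mem
    ext D
    simp [PChain.conj, conjS_conjS]

theorem smul_mem_def {ℓ : ℕ} (g : G) (d : PChain ℓ G) :
    (g • d).mem = d.mem.map ⟨conjS g, conjS_injective g⟩ := rfl

theorem mem_smul_iff {ℓ : ℕ} (g : G) (d : PChain ℓ G) (D : Subgroup G) :
    conjS g D ∈ (g • d).mem ↔ D ∈ d.mem := by
  rw [smul_mem_def, Finset.mem_map]
  constructor
  · rintro ⟨E, hE, h⟩
    rw [← conjS_injective g h]; exact hE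
  · intro h; exact ⟨D, h, rfl⟩

theorem chainSetoid_iff {ℓ : ℕ} (d e : PChain ℓ G) :
    (chainSetoid ℓ G).r d e ↔ ∃ g : G, g • d = e := by
  constructor
  · rintro ⟨g, hg⟩
    refine ⟨g, PChain.ext' ?_⟩
    ext D
    have h1 : D = conjS g (conjS g⁻¹ D) := by rw [conjS_conjS, mul_inv_cancel, conjS_one]
    rw [h1, mem_smul_iff, hg]
  · rintro ⟨g, rfl⟩
    exact ⟨g, fun D => (mem_smul_iff g d D).symm⟩

theorem chainSetoid_eq (ℓ : ℕ) : chainSetoid ℓ G = MulAction.orbitRel G (PChain ℓ G) := by
  ext d e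
  rw [MulAction.orbitRel_apply, MulAction.mem_orbit_iff]
  have h1 := chainSetoid_iff (ℓ := ℓ) (G := G) e d
  rw [← h1]
  exact ⟨fun h => (chainSetoid ℓ G).iseqv.symm h, fun h => (chainSetoid ℓ G).iseqv.symm h⟩

variable [Finite G]

omit [Finite G] in
theorem card_conjS (g : G) (D : Subgroup G) : Nat.card (conjS g D) = Nat.card D :=
  Subgroup.card_map_of_injective (MulAut.conj g).injective

/-- the stabiliser of a chain as a point of the set of chains -/
theorem stabilizer_chain {ℓ : ℕ} (d : PChain ℓ G) : MulAction.stabilizer G d = stab d.mem := by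
  ext g
  rw [MulAction.mem_stabilizer_iff, mem_stab]
  constructor
  · intro h D hD
    have h1 : conjS g D ∈ d.mem := by
      rw [← h, mem_smul_iff]; exact hD
    rcases chain_total d.chain h1 hD with h2 | h2
    · exact Subgroup.eq_of_le_of_card_ge h2 (card_conjS g D).ge
    · exact (Subgroup.eq_of_le_of_card_ge h2 (card_conjS g D).le).symm
  · intro h
    apply PChain.ext'
    rw [smul_mem_def]
    ext D
    rw [Finset.mem_map]
    constructor
    · rintro ⟨E, hE, rfl⟩
      show conjS g E ∈ d.mem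
      rw [h E hE]; exact hE
    · intro hD
      exact ⟨D, hD, h D hD⟩

instance (ℓ : ℕ) : Finite (PChain ℓ G) :=
  Finite.of_injective (fun d : PChain ℓ G => d.mem) (fun _ _ h => PChain.ext' h)

/-- weight of a chain -/
def weight (M : Ideal (integralClosure ℤ ℂ)) (χ : G → ℂ) (d : Finset (Subgroup G)) : ℕ :=
  Nat.card (stab d) * (IrrBlock M (stab d).subtype χ).ncard

omit [Finite G] in
/-- transport of `omega` along an isomorphism -/
theorem omega_equiv {H' : Type} [Group H'] (i : H →* G) (i' : H' →* G) (φ : H ≃* H')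
    (hφ : ∀ h, IsConj (i' (φ h)) (i h)) (ϑ : H' → ℂ) (g : G) :
    omega i (fun h => ϑ (φ h)) g = omega i' ϑ g := by
  unfold omega
  congr 1
  · rw [← finsum_comp_equiv φ.toEquiv]
    apply finsum_congr
    intro h
    have : IsConj g (i h) ↔ IsConj g (i' (φ h)) :=
      ⟨fun h' => h'.trans (hφ h).symm, fun h' => h'.trans (hφ h)⟩
    rw [show (IsConj g (i h)) = IsConj g (i' (φ h)) from propext this]
    rfl
  · simp

omit [Finite G] in
theorem ncard_IrrBlock_equiv {H' : Type} [Group H'] (M : Ideal (integralClosure ℤ ℂ))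
    (χ : G → ℂ) (i : H →* G) (i' : H' →* G) (φ : H ≃* H')
    (hφ : ∀ h, IsConj (i' (φ h)) (i h)) :
    (IrrBlock M i χ).ncard = (IrrBlock M i' χ).ncard := by
  symm
  apply Set.ncard_congr (fun ϑ _ => fun h => ϑ (φ h))
  · rintro ϑ ⟨h1, h2⟩
    refine ⟨irr_comp_equiv φ h1, fun g => ?_⟩
    rw [omega_equiv i i' φ hφ]
    exact h2 g
  · intro ϑ ϑ' _ _ h
    ext h'
    have := congrFun h (φ.symm h')
    simpa using this
  · intro ϑ hϑ
    refine ⟨fun h' => ϑ (φ.symm h'), ⟨irr_comp_equiv φ.symm hϑ.1, fun g => ?_⟩, ?_⟩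
    · have := omega_equiv i i' φ hφ (fun h' => ϑ (φ.symm h')) g
      have e : (fun h => (fun h' => ϑ (φ.symm h')) (φ h)) = ϑ := by
        funext h
        exact congrArg ϑ (φ.symm_apply_apply h)
      rw [e] at this
      rw [← this]
      exact hϑ.2 g
    · funext h
      exact congrArg ϑ (φ.symm_apply_apply h)

omit [Finite G] in
theorem stab_smul {ℓ : ℕ} (g : G) (d : PChain ℓ G) :
    stab (g • d).mem = conjS g (stab d.mem) := by
  ext x
  rw [mem_conjS, mem_stab, mem_stab]
  constructor
  · intro h D hD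
    have := h (conjS g D) ((mem_smul_iff g d D).2 hD)
    apply conjS_injective g
    rw [conjS_conjS] at this ⊢
    rw [← this]
    congr 1
    group
  · intro h D hD
    rw [smul_mem_def, Finset.mem_map] at hD
    obtain ⟨E, hE, rfl⟩ := hD
    have := congrArg (conjS g) (h E hE)
    show conjS x (conjS g E) = conjS g E
    rw [conjS_conjS] at this ⊢
    rw [← this]
    congr 1
    group

/-- the isomorphism `D ≃* g D g⁻¹` -/
def conjSEquiv (g : G) (D : Subgroup G) : D ≃* conjS g D :=
  D.equivMapOfInjective (MulAut.conj g).toMonoidHom (MulAut.conj g).injective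

omit [Finite G] in
theorem conjSEquiv_coe (g : G) (D : Subgroup G) (x : D) :
    ((conjSEquiv g D x : conjS g D) : G) = g * x * g⁻¹ := rfl

omit [Finite G] in
theorem weight_conjS (M : Ideal (integralClosure ℤ ℂ)) (χ : G → ℂ) (g : G) (T : Subgroup G) :
    Nat.card (conjS g T) = Nat.card T ∧
    (IrrBlock M (conjS g T).subtype χ).ncard = (IrrBlock M T.subtype χ).ncard := by
  refine ⟨card_conjS g T, ?_⟩
  symm
  apply ncard_IrrBlock_equiv M χ _ _ (conjSEquiv g T)
  intro h
  rw [Subgroup.coe_subtype, Subgroup.coe_subtype, conjSEquiv_coe]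
  exact (isConj_iff.2 ⟨g, rfl⟩ : IsConj (h : G) _).symm

omit [Finite G] in
theorem weight_smul {ℓ : ℕ} (M : Ideal (integralClosure ℤ ℂ)) (χ : G → ℂ) (g : G)
    (d : PChain ℓ G) : weight M χ (g • d).mem = weight M χ d.mem := by
  unfold weight
  rw [stab_smul]
  obtain ⟨h1, h2⟩ := weight_conjS M χ g (stab d.mem)
  rw [h1, h2]

/-- the allowed members of chains -/
def psub (ℓ : ℕ) (G : Type) [Group G] [Finite G] : Finset (Subgroup G) :=
  (Set.toFinite {D : Subgroup G | opCore ℓ G ≤ D ∧ IsPGroup ℓ D}).toFinset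

theorem mem_psub {ℓ : ℕ} {D : Subgroup G} : D ∈ psub ℓ G ↔ opCore ℓ G ≤ D ∧ IsPGroup ℓ D := by
  simp [psub]

/-- the alternating sum as an average -/
theorem card_mul_altSum (ℓ : ℕ) (M : Ideal (integralClosure ℤ ℂ)) (χ : G → ℂ) :
    (Nat.card G : ℤ) * altSum ℓ M χ =
      ∑ d ∈ chainsOn (psub ℓ G) (opCore ℓ G), (-1) ^ (d.card + 1) * (weight M χ d : ℤ) := by
  classical
  have := Fintype.ofFinite G
  have := Fintype.ofFinite (PChain ℓ G)
  have := Fintype.ofFinite (Quotient (chainSetoid ℓ G))
  have hsign : ∀ d : PChain ℓ G, (-1 : ℤ) ^ (d.mem.card + 1) = (-1) ^ d.length := by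
    intro d
    have : 0 < d.mem.card := Finset.card_pos.2 ⟨_, d.core_mem⟩
    have : d.mem.card + 1 = d.length + 2 := by unfold PChain.length; omega
    rw [this, pow_add]; simp
  have h1 : ∑ d ∈ chainsOn (psub ℓ G) (opCore ℓ G), (-1) ^ (d.card + 1) * (weight M χ d : ℤ) =
      ∑ d : PChain ℓ G, (-1) ^ d.length * (weight M χ d.mem : ℤ) := by
    symm
    apply Finset.sum_bij (fun d _ => d.mem)
    · intro d _
      rw [mem_chainsOn]
      exact ⟨fun D hD => mem_psub.2 ⟨d.core_le D hD, d.pgroup D hD⟩, d.core_mem, d.chain⟩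
    · intro d _ e _ h; exact PChain.ext' h
    · intro d hd
      obtain ⟨a1, a2, a3⟩ := mem_chainsOn.1 hd
      exact ⟨⟨d, a2, fun D hD => (mem_psub.1 (a1 hD)).1, fun D hD => (mem_psub.1 (a1 hD)).2, a3⟩,
        Finset.mem_univ _, rfl⟩
    · intro d _; rw [hsign]
  rw [h1]
  unfold altSum
  rw [finsum_eq_sum_of_fintype, Finset.mul_sum]
  rw [← Finset.sum_fiberwise (Finset.univ) (fun d : PChain ℓ G => (Quotient.mk (chainSetoid ℓ G) d))]
  apply Finset.sum_congr rfl
  intro q _
  have h2 : ∀ d ∈ Finset.univ.filter (fun d : PChain ℓ G => Quotient.mk (chainSetoid ℓ G) d = q),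
      (-1) ^ d.length * (weight M χ d.mem : ℤ) =
        (-1) ^ q.out.length * (weight M χ q.out.mem : ℤ) := by
    intro d hd
    rw [Finset.mem_filter] at hd
    have h3 : (chainSetoid ℓ G).r d q.out := by
      apply Quotient.exact (s := chainSetoid ℓ G)
      rw [hd.2, Quotient.out_eq]
    obtain ⟨g, hg⟩ := (chainSetoid_iff d q.out).1 h3
    rw [← hg, weight_smul]
    congr 2
    unfold PChain.length
    rw [smul_mem_def, Finset.card_map]
  rw [Finset.sum_congr rfl h2, Finset.sum_const, nsmul_eq_mul]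
  have h3 : (Finset.univ.filter (fun d : PChain ℓ G => Quotient.mk (chainSetoid ℓ G) d = q)).card *
      Nat.card (stab q.out.mem) = Nat.card G := by
    have h4 := MulAction.card_orbit_mul_card_stabilizer_eq_card_group G q.out
    rw [← Nat.card_eq_fintype_card, ← Nat.card_eq_fintype_card, ← Nat.card_eq_fintype_card,
      stabilizer_chain] at h4
    rw [← h4]
    congr 1
    rw [← Set.ncard_coe_finset]
    show _ = (MulAction.orbit G q.out).ncard
    congr 1
    ext d
    simp only [Finset.coe_filter, Finset.mem_univ, true_and, Set.mem_ofPred_eq]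
    rw [MulAction.mem_orbit_iff, ← chainSetoid_iff]
    constructor
    · rintro rfl
      exact Quotient.exact (s := chainSetoid ℓ G) (Quotient.out_eq _)
    · intro h
      rw [← Quotient.out_eq q]
      exact Quotient.sound (s := chainSetoid ℓ G) ((chainSetoid ℓ G).iseqv.symm h)
  rw [← h3]
  unfold weight
  push_cast
  ring

end Pool.Agent.Helper51_AWC
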