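import Pool.Agent.Helper51_AWC.Basic

/-!
Integrality of central characters and of character values; congruences.
-/

open scoped BigOperators
open Module

noncomputable section

namespace Pool.Agent.Helper51_AWC

variable {G H : Type} [Group G] [Group H]

/-- algebraic integers -/
abbrev AI (a : ℂ) : Prop := IsIntegral ℤ a

theorem AI.natCast (n : ℕ) : AI (n : ℂ) := by
  have := isIntegral_algebraMap (R := ℤ) (A := ℂ) (x := (n : ℤ))
  simpa using this

section integral

variable [Fintype G]

/-- a scalar by which an integral coefficient function acts is an algebraic integer -/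
theorem integral_of_act {V : Type*} [AddCommGroup V] [Module ℂ V]
    [Nontrivial V] (ρ : Representation ℂ G V) (z : G → ℤ) (c : ℂ)
    (hc : act ρ (fun g => (z g : ℂ)) = c • LinearMap.id) : AI c := by
  classical
  -- the ring homomorphism `ℤ[G] → End V`
  let F : MonoidAlgebra ℤ G →ₐ[ℤ] (End ℂ V) := MonoidAlgebra.lift ℤ (End ℂ V) G ρ
  set y : MonoidAlgebra ℤ G := ∑ g, MonoidAlgebra.single g (z g) with hy
  have hy1 : F y = algebraMap ℂ (End ℂ V) c := by
    have : algebraMap ℂ (End ℂ V) c = c • LinearMap.id := Algebra.algebraMap_eq_smul_one c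
    rw [this, ← hc, hy, map_sum]
    unfold act
    apply Finset.sum_congr rfl
    intro g _
    simp only [F, MonoidAlgebra.lift_single]
    ext v
    simp only [LinearMap.smul_apply]
    exact (Int.cast_smul_eq_zsmul ℂ _ _).symm
  have h1 : IsIntegral ℤ (F y) := (IsIntegral.of_finite ℤ y).map F
  rw [hy1] at h1
  have hinj : Function.Injective (algebraMap ℂ (End ℂ V)) :=
    FaithfulSMul.algebraMap_injective ℂ (End ℂ V)
  let f : ℂ →ₐ[ℤ] End ℂ V := (Algebra.ofId ℂ (End ℂ V)).restrictScalars ℤ
  exact (isIntegral_algHom_iff f hinj).1 h1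

omit [Fintype G] in
/-- character values are algebraic integers -/
theorem irr_integral [Finite G] {χ : G → ℂ} (hχ : χ ∈ Irr G) (g : G) : AI (χ g) := by
  obtain ⟨n, ρ, hρ, rfl⟩ := hχ
  have hs : (ρ g).charpoly.Splits := IsAlgClosed.splits _
  rw [Representation.character, Module.End.trace_eq_sum_roots_charpoly_of_splits hs]
  apply IsIntegral.multiset_sum
  intro μ hμ
  have h1 : (ρ g).charpoly.IsRoot μ := (Polynomial.mem_roots'.1 hμ).2
  have h2 := (Module.End.hasEigenvalue_iff_isRoot_charpoly (ρ g) μ).2 h1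
  obtain ⟨v, hv⟩ := h2.exists_hasEigenvector
  have h3 : μ ^ Nat.card G = 1 := by
    have h4 : (ρ g ^ Nat.card G) v = μ ^ Nat.card G • v := hv.pow_apply _
    rw [← map_pow, pow_card_eq_one', map_one] at h4
    have h5 : (μ ^ Nat.card G - 1) • v = 0 := by
      rw [sub_smul, ← h4]; simp
    rcases smul_eq_zero.1 h5 with h6 | h6
    · exact sub_eq_zero.1 h6
    · exact absurd h6 hv.2
  apply IsIntegral.of_pow (n := Nat.card G) Nat.card_pos
  rw [h3]
  exact isIntegral_one

end integral

theorem omega_eq [Fintype H] (i : H →* G) (ϑ : H → ℂ) (g : G) [DecidablePred fun h => IsConj g (i h)] :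
    omega i ϑ g = (∑ h : H, if IsConj g (i h) then ϑ h else 0) / ϑ 1 := by
  unfold omega
  rw [finsum_eq_sum_of_fintype]
  congr 1
  apply Finset.sum_congr rfl
  intro h _
  rw [finsum_eq_if]

/-- the scalar by which an integral class function acts on an irreducible representation -/
theorem ai_central [Fintype H] {ϑ : H → ℂ} (hϑ : ϑ ∈ Irr H) (z : H → ℤ)
    (hz : ∀ g h, z (h * g * h⁻¹) = z g) : AI ((∑ h, (z h : ℂ) * ϑ h) / ϑ 1) := by
  have h1 := irr_one_ne hϑ
  obtain ⟨d, hd, hd'⟩ := irr_one hϑ
  obtain ⟨n, ρ, hρ, rfl⟩ := hϑ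
  obtain ⟨c, hc⟩ := act_scalar ρ (fun g => (z g : ℂ)) (fun g h => by rw [hz])
  have h2 := act_trace ρ (fun g => (z g : ℂ))
  rw [hc] at h2
  have h3 : LinearMap.trace ℂ (Fin n → ℂ) (c • LinearMap.id) = c * ρ.character 1 := by
    rw [map_smul, smul_eq_mul]
    congr 1
    rw [Representation.character, map_one]; rfl
  rw [h3] at h2
  rw [← h2, mul_div_assoc, div_self h1, mul_one]
  have : Nontrivial (Fin n → ℂ) := by
    by_contra hcon
    rw [not_nontrivial_iff_subsingleton] at hcon
    apply h1
    rw [Representation.char_one, Module.finrank_zero_of_subsingleton, Nat.cast_zero]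
  exact integral_of_act ρ z c hc

theorem omega_integral [Finite H] (i : H →* G) {ϑ : H → ℂ} (hϑ : ϑ ∈ Irr H) (g : G) :
    AI (omega i ϑ g) := by
  classical
  have := Fintype.ofFinite H
  rw [omega_eq]
  have := ai_central hϑ (fun h => if IsConj g (i h) then 1 else 0) (by
    intro x h
    have : IsConj (i x) (i (h * x * h⁻¹)) := by
      rw [map_mul, map_mul, map_inv]; exact isConj_iff.2 ⟨i h, rfl⟩
    have e : IsConj g (i (h * x * h⁻¹)) ↔ IsConj g (i x) :=
      ⟨fun h' => h'.trans this.symm, fun h' => h'.trans this⟩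
    simp only [e])
  convert this using 3
  rename_i h _
  split_ifs <;> simp

theorem omega_one [Finite H] {i : H →* G} (hi : Function.Injective i) {ϑ : H → ℂ}
    (hϑ : ϑ 1 ≠ 0) : omega i ϑ 1 = 1 := by
  classical
  have := Fintype.ofFinite H
  rw [omega_eq, Finset.sum_eq_single_of_mem 1 (Finset.mem_univ _)]
  · simp [hϑ]
  · intro h _ hne
    rw [if_neg]
    intro hc
    apply hne
    apply hi
    rw [map_one]
    exact (isConj_one_right.1 hc)

end Pool.Agent.Helper51_AWC
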