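import Pool.Agent.Helper51_AWC.Prod

/-!
Matrix representations; irreducible characters of finite products of groups indexed by a
finite type.
-/

open scoped BigOperators
open Module

noncomputable section

namespace Pool.Agent.Helper51_AWC

section matrix

variable {G : Type} [Group G]

/-- an irreducible character is the trace of a matrix representation -/
theorem irr_matrix {χ : G → ℂ} (hχ : χ ∈ Irr G) :
    ∃ (n : ℕ) (R : G →* Matrix (Fin n) (Fin n) ℂ), ∀ g, (R g).trace = χ g := by
  obtain ⟨n, ρ, hρ, rfl⟩ := hχ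
  refine ⟨n, (LinearMap.toMatrixAlgEquiv' : _ ≃ₐ[ℂ] Matrix (Fin n) (Fin n) ℂ).toRingEquiv.toMulEquiv.toMonoidHom.comp
    (ρ : G →* ((Fin n → ℂ) →ₗ[ℂ] (Fin n → ℂ))), fun g => ?_⟩
  simp only [Representation.character]
  rw [LinearMap.trace_eq_matrix_trace ℂ (Pi.basisFun ℂ (Fin n))]
  rfl

/-- norm criterion for matrix representations -/
theorem mem_Irr_of_matrix [Fintype G] {X : Type} [Fintype X] [DecidableEq X]
    (R : G →* Matrix X X ℂ)
    (h : ∑ g, (R g).trace * (R g⁻¹).trace = Fintype.card G) :
    (fun g => (R g).trace) ∈ Irr G := by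
  let ρ : Representation ℂ G (X → ℂ) :=
    (Matrix.toLinAlgEquiv' : Matrix X X ℂ ≃ₐ[ℂ] _).toRingEquiv.toMulEquiv.toMonoidHom.comp R
  have hc : ρ.character = fun g => (R g).trace := by
    funext g
    simp only [Representation.character]
    rw [LinearMap.trace_eq_matrix_trace ℂ (Pi.basisFun ℂ X)]
    congr 1
    show LinearMap.toMatrix (Pi.basisFun ℂ X) (Pi.basisFun ℂ X) (Matrix.toLin' (R g)) = R g
    rw [LinearMap.toMatrix_eq_toMatrix', LinearMap.toMatrix'_toLin']
  rw [← hc]
  apply mem_Irr_of_norm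
  rw [hc]
  exact h

/-- an irreducible character is the trace of a system of matrix coefficients -/
theorem irr_coeff {χ : G → ℂ} (hχ : χ ∈ Irr G) :
    ∃ (n : ℕ) (r : G → Fin n → Fin n → ℂ), (∀ a b, r 1 a b = if a = b then 1 else 0) ∧
      (∀ g h a b, r (g * h) a b = ∑ c, r g a c * r h c b) ∧ ∀ g, ∑ a, r g a a = χ g := by
  obtain ⟨n, R, hR⟩ := irr_matrix hχ
  refine ⟨n, fun g a b => R g a b, ?_, ?_, fun g => hR g⟩
  · intro a b
    show R 1 a b = _
    rw [map_one, Matrix.one_apply]
  · intro g h a b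
    show R (g * h) a b = _
    rw [map_mul, Matrix.mul_apply]

/-- norm criterion for systems of matrix coefficients -/
theorem mem_Irr_of_coeff [Fintype G] {X : Type} [Fintype X] [DecidableEq X]
    (r : G → X → X → ℂ) (h1 : ∀ a b, r 1 a b = if a = b then 1 else 0)
    (h2 : ∀ g h a b, r (g * h) a b = ∑ c, r g a c * r h c b) (χ : G → ℂ)
    (h3 : ∀ g, ∑ a, r g a a = χ g) (h4 : ∑ g, χ g * χ g⁻¹ = Fintype.card G) : χ ∈ Irr G := by
  let R : G →* Matrix X X ℂ :=
    { toFun := fun g => Matrix.of (r g)
      map_one' := by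
        ext a b
        rw [Matrix.one_apply]
        exact h1 a b
      map_mul' := by
        intro g h
        ext a b
        rw [Matrix.mul_apply]
        exact h2 g h a b }
  have h5 : ∀ g, (R g).trace = χ g := h3
  have := mem_Irr_of_matrix R (by simp only [h5]; exact h4)
  simp only [h5] at this
  exact this

/-- the regular character -/
theorem sum_one_mul [Fintype G] [Fintype (Irr G)] [DecidableEq G] (y : G) :
    ∑ χ : Irr G, (χ : G → ℂ) 1 * (χ : G → ℂ) y = if y = 1 then (Fintype.card G : ℂ) else 0 := by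
  have h : (fun y : G => (∑ χ : Irr G, (χ : G → ℂ) 1 * (χ : G → ℂ) y) -
      if y = 1 then (Fintype.card G : ℂ) else 0) = 0 := by
    apply irr_complete'
    · intro g h
      have h1 : h * g * h⁻¹ = 1 ↔ g = 1 := by
        constructor
        · intro h2
          have : g = h⁻¹ * (h * g * h⁻¹) * h := by group
          rw [this, h2]; group
        · rintro rfl; group
      simp only [h1]
      congr 1
      apply Finset.sum_congr rfl
      intro χ _
      rw [irr_conj χ.2]
    · intro ψ hψ
      simp only [sub_mul, Finset.sum_sub_distrib, Finset.sum_mul, ite_mul, zero_mul]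
      rw [Finset.sum_comm, Finset.sum_eq_single_of_mem ⟨ψ, hψ⟩ (Finset.mem_univ _)]
      · simp_rw [mul_assoc]
        rw [← Finset.mul_sum, irr_orth_self hψ]
        simp [mul_comm]
      · intro χ _ hne
        simp_rw [mul_assoc]
        rw [← Finset.mul_sum, irr_orth_ne χ.2 hψ (fun h => hne (Subtype.ext h)), mul_zero]
  exact sub_eq_zero.1 (congrFun h y)

end matrix

section pi

variable {ι : Type} [Fintype ι] [DecidableEq ι] {H : ι → Type} [∀ i, Group (H i)]

omit [DecidableEq ι] [∀ i, Group (H i)] in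
/-- product of functions on the factors -/
def piChar (α : ∀ i, H i → ℂ) : (∀ i, H i) → ℂ := fun x => ∏ i, α i (x i)

variable [∀ i, Fintype (H i)]

omit [∀ i, Group (H i)] in
theorem sum_pi_prod (F : ∀ i, H i → ℂ) :
    ∑ x : (∀ i, H i), ∏ i, F i (x i) = ∏ i, ∑ y, F i y := by
  rw [Finset.prod_univ_sum, Fintype.piFinset_univ]

theorem piChar_inner (α β : ∀ i, H i → ℂ) :
    ∑ x : (∀ i, H i), piChar α x * piChar β x⁻¹ = ∏ i, ∑ y, α i y * β i y⁻¹ := by
  rw [← sum_pi_prod (fun i y => α i y * β i y⁻¹)]
  apply Finset.sum_congr rfl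
  intro x _
  unfold piChar
  rw [← Finset.prod_mul_distrib]
  rfl

theorem piChar_inner_self {α : ∀ i, H i → ℂ} (hα : ∀ i, α i ∈ Irr (H i)) :
    ∑ x : (∀ i, H i), piChar α x * piChar α x⁻¹ = Fintype.card (∀ i, H i) := by
  rw [piChar_inner, Fintype.card_pi]
  push_cast
  apply Finset.prod_congr rfl
  intro i _
  rw [irr_orth_self (hα i)]

theorem piChar_inner_ne {α β : ∀ i, H i → ℂ} (hα : ∀ i, α i ∈ Irr (H i))
    (hβ : ∀ i, β i ∈ Irr (H i)) (hne : α ≠ β) :
    ∑ x : (∀ i, H i), piChar α x * piChar β x⁻¹ = 0 := by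
  rw [piChar_inner]
  obtain ⟨i, hi⟩ := Function.ne_iff.1 hne
  exact Finset.prod_eq_zero (Finset.mem_univ i) (irr_orth_ne (hα i) (hβ i) hi)

theorem piChar_mem {α : ∀ i, H i → ℂ} (hα : ∀ i, α i ∈ Irr (H i)) :
    piChar α ∈ Irr (∀ i, H i) := by
  have h := fun i => irr_matrix (hα i)
  choose n R hR using h
  let S : (∀ i, H i) →* Matrix (∀ i, Fin (n i)) (∀ i, Fin (n i)) ℂ :=
    { toFun := fun x => Matrix.of fun A B => ∏ i, R i (x i) (A i) (B i)
      map_one' := by
        ext A B
        simp only [Matrix.of_apply, Pi.one_apply, map_one]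
        by_cases h : A = B
        · subst h
          simp
        · rw [Matrix.one_apply_ne h]
          obtain ⟨i, hi⟩ := Function.ne_iff.1 h
          exact Finset.prod_eq_zero (Finset.mem_univ i) (Matrix.one_apply_ne hi)
      map_mul' := by
        intro x y
        ext A B
        simp only [Matrix.of_apply, Pi.mul_apply, map_mul, Matrix.mul_apply]
        rw [Finset.prod_univ_sum, Fintype.piFinset_univ]
        apply Finset.sum_congr rfl
        intro C _
        rw [Finset.prod_mul_distrib] }
  have hS : ∀ x, (S x).trace = piChar α x := by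
    intro x
    have h1 : (S x).trace = ∏ i, ∑ a, R i (x i) a a :=
      sum_pi_prod (fun i a => R i (x i) a a)
    rw [h1]
    apply Finset.prod_congr rfl
    intro i _
    rw [← hR i (x i)]
    rfl
  have := mem_Irr_of_matrix S (by
    simp only [hS]
    exact piChar_inner_self hα)
  simp only [hS] at this
  exact this

theorem exists_piChar {θ : (∀ i, H i) → ℂ} (hθ : θ ∈ Irr (∀ i, H i)) :
    ∃ α : ∀ i, H i → ℂ, (∀ i, α i ∈ Irr (H i)) ∧ θ = piChar α := by
  classical
  have : ∀ i, Fintype (Irr (H i)) := fun i => Fintype.ofFinite _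
  by_contra hcon
  push Not at hcon
  have h0 : ∀ α : (∀ i, Irr (H i)), ∑ x, θ x * piChar (fun i => (α i : H i → ℂ)) x⁻¹ = 0 := by
    intro α
    exact irr_orth_ne hθ (piChar_mem fun i => (α i).2) (hcon _ fun i => (α i).2)
  have h1 : ∑ α : (∀ i, Irr (H i)), piChar (fun i => (α i : H i → ℂ)) 1 *
      ∑ x, θ x * piChar (fun i => (α i : H i → ℂ)) x⁻¹ = 0 := by
    apply Finset.sum_eq_zero
    intro α _
    rw [h0, mul_zero]
  have h2 : ∑ α : (∀ i, Irr (H i)), piChar (fun i => (α i : H i → ℂ)) 1 *
      ∑ x, θ x * piChar (fun i => (α i : H i → ℂ)) x⁻¹ = θ 1 * ∏ i, (Fintype.card (H i) : ℂ) := by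
    calc _ = ∑ x, θ x * ∑ α : (∀ i, Irr (H i)), ∏ i, ((α i : H i → ℂ) 1 * (α i : H i → ℂ) (x⁻¹ i)) := by
          simp_rw [Finset.mul_sum]
          rw [Finset.sum_comm]
          apply Finset.sum_congr rfl
          intro x _
          apply Finset.sum_congr rfl
          intro α _
          unfold piChar
          rw [Finset.prod_mul_distrib]
          simp only [Pi.one_apply]
          ring
      _ = ∑ x, θ x * ∏ i, ∑ χ : Irr (H i), ((χ : H i → ℂ) 1 * (χ : H i → ℂ) (x⁻¹ i)) := by
          apply Finset.sum_congr rfl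
          intro x _
          rw [Finset.prod_univ_sum, Fintype.piFinset_univ]
      _ = ∑ x, θ x * ∏ i, (if x⁻¹ i = 1 then (Fintype.card (H i) : ℂ) else 0) := by
          apply Finset.sum_congr rfl
          intro x _
          congr 1
          apply Finset.prod_congr rfl
          intro i _
          rw [sum_one_mul]
      _ = _ := by
          rw [Finset.sum_eq_single_of_mem 1 (Finset.mem_univ _)]
          · simp
          · intro x _ hx
            obtain ⟨i, hi⟩ := Function.ne_iff.1 hx
            rw [Finset.prod_eq_zero (Finset.mem_univ i), mul_zero]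
            rw [if_neg]
            intro h
            apply hi
            have : (x i)⁻¹ = 1 := h
            simpa using this
  rw [h1] at h2
  apply irr_one_ne hθ
  rcases mul_eq_zero.1 h2.symm with h | h
  · exact h
  · exfalso
    rw [Finset.prod_eq_zero_iff] at h
    obtain ⟨i, _, hi⟩ := h
    have : (Fintype.card (H i) : ℂ) ≠ 0 := by exact_mod_cast Fintype.card_ne_zero
    exact this hi

theorem piChar_inj {α β : ∀ i, H i → ℂ} (hα : ∀ i, α i ∈ Irr (H i))
    (hβ : ∀ i, β i ∈ Irr (H i)) (h : piChar α = piChar β) : α = β := by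
  by_contra hne
  have h1 := piChar_inner_ne hα hβ hne
  rw [h, piChar_inner_self hβ] at h1
  have : (Fintype.card (∀ i, H i) : ℂ) ≠ 0 := by exact_mod_cast Fintype.card_ne_zero
  exact this h1

end pi

end Pool.Agent.Helper51_AWC
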