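import Pool.Agent.Helper51_AWC.Integral

/-!
Congruences modulo a maximal ideal of the ring of algebraic integers.
-/

open scoped BigOperators

noncomputable section

namespace Pool.Agent.Helper51_AWC

variable {M : Ideal (integralClosure ℤ ℂ)}

theorem Cong.refl (a : ℂ) : Cong M a a := ⟨0, M.zero_mem, by simp⟩

theorem Cong.of_eq {a b : ℂ} (h : a = b) : Cong M a b := h ▸ Cong.refl a

theorem Cong.symm {a b : ℂ} (h : Cong M a b) : Cong M b a := by
  obtain ⟨m, hm, h⟩ := h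
  exact ⟨-m, M.neg_mem hm, by push_cast; rw [h]; ring⟩

theorem Cong.trans {a b c : ℂ} (h : Cong M a b) (h' : Cong M b c) : Cong M a c := by
  obtain ⟨m, hm, h⟩ := h
  obtain ⟨m', hm', h'⟩ := h'
  exact ⟨m + m', M.add_mem hm hm', by push_cast; rw [h, h']; ring⟩

theorem Cong.add {a b c d : ℂ} (h : Cong M a b) (h' : Cong M c d) : Cong M (a + c) (b + d) := by
  obtain ⟨m, hm, h⟩ := h
  obtain ⟨m', hm', h'⟩ := h'
  exact ⟨m + m', M.add_mem hm hm', by push_cast; rw [h, h']; ring⟩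

theorem Cong.neg {a b : ℂ} (h : Cong M a b) : Cong M (-a) (-b) := by
  obtain ⟨m, hm, h⟩ := h
  exact ⟨-m, M.neg_mem hm, by push_cast; rw [h]; ring⟩

theorem Cong.sub {a b c d : ℂ} (h : Cong M a b) (h' : Cong M c d) : Cong M (a - c) (b - d) := by
  rw [sub_eq_add_neg, sub_eq_add_neg]; exact h.add h'.neg

theorem Cong.mul_right {a b : ℂ} (h : Cong M a b) {c : ℂ} (hc : AI c) :
    Cong M (a * c) (b * c) := by
  obtain ⟨m, hm, h⟩ := h
  exact ⟨m * ⟨c, hc⟩, M.mul_mem_right _ hm, by push_cast; rw [h]; ring⟩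

theorem Cong.mul_left {a b : ℂ} (h : Cong M a b) {c : ℂ} (hc : AI c) :
    Cong M (c * a) (c * b) := by
  rw [mul_comm c a, mul_comm c b]; exact h.mul_right hc

theorem Cong.mul {a b c d : ℂ} (h : Cong M a b) (h' : Cong M c d) (hb : AI b) (hc : AI c) :
    Cong M (a * c) (b * d) := (h.mul_right hc).trans (h'.mul_left hb)

theorem Cong.sum {ι : Type*} (s : Finset ι) (f g : ι → ℂ) (h : ∀ i ∈ s, Cong M (f i) (g i)) :
    Cong M (∑ i ∈ s, f i) (∑ i ∈ s, g i) := by
  classical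
  induction s using Finset.induction_on with
  | empty => simpa using Cong.refl _
  | insert a s ha ih =>
    rw [Finset.sum_insert ha, Finset.sum_insert ha]
    exact (h a (Finset.mem_insert_self _ _)).add
      (ih fun i hi => h i (Finset.mem_insert_of_mem hi))

theorem cong_zero_iff {a : ℂ} : Cong M a 0 ↔ ∃ m ∈ M, (m : ℂ) = a := by
  simp [Cong]

theorem cong_iff_sub {a b : ℂ} : Cong M a b ↔ Cong M (a - b) 0 := by
  simp [Cong]

theorem Cong.mul_zero_left {a : ℂ} (h : Cong M a 0) {c : ℂ} (hc : AI c) : Cong M (c * a) 0 := by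
  simpa using h.mul_left hc

theorem Cong.mul_zero_right {a : ℂ} (h : Cong M a 0) {c : ℂ} (hc : AI c) : Cong M (a * c) 0 := by
  simpa using h.mul_right hc

theorem Cong.ai {a b : ℂ} (h : Cong M a b) (hb : AI b) : AI a := by
  obtain ⟨m, _, h⟩ := h
  have : a = m + b := by rw [h]; ring
  rw [this]
  exact m.2.add hb

section prime

variable [hM : M.IsPrime]

theorem cong_mul_zero {a b : ℂ} (ha : AI a) (hb : AI b) (h : Cong M (a * b) 0) :
    Cong M a 0 ∨ Cong M b 0 := by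
  rw [cong_zero_iff] at h
  obtain ⟨m, hm, h⟩ := h
  have : (⟨a, ha⟩ : integralClosure ℤ ℂ) * ⟨b, hb⟩ ∈ M := by
    have e : (⟨a, ha⟩ : integralClosure ℤ ℂ) * ⟨b, hb⟩ = m := by
      apply Subtype.ext; exact h.symm
    rw [e]; exact hm
  rcases hM.mem_or_mem this with h1 | h1
  · left; exact cong_zero_iff.2 ⟨_, h1, rfl⟩
  · right; exact cong_zero_iff.2 ⟨_, h1, rfl⟩

theorem cong_sq_zero {a : ℂ} (ha : AI a) (h : Cong M (a ^ 2) 0) : Cong M a 0 := by
  rw [sq] at h
  rcases cong_mul_zero ha ha h with h | h <;> exact h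

omit hM in
/-- a natural number divisible by `ℓ` is congruent to zero -/
theorem cong_nat_of_dvd {ℓ : ℕ} (hℓ : (ℓ : integralClosure ℤ ℂ) ∈ M) {n : ℕ} (h : ℓ ∣ n) :
    Cong M (n : ℂ) 0 := by
  obtain ⟨k, rfl⟩ := h
  rw [cong_zero_iff]
  exact ⟨ℓ * k, M.mul_mem_right _ hℓ, by push_cast; rfl⟩

theorem one_not_cong : ¬ Cong M 1 0 := by
  rw [cong_zero_iff]
  rintro ⟨m, hm, h⟩
  apply hM.ne_top
  rw [Ideal.eq_top_iff_one]
  have : m = 1 := Subtype.ext h
  rwa [← this]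

theorem dvd_of_cong_nat {ℓ : ℕ} (hp : ℓ.Prime) (hℓ : (ℓ : integralClosure ℤ ℂ) ∈ M) {n : ℕ}
    (h : Cong M (n : ℂ) 0) : ℓ ∣ n := by
  by_contra hcon
  have hcop : IsCoprime (ℓ : ℤ) (n : ℤ) :=
    Int.isCoprime_iff_gcd_eq_one.2 ((Nat.Prime.coprime_iff_not_dvd hp).2 hcon)
  obtain ⟨a, b, hab⟩ := hcop
  apply one_not_cong (M := M)
  have h1 : Cong M ((a : ℂ) * ℓ) 0 :=
    (cong_nat_of_dvd hℓ (dvd_refl ℓ)).mul_zero_left (by
      have := isIntegral_algebraMap (R := ℤ) (A := ℂ) (x := a); simpa using this)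
  have h2 : Cong M ((b : ℂ) * n) 0 :=
    h.mul_zero_left (by
      have := isIntegral_algebraMap (R := ℤ) (A := ℂ) (x := b); simpa using this)
  have h3 := h1.add h2
  have h4 : (a : ℂ) * ℓ + b * n = 1 := by exact_mod_cast hab
  rw [h4, add_zero] at h3
  exact h3

end prime

end Pool.Agent.Helper51_AWC
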