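import Pool.Agent.Helper51_AWC.Irr

/-!
Irreducible characters of direct products, transport along isomorphisms.
-/

open scoped BigOperators
open Module

noncomputable section

namespace Pool.Agent.Helper51_AWC

variable {G H : Type} [Group G] [Group H]

theorem irr_comp_equiv (e : G ≃* H) {χ : H → ℂ} (hχ : χ ∈ Irr H) : (fun g => χ (e g)) ∈ Irr G := by
  obtain ⟨n, ρ, hρ, rfl⟩ := hχ
  refine ⟨n, ρ.comp e.toMonoidHom, ?_, rfl⟩
  have f : Subrepresentation ρ ≃o Subrepresentation (ρ.comp e.toMonoidHom) :=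
    { toFun := fun S => ⟨S.toSubmodule, fun g v hv => S.apply_mem_toSubmodule (e g) hv⟩
      invFun := fun S => ⟨S.toSubmodule, fun h v hv => by
        have := S.apply_mem_toSubmodule (e.symm h) hv
        simpa using this⟩
      left_inv := fun S => rfl
      right_inv := fun S => rfl
      map_rel_iff' := Iff.rfl }
  exact (OrderIso.isSimpleOrder_iff f).1 hρ

theorem irr_comp_equiv_iff (e : G ≃* H) {χ : H → ℂ} :
    (fun g => χ (e g)) ∈ Irr G ↔ χ ∈ Irr H := by
  constructor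
  · intro h
    have := irr_comp_equiv e.symm h
    simpa using this
  · exact irr_comp_equiv e

/-- product of two class functions -/
def prodChar (χ : G → ℂ) (ψ : H → ℂ) : G × H → ℂ := fun x => χ x.1 * ψ x.2

variable [Fintype G] [Fintype H]

theorem prodChar_mem {χ : G → ℂ} {ψ : H → ℂ} (hχ : χ ∈ Irr G) (hψ : ψ ∈ Irr H) :
    prodChar χ ψ ∈ Irr (G × H) := by
  have h1 := irr_orth_self hχ
  have h2 := irr_orth_self hψ
  obtain ⟨n, ρ, hρ, rfl⟩ := hχ
  obtain ⟨m, σ, hσ, rfl⟩ := hψ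
  set τ := Representation.tprod (ρ.comp (MonoidHom.fst G H)) (σ.comp (MonoidHom.snd G H)) with hτ
  have hc : τ.character = prodChar ρ.character σ.character := by
    rw [hτ, Representation.char_tensor]; rfl
  rw [← hc]
  apply mem_Irr_of_norm
  rw [hc, Fintype.sum_prod_type, Fintype.card_prod, Nat.cast_mul, ← h1, ← h2, Finset.sum_mul]
  apply Finset.sum_congr rfl
  intro g _
  rw [Finset.mul_sum]
  apply Finset.sum_congr rfl
  intro h _
  simp only [prodChar, Prod.fst_inv, Prod.snd_inv]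
  ring

theorem exists_prodChar {θ : G × H → ℂ} (hθ : θ ∈ Irr (G × H)) :
    ∃ χ ∈ Irr G, ∃ ψ ∈ Irr H, θ = prodChar χ ψ := by
  classical
  by_contra hcon
  push Not at hcon
  have h1 : ∀ χ ∈ Irr G, ∀ ψ ∈ Irr H, ∑ h : H, (∑ g : G, θ (g, h) * χ g⁻¹) * ψ h⁻¹ = 0 := by
    intro χ hχ ψ hψ
    rw [← irr_orth_ne hθ (prodChar_mem hχ hψ) (hcon χ hχ ψ hψ), Fintype.sum_prod_type,
      Finset.sum_comm]
    apply Finset.sum_congr rfl
    intro h _
    rw [Finset.sum_mul]
    apply Finset.sum_congr rfl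
    intro g _
    simp only [prodChar, Prod.fst_inv, Prod.snd_inv]
    ring
  have h2 : ∀ χ ∈ Irr G, (fun h : H => ∑ g : G, θ (g, h) * χ g⁻¹) = 0 := by
    intro χ hχ
    apply irr_complete'
    · intro h k
      apply Finset.sum_congr rfl
      intro g _
      have := irr_conj hθ (g, h) (1, k)
      simp only [Prod.mk_mul_mk, one_mul, Prod.inv_mk, inv_one, mul_one] at this
      rw [this]
    · exact h1 χ hχ
  have h3 : ∀ h : H, (fun g : G => θ (g, h)) = 0 := by
    intro h
    apply irr_complete'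
    · intro g k
      have := irr_conj hθ (g, h) (k, 1)
      simp only [Prod.mk_mul_mk, one_mul, Prod.inv_mk, inv_one, mul_one] at this
      exact this
    · intro χ hχ
      exact congrFun (h2 χ hχ) h
  have h4 := congrFun (h3 1) 1
  exact irr_one_ne hθ h4

theorem prodChar_inj {χ χ' : G → ℂ} {ψ ψ' : H → ℂ} (hχ : χ ∈ Irr G) (hψ : ψ ∈ Irr H)
    (hχ' : χ' ∈ Irr G) (hψ' : ψ' ∈ Irr H) (h : prodChar χ ψ = prodChar χ' ψ') :
    χ = χ' ∧ ψ = ψ' := by
  have h1 : ∀ g, χ g * ψ 1 = χ' g * ψ' 1 := fun g => congrFun h (g, 1)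
  have h2 : ∀ k, χ 1 * ψ k = χ' 1 * ψ' k := fun k => congrFun h (1, k)
  have hG : (Fintype.card G : ℂ) ≠ 0 := by exact_mod_cast Fintype.card_ne_zero
  have e1 : χ = χ' := by
    by_contra hne
    have h3 := irr_orth_ne hχ hχ' hne
    have h4 : (∑ g : G, χ g * χ' g⁻¹) * ψ 1 = (Fintype.card G : ℂ) * ψ' 1 := by
      rw [← irr_orth_self hχ', Finset.sum_mul, Finset.sum_mul]
      apply Finset.sum_congr rfl
      intro g _
      calc χ g * χ' g⁻¹ * ψ 1 = (χ g * ψ 1) * χ' g⁻¹ := by ring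
        _ = _ := by rw [h1]; ring
    rw [h3, zero_mul] at h4
    exact mul_ne_zero hG (irr_one_ne hψ') h4.symm
  refine ⟨e1, ?_⟩
  ext k
  have := h2 k
  rw [e1] at this
  exact mul_left_cancel₀ (irr_one_ne hχ') this

end Pool.Agent.Helper51_AWC
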