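import Pool.Agent.Helper51_AWC.Cong

/-!
Blocks of direct products.
-/

open scoped BigOperators

noncomputable section

namespace Pool.Agent.Helper51_AWC

variable {G₁ G₂ H₁ H₂ : Type} [Group G₁] [Group G₂] [Group H₁] [Group H₂]

theorem isConj_prod_iff {a b : G₁ × G₂} : IsConj a b ↔ IsConj a.1 b.1 ∧ IsConj a.2 b.2 := by
  simp only [isConj_iff]
  constructor
  · rintro ⟨c, hc⟩
    exact ⟨⟨c.1, by rw [← hc]; rfl⟩, ⟨c.2, by rw [← hc]; rfl⟩⟩
  · rintro ⟨⟨c, hc⟩, ⟨d, hd⟩⟩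
    exact ⟨(c, d), Prod.ext hc hd⟩

theorem omega_prod [Finite H₁] [Finite H₂] (i₁ : H₁ →* G₁) (i₂ : H₂ →* G₂) (α : H₁ → ℂ)
    (β : H₂ → ℂ) (g : G₁ × G₂) :
    omega (i₁.prodMap i₂) (prodChar α β) g = omega i₁ α g.1 * omega i₂ β g.2 := by
  classical
  have := Fintype.ofFinite H₁
  have := Fintype.ofFinite H₂
  rw [omega_eq, omega_eq, omega_eq, div_mul_div_comm, Finset.sum_mul_sum, Fintype.sum_prod_type]
  congr 1
  apply Finset.sum_congr rfl
  intro x _
  apply Finset.sum_congr rfl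
  intro y _
  have : IsConj g ((i₁.prodMap i₂) (x, y)) ↔ IsConj g.1 (i₁ x) ∧ IsConj g.2 (i₂ y) :=
    isConj_prod_iff
  by_cases h1 : IsConj g.1 (i₁ x)
  · by_cases h2 : IsConj g.2 (i₂ y)
    · rw [if_pos (this.2 ⟨h1, h2⟩), if_pos h1, if_pos h2]; rfl
    · rw [if_neg (fun h => h2 (this.1 h).2), if_neg h2, mul_zero]
  · rw [if_neg (fun h => h1 (this.1 h).1), if_neg h1, zero_mul]

theorem omega_id_prod [Finite G₁] [Finite G₂] (χ : G₁ → ℂ) (ψ : G₂ → ℂ) (g : G₁ × G₂) :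
    omega (MonoidHom.id (G₁ × G₂)) (prodChar χ ψ) g =
      omega (MonoidHom.id G₁) χ g.1 * omega (MonoidHom.id G₂) ψ g.2 := by
  rw [← omega_prod]
  rfl

theorem ncard_IrrBlock_prod [Finite G₁] [Finite G₂] [Finite H₁] [Finite H₂]
    (M : Ideal (integralClosure ℤ ℂ))
    {i₁ : H₁ →* G₁} {i₂ : H₂ →* G₂} (hi₁ : Function.Injective i₁) (hi₂ : Function.Injective i₂)
    {χ : G₁ → ℂ} {ψ : G₂ → ℂ} (hχ : χ ∈ Irr G₁) (hψ : ψ ∈ Irr G₂) :
    (IrrBlock M (i₁.prodMap i₂) (prodChar χ ψ)).ncard =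
      (IrrBlock M i₁ χ).ncard * (IrrBlock M i₂ ψ).ncard := by
  have := Fintype.ofFinite H₁
  have := Fintype.ofFinite H₂
  rw [← Set.ncard_prod]
  symm
  apply Set.ncard_congr (fun p _ => prodChar p.1 p.2)
  · rintro ⟨α, β⟩ ⟨⟨hα, hα'⟩, ⟨hβ, hβ'⟩⟩
    refine ⟨prodChar_mem hα hβ, fun g => ?_⟩
    rw [omega_prod, omega_id_prod]
    exact (hα' g.1).mul (hβ' g.2) (omega_integral _ hχ _) (omega_integral _ hβ _)
  · rintro ⟨α, β⟩ ⟨α', β'⟩ ⟨⟨hα, _⟩, ⟨hβ, _⟩⟩ ⟨⟨hα', _⟩, ⟨hβ', _⟩⟩ h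
    obtain ⟨h1, h2⟩ := prodChar_inj hα hβ hα' hβ' h
    exact Prod.ext h1 h2
  · rintro θ ⟨hθ, hθ'⟩
    obtain ⟨α, hα, β, hβ, rfl⟩ := exists_prodChar hθ
    have o1 := omega_one (i := MonoidHom.id G₁) Function.injective_id (irr_one_ne hχ)
    have o2 := omega_one (i := MonoidHom.id G₂) Function.injective_id (irr_one_ne hψ)
    have o3 := omega_one hi₁ (irr_one_ne hα)
    have o4 := omega_one hi₂ (irr_one_ne hβ)
    refine ⟨(α, β), ⟨⟨hα, fun g => ?_⟩, ⟨hβ, fun g => ?_⟩⟩, rfl⟩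
    · have := hθ' (g, 1)
      rw [omega_prod, omega_id_prod] at this
      simp only [o2, o4, mul_one] at this
      exact this
    · have := hθ' (1, g)
      rw [omega_prod, omega_id_prod] at this
      simp only [o1, o3, one_mul] at this
      exact this

/-! ### stabilisers of product chains -/

theorem conjS_prod (g : G₁ × G₂) (P : Subgroup G₁) (Q : Subgroup G₂) :
    conjS g (P.prod Q) = (conjS g.1 P).prod (conjS g.2 Q) := by
  ext x
  simp only [mem_conjS, Subgroup.mem_prod]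
  rfl

theorem prod_inj {P P' : Subgroup G₁} {Q Q' : Subgroup G₂} :
    P.prod Q = P'.prod Q' ↔ P = P' ∧ Q = Q' := by
  constructor
  · intro h
    constructor
    · ext x
      have := SetLike.ext_iff.1 h (x, 1)
      simpa [Subgroup.mem_prod, Q.one_mem, Q'.one_mem] using this
    · ext x
      have := SetLike.ext_iff.1 h (1, x)
      simpa [Subgroup.mem_prod, P.one_mem, P'.one_mem] using this
  · rintro ⟨rfl, rfl⟩; rfl

/-- `(P, Q) ↦ P × Q` -/
def prodEmb (G₁ G₂ : Type) [Group G₁] [Group G₂] :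
    (Subgroup G₁ × Subgroup G₂) ↪ Subgroup (G₁ × G₂) where
  toFun p := p.1.prod p.2
  inj' := by
    intro p q h
    exact Prod.ext (prod_inj.1 h).1 (prod_inj.1 h).2

open Classical in
theorem stab_prod (d : Finset (Subgroup G₁ × Subgroup G₂)) :
    stab (d.map (prodEmb G₁ G₂)) =
      (stab (d.image Prod.fst)).prod (stab (d.image Prod.snd)) := by
  ext g
  rw [Subgroup.mem_prod, mem_stab, mem_stab, mem_stab]
  constructor
  · intro h
    constructor
    · intro P hP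
      obtain ⟨p, hp, rfl⟩ := Finset.mem_image.1 hP
      have : conjS g (p.1.prod p.2) = p.1.prod p.2 :=
        h (prodEmb G₁ G₂ p) (Finset.mem_map_of_mem _ hp)
      rw [conjS_prod, prod_inj] at this
      exact this.1
    · intro P hP
      obtain ⟨p, hp, rfl⟩ := Finset.mem_image.1 hP
      have : conjS g (p.1.prod p.2) = p.1.prod p.2 :=
        h (prodEmb G₁ G₂ p) (Finset.mem_map_of_mem _ hp)
      rw [conjS_prod, prod_inj] at this
      exact this.2
  · rintro ⟨h1, h2⟩ D hD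
    obtain ⟨p, hp, rfl⟩ := Finset.mem_map.1 hD
    show conjS g (p.1.prod p.2) = p.1.prod p.2
    rw [conjS_prod, prod_inj]
    exact ⟨h1 _ (Finset.mem_image_of_mem _ hp), h2 _ (Finset.mem_image_of_mem _ hp)⟩

theorem weight_of_prod [Finite G₁] [Finite G₂] (M : Ideal (integralClosure ℤ ℂ))
    {χ : G₁ → ℂ} {ψ : G₂ → ℂ} (hχ : χ ∈ Irr G₁) (hψ : ψ ∈ Irr G₂)
    (S : Subgroup G₁) (T : Subgroup G₂) :
    Nat.card (S.prod T) * (IrrBlock M (S.prod T).subtype (prodChar χ ψ)).ncard =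
      (Nat.card S * (IrrBlock M S.subtype χ).ncard) *
        (Nat.card T * (IrrBlock M T.subtype ψ).ncard) := by
  have h1 : (IrrBlock M (S.prod T).subtype (prodChar χ ψ)).ncard =
      (IrrBlock M (S.subtype.prodMap T.subtype) (prodChar χ ψ)).ncard := by
    apply ncard_IrrBlock_equiv M (prodChar χ ψ) _ _ (S.prodEquiv T)
    intro h
    exact IsConj.refl _
  rw [h1, ncard_IrrBlock_prod M S.subtype_injective T.subtype_injective hχ hψ,
    Nat.card_congr (S.prodEquiv T).toEquiv, Nat.card_prod]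
  ring

open Classical in
theorem weight_prod [Finite G₁] [Finite G₂] (M : Ideal (integralClosure ℤ ℂ))
    {χ : G₁ → ℂ} {ψ : G₂ → ℂ} (hχ : χ ∈ Irr G₁) (hψ : ψ ∈ Irr G₂)
    (d : Finset (Subgroup G₁ × Subgroup G₂)) :
    weight M (prodChar χ ψ) (d.map (prodEmb G₁ G₂)) =
      weight M χ (d.image Prod.fst) * weight M ψ (d.image Prod.snd) := by
  unfold weight
  rw [stab_prod]
  exact weight_of_prod M hχ hψ _ _

end Pool.Agent.Helper51_AWC
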