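import Pool.Agent.Helper51_AWC.Prod

/-!
Blocks through central characters, chains of `ℓ`-subgroups, the alternating sum of
Knörr and Robinson.
-/

open scoped BigOperators

noncomputable section

namespace Pool.Agent.Helper51_AWC

/-- congruence modulo an ideal `M` of the ring of algebraic integers -/
def Cong (M : Ideal (integralClosure ℤ ℂ)) (a b : ℂ) : Prop :=
  ∃ m ∈ M, (m : ℂ) = a - b

/-- For an injective homomorphism `i : H → G` (an inclusion of a subgroup) and a character `ϑ` of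
`H`, this is the value `ω_ϑ((Cl_G(g) ∩ H)⁺) = (1/ϑ(1)) ∑_{h ∈ Cl_G(g) ∩ H} ϑ(h)` of the
central character of `ϑ` at the sum of the elements of `H` that are `G`-conjugate to `g`. -/
def omega {H G : Type} [Group H] [Group G] (i : H →* G) (ϑ : H → ℂ) (g : G) : ℂ :=
  (∑ᶠ (h : H) (_ : IsConj g (i h)), ϑ h) / ϑ 1

/-- The irreducible characters `ϑ` of `H` whose block induces to the block of `G` that contains
`χ` : the central characters of `ϑ` and `χ` satisfy
`ω_ϑ((Cl_G(g) ∩ H)⁺) ≡ ω_χ(Cl_G(g)⁺) mod M` for all `g`. -/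
def IrrBlock (M : Ideal (integralClosure ℤ ℂ)) {H G : Type} [Group H] [Group G] (i : H →* G)
    (χ : G → ℂ) : Set (H → ℂ) :=
  {ϑ | ϑ ∈ Irr H ∧ ∀ g : G, Cong M (omega i ϑ g) (omega (MonoidHom.id G) χ g)}

/-- `O_ℓ(G)`, the largest normal `ℓ`-subgroup -/
def opCore (ℓ : ℕ) (G : Type) [Group G] : Subgroup G :=
  sSup {N : Subgroup G | N.Normal ∧ IsPGroup ℓ N}

/-- `g D g⁻¹` -/
def conjS {G : Type} [Group G] (g : G) (D : Subgroup G) : Subgroup G :=
  D.map (MulAut.conj g).toMonoidHom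

/-- The chains `O_ℓ(G) = D_0 < D_1 < ... < D_n` of `ℓ`-subgroups of `G`, each given by the finite
set `{D_0, ..., D_n}`; the length `n` is the number of members minus one. -/
structure PChain (ℓ : ℕ) (G : Type) [Group G] where
  /-- the members of the chain -/
  mem : Finset (Subgroup G)
  core_mem : opCore ℓ G ∈ mem
  core_le : ∀ D ∈ mem, opCore ℓ G ≤ D
  pgroup : ∀ D ∈ mem, IsPGroup ℓ D
  chain : IsChain (· ≤ ·) (mem : Set (Subgroup G))

/-- the length `n` of the chain `D_0 < ... < D_n` -/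
def PChain.length {ℓ : ℕ} {G : Type} [Group G] (d : PChain ℓ G) : ℕ := d.mem.card - 1

/-- the stabiliser `⋂ N_G(D_i)` of a chain -/
def stab {G : Type} [Group G] (d : Finset (Subgroup G)) : Subgroup G :=
  ⨅ D ∈ d, Subgroup.normalizer (D : Set G)

theorem conjS_one {G : Type} [Group G] (D : Subgroup G) : conjS 1 D = D := by
  ext x; simp [conjS]

theorem conjS_conjS {G : Type} [Group G] (g h : G) (D : Subgroup G) :
    conjS h (conjS g D) = conjS (h * g) D := by
  rw [conjS, conjS, conjS, Subgroup.map_map]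
  congr 1
  ext x
  simp [mul_assoc]

/-- conjugacy of chains under `G` : some `g` carries the members of `d` to those of `e` -/
def chainSetoid (ℓ : ℕ) (G : Type) [Group G] : Setoid (PChain ℓ G) where
  r d e := ∃ g : G, ∀ D : Subgroup G, D ∈ d.mem ↔ conjS g D ∈ e.mem
  iseqv := by
    refine ⟨fun d => ⟨1, fun D => by rw [conjS_one]⟩, ?_, ?_⟩
    · rintro d e ⟨g, hg⟩
      exact ⟨g⁻¹, fun D => by rw [hg, conjS_conjS, mul_inv_cancel, conjS_one]⟩
    · rintro d e f ⟨g, hg⟩ ⟨h, hh⟩
      exact ⟨h * g, fun D => by rw [hg, hh, conjS_conjS]⟩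

/-- The alternating sum `∑_{d ∈ 𝔓(G)/G} (-1)^{|d|} k(B_d)`, where `B` is the block of `χ` and the
sum runs over representatives of the `G`-classes of chains of `ℓ`-subgroups starting with
`O_ℓ(G)`. -/
def altSum (ℓ : ℕ) (M : Ideal (integralClosure ℤ ℂ)) {G : Type} [Group G] (χ : G → ℂ) : ℤ :=
  ∑ᶠ q : Quotient (chainSetoid ℓ G), (-1) ^ q.out.length *
    ((IrrBlock M (stab q.out.mem).subtype χ).ncard : ℤ)

/-- For `χ ∈ Irr(G)` with block `B`: the defect groups of `B` strictly contain `O_ℓ(G)`.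
The defect groups of `B` contain `O_ℓ(G)`, and their order is the largest value of the `ℓ`-part of
`|G|/ψ(1)` for `ψ ∈ Irr(B)`; so the condition says that for some `ψ ∈ Irr(B)` (same central
character as `χ` modulo `M`) the number `|G|/ψ(1)` is divisible by `ℓ |O_ℓ(G)|`. -/
def LargeDefect (ℓ : ℕ) (M : Ideal (integralClosure ℤ ℂ)) {G : Type} [Group G] (χ : G → ℂ) :
    Prop :=
  ∃ ψ ∈ Irr G, (∀ g : G, Cong M (omega (MonoidHom.id G) ψ g) (omega (MonoidHom.id G) χ g)) ∧
    ∃ n : ℕ, ψ 1 = n ∧ ℓ * Nat.card (opCore ℓ G) * n ∣ Nat.card G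

end Pool.Agent.Helper51_AWC
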