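import Pool.Agent.Helper51_AWC.WrIrr

/-!
Blocks of wreath products `G wr C_m` and of their subgroups.
-/

open scoped BigOperators

noncomputable section

namespace Pool.Agent.Helper51_AWC

/-! ### a polynomial identity -/

theorem shift_poly {m : ℕ} [NeZero m] {Q : Type*} [CommRing Q] (a : ZMod m → Q) (c : Q)
    (h : ∀ A : Finset (ZMod m), ∑ t : ZMod m, ∏ j ∈ A, a (j + t) = m * c ^ A.card) (T : Q) :
    (m : Q) * ∏ j, (T - a j) = m * (T - c) ^ m := by
  classical
  have h1 : ∀ t : ZMod m, ∏ j, (T - a (j + t)) = ∏ j, (T - a j) := by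
    intro t
    exact Equiv.prod_comp (Equiv.addRight t) (fun j => T - a j)
  have h2 : (m : Q) * ∏ j, (T - a j) = ∑ t : ZMod m, ∏ j, (T - a (j + t)) := by
    simp_rw [h1]
    rw [Finset.sum_const, nsmul_eq_mul, Finset.card_univ, ZMod.card]
  have h3 : ∀ b : ZMod m → Q, ∏ j, (T - b j) =
      ∑ A ∈ (Finset.univ : Finset (ZMod m)).powerset,
        (-1) ^ A.card * (∏ j ∈ A, b j) * T ^ (Finset.univ \ A).card := by
    intro b
    have : ∀ j, T - b j = (-1 * b j) + T := fun j => by ring
    simp_rw [this]
    rw [Finset.prod_add]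
    apply Finset.sum_congr rfl
    intro A _
    rw [Finset.prod_mul_distrib, Finset.prod_const, Finset.prod_const]
  have h4 : (T - c) ^ m = ∏ _j : ZMod m, (T - c) := by
    rw [Finset.prod_const, Finset.card_univ, ZMod.card]
  rw [h2, h4, h3 (fun _ => c)]
  simp_rw [h3 (fun j => a (j + _))]
  rw [Finset.sum_comm, Finset.mul_sum]
  apply Finset.sum_congr rfl
  intro A _
  rw [← Finset.sum_mul, ← Finset.mul_sum, h A, Finset.prod_const]
  ring

/-! ### products -/

section pi

variable {ι : Type} [Fintype ι] [DecidableEq ι] {H K : ι → Type} [∀ i, Group (H i)]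
  [∀ i, Group (K i)]

omit [Fintype ι] [DecidableEq ι] in
/-- product of homomorphisms -/
def pimap (p : ∀ j, H j →* K j) : (∀ j, H j) →* (∀ j, K j) where
  toFun x j := p j (x j)
  map_one' := by funext j; simp
  map_mul' x y := by funext j; simp

omit [Fintype ι] [DecidableEq ι] in
theorem isConj_pi {x y : ∀ j, K j} : IsConj x y ↔ ∀ j, IsConj (x j) (y j) := by
  constructor
  · intro h j
    obtain ⟨c, hc⟩ := isConj_iff.1 h
    exact isConj_iff.2 ⟨c j, by rw [← hc]; rfl⟩
  · intro h
    have h1 := fun j => isConj_iff.1 (h j)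
    choose c hc using h1
    exact isConj_iff.2 ⟨c, funext hc⟩

theorem omega_pi [∀ i, Finite (H i)] (p : ∀ j, H j →* K j) (α : ∀ i, H i → ℂ) (g : ∀ j, K j) :
    omega (pimap p) (piChar α) g = ∏ j, omega (p j) (α j) (g j) := by
  classical
  have : ∀ i, Fintype (H i) := fun i => Fintype.ofFinite _
  rw [omega_eq]
  simp_rw [omega_eq]
  rw [Finset.prod_div_distrib]
  congr 1
  rw [← sum_pi_prod (fun j h => if IsConj (g j) (p j h) then α j h else 0)]
  apply Finset.sum_congr rfl
  intro x _
  by_cases h : IsConj g (pimap p x)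
  · rw [if_pos h]
    unfold piChar
    apply Finset.prod_congr rfl
    intro j _
    rw [if_pos (show IsConj (g j) (p j (x j)) from isConj_pi.1 h j)]
  · rw [if_neg h]
    have h1 : ¬ ∀ j, IsConj (g j) (p j (x j)) := fun h' => h (isConj_pi.2 h')
    push Not at h1
    obtain ⟨j, hj⟩ := h1
    symm
    apply Finset.prod_eq_zero (Finset.mem_univ j)
    rw [if_neg hj]

omit [Fintype ι] in
theorem Cong.prod {M : Ideal (integralClosure ℤ ℂ)} (s : Finset ι) (f g : ι → ℂ)
    (h : ∀ i ∈ s, Cong M (f i) (g i)) (hf : ∀ i ∈ s, AI (f i)) (hg : ∀ i ∈ s, AI (g i)) :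
    Cong M (∏ i ∈ s, f i) (∏ i ∈ s, g i) := by
  induction s using Finset.induction_on with
  | empty => simpa using Cong.refl _
  | insert a s ha ih =>
    rw [Finset.prod_insert ha, Finset.prod_insert ha]
    apply (h a (Finset.mem_insert_self _ _)).mul
      (ih (fun i hi => h i (Finset.mem_insert_of_mem hi))
        (fun i hi => hf i (Finset.mem_insert_of_mem hi))
        (fun i hi => hg i (Finset.mem_insert_of_mem hi)))
    · exact hg a (Finset.mem_insert_self _ _)
    · exact IsIntegral.prod _ fun i hi => hf i (Finset.mem_insert_of_mem hi)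

/-- the block condition for a direct product -/
theorem mem_IrrBlock_pi [∀ i, Finite (H i)] [∀ i, Finite (K i)]
    {M : Ideal (integralClosure ℤ ℂ)} {p : ∀ j, H j →* K j}
    (hp : ∀ j, Function.Injective (p j)) {α : ∀ i, H i → ℂ} (hα : ∀ i, α i ∈ Irr (H i))
    {χ : ∀ i, K i → ℂ} (hχ : ∀ i, χ i ∈ Irr (K i)) :
    piChar α ∈ IrrBlock M (pimap p) (piChar χ) ↔ ∀ j, α j ∈ IrrBlock M (p j) (χ j) := by
  have : ∀ i, Fintype (H i) := fun i => Fintype.ofFinite _
  have e0 : (MonoidHom.id (∀ j, K j)) = pimap (fun j => MonoidHom.id (K j)) := rfl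
  constructor
  · rintro ⟨_, h⟩ j
    refine ⟨hα j, fun y => ?_⟩
    have h1 := h (Pi.mulSingle j y)
    rw [e0, omega_pi, omega_pi, ← Finset.mul_prod_erase _ _ (Finset.mem_univ j),
      ← Finset.mul_prod_erase _ _ (Finset.mem_univ j), Finset.prod_eq_one, Finset.prod_eq_one,
      Pi.mulSingle_eq_same, mul_one, mul_one] at h1
    · exact h1
    · intro i hi
      rw [Pi.mulSingle_eq_of_ne (Finset.ne_of_mem_erase hi)]
      exact omega_one (i := MonoidHom.id (K i)) Function.injective_id (irr_one_ne (hχ i))
    · intro i hi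
      rw [Pi.mulSingle_eq_of_ne (Finset.ne_of_mem_erase hi)]
      exact omega_one (hp i) (irr_one_ne (hα i))
  · intro h
    refine ⟨piChar_mem hα, fun g => ?_⟩
    rw [e0, omega_pi, omega_pi]
    apply Cong.prod
    · intro j _; exact (h j).2 (g j)
    · intro j _; exact omega_integral _ (hα j) _
    · intro j _; exact omega_integral _ (hχ j) _

end pi

/-! ### the wreath product -/

section wr

variable {m : ℕ} [hm : Fact m.Prime] {G : Type} [Group G] [Finite G]

open Classical in
/-- number of translations carrying `g` to a conjugate of `y` -/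
def trCount (g y : ZMod m → G) : ℕ :=
  (Finset.univ.filter fun t : ZMod m => IsConj (tr t g) y).card

omit [Finite G] in
theorem isConj_tr {g y : ZMod m → G} (t : ZMod m) : IsConj (tr t g) (tr t y) ↔ IsConj g y := by
  rw [isConj_pi, isConj_pi]
  constructor
  · intro h i
    have := h (i + t)
    simpa [tr] using this
  · intro h i
    exact h (i - t)

omit [Finite G] in
theorem tr_tr {X : Type*} (t u : ZMod m) (g : ZMod m → X) : tr t (tr u g) = tr (u + t) g := by
  funext i
  simp only [tr]
  congr 1
  ring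

omit [Finite G] in
theorem isConj_base_tr {g y : ZMod m → G} :
    IsConj (Wr.base m G g) (Wr.base m G y) ↔ ∃ t, IsConj (tr t g) y := by
  rw [Wr.isConj_base]
  simp only [isConj_pi]
  rfl

omit [Finite G] in
theorem trCount_eq (g y : ZMod m → G) [Decidable (IsConj (Wr.base m G g) (Wr.base m G y))] :
    trCount g y = if IsConj (Wr.base m G g) (Wr.base m G y) then trCount g g else 0 := by
  classical
  split_ifs with h
  · obtain ⟨u, hu⟩ := isConj_base_tr.1 h
    unfold trCount
    symm
    apply Finset.card_bij (fun t _ => t + u)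
    · intro t ht
      rw [Finset.mem_filter] at ht ⊢
      refine ⟨Finset.mem_univ _, ?_⟩
      rw [← tr_tr]
      exact ((isConj_tr u).2 ht.2).trans hu
    · intro t _ t' _ h'
      exact add_right_cancel h'
    · intro t ht
      rw [Finset.mem_filter] at ht
      refine ⟨t - u, Finset.mem_filter.2 ⟨Finset.mem_univ _, ?_⟩, by ring⟩
      rw [← isConj_tr u, tr_tr, sub_add_cancel]
      exact ht.2.trans hu.symm
  · unfold trCount
    rw [Finset.card_eq_zero, Finset.filter_eq_empty_iff]
    intro t _ ht
    exact h (isConj_base_tr.2 ⟨t, ht⟩)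

omit [Finite G] in
theorem trCount_self (g : ZMod m → G) : trCount g g = 1 ∨ trCount g g = m := by
  classical
  by_cases h : ∃ t : ZMod m, t ≠ 0 ∧ IsConj (tr t g) g
  · right
    obtain ⟨t, ht, h1⟩ := h
    have h2 : ∀ i, IsConj (g i) (g 0) := by
      intro i
      have := const_of_step (w := fun i => ConjClasses.mk (g i)) ht (by
        intro i _
        exact (ConjClasses.mk_eq_mk_iff_isConj.2 (isConj_pi.1 h1 i)).symm) i
      exact ConjClasses.mk_eq_mk_iff_isConj.1 this
    unfold trCount
    rw [Finset.filter_true_of_mem, Finset.card_univ, ZMod.card]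
    intro u _
    rw [isConj_pi]
    intro i
    exact (h2 _).trans (h2 i).symm
  · left
    push Not at h
    unfold trCount
    rw [Finset.card_eq_one]
    refine ⟨0, ?_⟩
    ext t
    rw [Finset.mem_filter, Finset.mem_singleton]
    constructor
    · rintro ⟨_, ht⟩
      by_contra hne
      exact h t hne ht
    · rintro rfl
      refine ⟨Finset.mem_univ _, ?_⟩
      have : tr (0 : ZMod m) g = g := by funext i; simp [tr]
      rw [this]

variable {T : Type} [Group T] [Finite T]

omit [Finite G] in
/-- class sums of base elements -/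
theorem omega_base (p : T →* (ZMod m → G)) (ϑ : T → ℂ) (g : ZMod m → G) :
    (trCount g g : ℂ) * omega ((Wr.base m G).comp p) ϑ (Wr.base m G g) =
      ∑ t : ZMod m, omega p ϑ (tr t g) := by
  classical
  have := Fintype.ofFinite T
  simp_rw [omega_eq]
  rw [← Finset.sum_div, mul_div_assoc', Finset.mul_sum, Finset.sum_comm]
  congr 1
  apply Finset.sum_congr rfl
  intro h _
  have h1 := trCount_eq g (p h)
  have h2 : ∑ t : ZMod m, (if IsConj (tr t g) (p h) then ϑ h else 0) =
      (trCount g (p h) : ℂ) * ϑ h := by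
    rw [← Finset.sum_filter, Finset.sum_const, nsmul_eq_mul]
    unfold trCount
    congr 2
  rw [h2, h1]
  have e : ((Wr.base m G).comp p) h = Wr.base m G (p h) := rfl
  rw [e]
  split_ifs <;> simp

omit [Finite G] in
theorem omega_base_off (p : T →* (ZMod m → G)) (ϑ : T → ℂ) {x : Wr m G} (hx : x.s ≠ 0) :
    omega ((Wr.base m G).comp p) ϑ x = 0 := by
  classical
  have := Fintype.ofFinite T
  rw [omega_eq, Finset.sum_eq_zero, zero_div]
  intro h _
  rw [if_neg]
  intro hc
  exact hx (Wr.isConj_s hc)

omit [Finite G] [Finite T] in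
theorem omega_base_tr (p : T →* (ZMod m → G)) (ϑ : T → ℂ) (g : ZMod m → G) (t : ZMod m) :
    omega ((Wr.base m G).comp p) ϑ (Wr.base m G (tr t g)) =
      omega ((Wr.base m G).comp p) ϑ (Wr.base m G g) := by
  have h : IsConj (Wr.base m G g) (Wr.base m G (tr t g)) :=
    isConj_base_tr.2 ⟨t, IsConj.refl _⟩
  unfold omega
  congr 1
  apply finsum_congr
  intro x
  have : IsConj (Wr.base m G (tr t g)) (((Wr.base m G).comp p) x) ↔
      IsConj (Wr.base m G g) (((Wr.base m G).comp p) x) :=
    ⟨fun h' => h.trans h', fun h' => h.symm.trans h'⟩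
  rw [show (IsConj (Wr.base m G (tr t g)) (((Wr.base m G).comp p) x)) =
    IsConj (Wr.base m G g) (((Wr.base m G).comp p) x) from propext this]

variable {ℓ : ℕ} [hp : Fact ℓ.Prime] {M : Ideal (integralClosure ℤ ℂ)} [hM : M.IsPrime]

/-- `m` is invertible modulo `M` -/
theorem cong_of_mul (hℓ : (ℓ : integralClosure ℤ ℂ) ∈ M) {r : ℕ} (hr : ¬ ℓ ∣ r) {a b : ℂ}
    (ha : AI a) (hb : AI b) (h : Cong M (r * a) (r * b)) : Cong M a b := by
  rw [cong_iff_sub, ← mul_sub] at h
  rw [cong_iff_sub]
  rcases cong_mul_zero (AI.natCast r) (ha.sub hb) h with h1 | h1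
  · exact absurd (dvd_of_cong_nat hp.out hℓ h1) hr
  · exact h1

/-- the base part of the block condition -/
theorem block_base (hℓ : (ℓ : integralClosure ℤ ℂ) ∈ M) (hne : m ≠ ℓ)
    {H : ZMod m → Type} [∀ j, Group (H j)] [∀ j, Finite (H j)] (p : ∀ j, H j →* G)
    (hp' : ∀ j, Function.Injective (p j))
    {α : ∀ j, H j → ℂ} (hα : ∀ j, α j ∈ Irr (H j)) {χ : G → ℂ} (hχ : χ ∈ Irr G) :
    (∀ g : ZMod m → G, Cong M (omega ((Wr.base m G).comp (pimap p)) (piChar α) (Wr.base m G g))
      (omega ((Wr.base m G).comp (pimap fun _ => MonoidHom.id G)) (piChar fun _ => χ)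
        (Wr.base m G g))) ↔
      ∀ j, α j ∈ IrrBlock M (p j) χ := by
  classical
  have : ∀ j, Fintype (H j) := fun j => Fintype.ofFinite _
  have := Fintype.ofFinite G
  have hmℓ : ¬ ℓ ∣ m := fun h => hne ((Nat.prime_dvd_prime_iff_eq hp.out hm.out).1 h).symm
  have hr : ∀ g : ZMod m → G, ¬ ℓ ∣ trCount g g := by
    intro g h
    rcases trCount_self g with h1 | h1
    · rw [h1] at h
      exact hp.out.one_lt.ne' (Nat.dvd_one.1 h)
    · rw [h1] at h
      exact hmℓ h
  have ha : ∀ g, AI (omega ((Wr.base m G).comp (pimap p)) (piChar α) (Wr.base m G g)) :=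
    fun g => omega_integral _ (piChar_mem hα) _
  have hb : ∀ g, AI (omega ((Wr.base m G).comp (pimap fun _ => MonoidHom.id G))
      (piChar fun _ => χ) (Wr.base m G g)) :=
    fun g => omega_integral _ (piChar_mem fun _ => hχ) _
  have hsum : ∀ g : ZMod m → G,
      Cong M (omega ((Wr.base m G).comp (pimap p)) (piChar α) (Wr.base m G g))
      (omega ((Wr.base m G).comp (pimap fun _ => MonoidHom.id G)) (piChar fun _ => χ)
        (Wr.base m G g)) ↔
      Cong M (∑ t : ZMod m, ∏ j, omega (p j) (α j) (tr t g j))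
        (∑ t : ZMod m, ∏ j, omega (MonoidHom.id G) χ (tr t g j)) := by
    intro g
    have e1 := omega_base (pimap p) (piChar α) g
    have e2 := omega_base (m := m) (pimap fun _ => MonoidHom.id G) (piChar fun _ => χ) g
    simp only [omega_pi] at e1 e2
    rw [← e1, ← e2]
    constructor
    · intro h
      exact h.mul_left (AI.natCast _)
    · intro h
      exact cong_of_mul hℓ (hr g) (ha g) (hb g) h
  simp_rw [hsum]
  constructor
  · intro h j₀
    refine ⟨hα j₀, fun y => ?_⟩
    -- the quotient ring
    let q := Ideal.Quotient.mk M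
    let a : ZMod m → integralClosure ℤ ℂ := fun j => ⟨omega (p j) (α j) y,
      omega_integral _ (hα j) _⟩
    let c : integralClosure ℤ ℂ := ⟨omega (MonoidHom.id G) χ y, omega_integral _ hχ _⟩
    have hdom : IsDomain (integralClosure ℤ ℂ ⧸ M) := Ideal.Quotient.isDomain M
    have h1 : ∀ A : Finset (ZMod m), ∑ t : ZMod m, ∏ j ∈ A, q (a (j + t)) =
        (m : integralClosure ℤ ℂ ⧸ M) * q c ^ A.card := by
      intro A
      have h2 := h (fun i => if i ∈ A then y else 1)
      have h3 : ∀ t : ZMod m, ∏ j, omega (p j) (α j) (tr t (fun i => if i ∈ A then y else 1) j) =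
          ∏ j ∈ A, (a (j + t) : ℂ) := by
        intro t
        rw [← Equiv.prod_comp (Equiv.addRight t)
          (fun j => omega (p j) (α j) (tr t (fun i => if i ∈ A then y else 1) j))]
        rw [← Finset.prod_subset (Finset.subset_univ A)]
        · apply Finset.prod_congr rfl
          intro j hj
          simp only [Equiv.coe_addRight, tr, add_sub_cancel_right, if_pos hj]
          rfl
        · intro j _ hj
          simp only [Equiv.coe_addRight, tr, add_sub_cancel_right, if_neg hj]
          exact omega_one (hp' _) (irr_one_ne (hα _))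
      have h4 : ∀ t : ZMod m, ∏ j, omega (MonoidHom.id G) χ
          (tr t (fun i => if i ∈ A then y else 1) j) = (c : ℂ) ^ A.card := by
        intro t
        rw [← Equiv.prod_comp (Equiv.addRight t)
          (fun j => omega (MonoidHom.id G) χ (tr t (fun i => if i ∈ A then y else 1) j))]
        rw [← Finset.prod_subset (Finset.subset_univ A), ← Finset.prod_const]
        · apply Finset.prod_congr rfl
          intro j hj
          simp only [Equiv.coe_addRight, tr, add_sub_cancel_right, if_pos hj]
          rfl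
        · intro j _ hj
          simp only [Equiv.coe_addRight, tr, add_sub_cancel_right, if_neg hj]
          exact omega_one (i := MonoidHom.id G) Function.injective_id (irr_one_ne hχ)
      simp_rw [h3, h4] at h2
      rw [Finset.sum_const, nsmul_eq_mul, Finset.card_univ, ZMod.card] at h2
      obtain ⟨z, hz, hz'⟩ := h2
      have h5 : z = (∑ t : ZMod m, ∏ j ∈ A, a (j + t)) - m * c ^ A.card := by
        apply Subtype.ext
        rw [hz']
        push_cast
        rfl
      have h6 : q ((∑ t : ZMod m, ∏ j ∈ A, a (j + t)) - m * c ^ A.card) = 0 := by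
        rw [← h5]; exact Ideal.Quotient.eq_zero_iff_mem.2 hz
      rw [map_sub, sub_eq_zero, map_sum, map_mul, map_pow, map_natCast] at h6
      rw [← h6]
      apply Finset.sum_congr rfl
      intro t _
      rw [map_prod]
    have h7 := shift_poly (fun j => q (a j)) (q c) h1 (q (a j₀))
    have h7' : ∏ j, (q (a j₀) - q (a j)) = 0 :=
      Finset.prod_eq_zero (Finset.mem_univ j₀) (sub_self _)
    rw [h7', mul_zero] at h7
    have h8 : (m : integralClosure ℤ ℂ ⧸ M) ≠ 0 := by
      intro h9
      apply hmℓ
      apply dvd_of_cong_nat hp.out hℓ (M := M)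
      rw [cong_zero_iff]
      refine ⟨(m : integralClosure ℤ ℂ), ?_, by push_cast; rfl⟩
      rw [← Ideal.Quotient.eq_zero_iff_mem, map_natCast]
      exact h9
    rcases mul_eq_zero.1 h7.symm with h9 | h9
    · exact absurd h9 h8
    · have h10 := pow_eq_zero_iff (hm.out.ne_zero) |>.1 h9
      have h11 : q (a j₀ - c) = 0 := by rw [map_sub]; exact h10
      exact ⟨a j₀ - c, Ideal.Quotient.eq_zero_iff_mem.1 h11, by push_cast; rfl⟩
  · intro h g
    apply Cong.sum
    intro t _
    apply Cong.prod
    · intro j _; exact (h j).2 _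
    · intro j _; exact omega_integral _ (hα j) _
    · intro j _; exact omega_integral _ hχ _

end wr

end Pool.Agent.Helper51_AWC
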