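import Pool.Agent.Helper51_AWC.ProdSum
import Pool.Agent.Helper51_AWC.WrBlock
import Pool.Agent.Helper51_AWC.Defect

/-!
Transport of the alternating sum along isomorphisms; powers of a group.
-/

open scoped BigOperators

noncomputable section

namespace Pool.Agent.Helper51_AWC

theorem sum_chainsOn_map {α β : Type*} [PartialOrder α] [PartialOrder β] (e : α ↪o β)
    (s : Finset α) (b : α) (F : Finset β → ℤ) :
    ∑ d ∈ chainsOn (s.map e.toEmbedding) (e b), F d =
      ∑ d ∈ chainsOn s b, F (d.map e.toEmbedding) := by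
  classical
  symm
  apply Finset.sum_bij (fun d _ => d.map e.toEmbedding)
  · intro d hd
    obtain ⟨h1, h2, h3⟩ := mem_chainsOn.1 hd
    rw [mem_chainsOn]
    refine ⟨Finset.map_subset_map.2 h1, Finset.mem_map.2 ⟨b, h2, rfl⟩, ?_⟩
    intro x hx y hy _
    obtain ⟨x', hx', rfl⟩ := Finset.mem_map.1 (Finset.mem_coe.1 hx)
    obtain ⟨y', hy', rfl⟩ := Finset.mem_map.1 (Finset.mem_coe.1 hy)
    rcases chain_total h3 hx' hy' with h | h
    · left; exact e.le_iff_le.2 h
    · right; exact e.le_iff_le.2 h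
  · intro d _ d' _ h
    exact Finset.map_injective _ h
  · intro d hd
    obtain ⟨h1, h2, h3⟩ := mem_chainsOn.1 hd
    refine ⟨s.filter (fun x => e x ∈ d), ?_, ?_⟩
    · rw [mem_chainsOn]
      refine ⟨Finset.filter_subset _ _, ?_, ?_⟩
      · rw [Finset.mem_filter]
        obtain ⟨b', hb', hb''⟩ := Finset.mem_map.1 (h1 h2)
        have : b' = b := e.injective hb''
        rw [this] at hb'
        exact ⟨hb', h2⟩
      · intro x hx y hy _
        rcases chain_total h3 (Finset.mem_filter.1 hx).2 (Finset.mem_filter.1 hy).2 with h | h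
        · left; exact e.le_iff_le.1 h
        · right; exact e.le_iff_le.1 h
    · ext y
      rw [Finset.mem_map]
      constructor
      · rintro ⟨x, hx, rfl⟩
        exact (Finset.mem_filter.1 hx).2
      · intro hy
        obtain ⟨x, hx, rfl⟩ := Finset.mem_map.1 (h1 hy)
        exact ⟨x, Finset.mem_filter.2 ⟨hx, hy⟩, rfl⟩
  · intro d _; rfl

section iso

variable {G G' : Type} [Group G] [Group G'] [Finite G] [Finite G']

omit [Finite G] [Finite G'] in
theorem conjS_map (e : G ≃* G') (g : G) (D : Subgroup G) :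
    conjS (e g) (D.map e.toMonoidHom) = (conjS g D).map e.toMonoidHom := by
  ext x
  rw [mem_conjS, Subgroup.mem_map, Subgroup.mem_map]
  constructor
  · rintro ⟨y, hy, h⟩
    refine ⟨g * y * g⁻¹, ?_, ?_⟩
    · rw [mem_conjS]; simpa [mul_assoc] using hy
    · have h' : e y = (e g)⁻¹ * x * e g := h
      show e (g * y * g⁻¹) = x
      rw [map_mul, map_mul, map_inv, h']; group
  · rintro ⟨y, hy, rfl⟩
    refine ⟨g⁻¹ * y * g, mem_conjS.1 hy, ?_⟩
    show e (g⁻¹ * y * g) = (e g)⁻¹ * e y * e g
    rw [map_mul, map_mul, map_inv]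

/-- the order isomorphism of subgroup lattices -/
def mapE (e : G ≃* G') : Subgroup G ↪o Subgroup G' := e.mapSubgroup.toOrderEmbedding

omit [Finite G] [Finite G'] in
theorem mapE_apply (e : G ≃* G') (D : Subgroup G) : mapE e D = D.map e.toMonoidHom := rfl

theorem opCore_equiv (ℓ : ℕ) [Fact ℓ.Prime] (e : G ≃* G') : mapE e (opCore ℓ G) = opCore ℓ G' := by
  obtain ⟨a1, a2, a3⟩ := opCore_spec ℓ G
  obtain ⟨b1, b2, b3⟩ := opCore_spec ℓ G'
  apply le_antisymm
  · apply b3
    · exact a1.map _ e.surjective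
    · exact a2.map _
  · have h1 := a3 ((opCore ℓ G').map e.symm.toMonoidHom) (b1.map _ e.symm.surjective) (b2.map _)
    intro x hx
    refine ⟨e.symm x, h1 ⟨x, hx, rfl⟩, ?_⟩
    simp

theorem psub_equiv (ℓ : ℕ) [Fact ℓ.Prime] (e : G ≃* G') :
    psub ℓ G' = (psub ℓ G).map (mapE e).toEmbedding := by
  ext D
  rw [mem_psub, Finset.mem_map, ← opCore_equiv ℓ e]
  constructor
  · rintro ⟨h1, h2⟩
    have h3 : mapE e (D.map e.symm.toMonoidHom) = D := by
      ext x
      constructor
      · rintro ⟨y, ⟨z, hz, rfl⟩, rfl⟩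
        simpa using hz
      · intro hx
        exact ⟨e.symm x, ⟨x, hx, rfl⟩, by simp⟩
    refine ⟨D.map e.symm.toMonoidHom, ?_, h3⟩
    rw [mem_psub]
    refine ⟨?_, h2.map _⟩
    rw [← (mapE e).le_iff_le, h3]
    exact h1
  · rintro ⟨E, hE, rfl⟩
    rw [mem_psub] at hE
    exact ⟨(mapE e).le_iff_le.2 hE.1, hE.2.map _⟩

omit [Finite G] [Finite G'] in
theorem stab_equiv (e : G ≃* G') (d : Finset (Subgroup G)) :
    stab (d.map (mapE e).toEmbedding) = mapE e (stab d) := by
  ext x
  obtain ⟨g, rfl⟩ := e.surjective x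
  have h1 : e g ∈ mapE e (stab d) ↔ g ∈ stab d := by
    rw [mapE_apply, Subgroup.mem_map]
    constructor
    · rintro ⟨y, hy, h⟩
      have : y = g := e.injective h
      rwa [← this]
    · intro h; exact ⟨g, h, rfl⟩
  rw [h1, mem_stab, mem_stab]
  constructor
  · intro h D hD
    have h2 := h (mapE e D) (Finset.mem_map_of_mem _ hD)
    rw [mapE_apply, conjS_map] at h2
    exact (mapE e).injective h2
  · intro h D hD
    obtain ⟨E, hE, rfl⟩ := Finset.mem_map.1 hD
    show conjS (e g) (mapE e E) = mapE e E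
    rw [mapE_apply, conjS_map, h E hE]

omit [Finite G] [Finite G'] in
theorem IrrBlock_target_equiv {H : Type} [Group H] (M : Ideal (integralClosure ℤ ℂ)) (e : G ≃* G')
    (i : H →* G) (χ : G' → ℂ) :
    IrrBlock M (e.toMonoidHom.comp i) χ = IrrBlock M i (fun g => χ (e g)) := by
  have hconj : ∀ (a b : G), IsConj (e a) (e b) ↔ IsConj a b := by
    intro a b
    constructor
    · intro h
      obtain ⟨c, hc⟩ := isConj_iff.1 h
      rw [isConj_iff]
      refine ⟨e.symm c, e.injective ?_⟩
      rw [map_mul, map_mul, map_inv, e.apply_symm_apply]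
      exact hc
    · intro h
      obtain ⟨c, hc⟩ := isConj_iff.1 h
      rw [isConj_iff]
      exact ⟨e c, by rw [← map_inv, ← map_mul, ← map_mul, hc]⟩
  have h1 : ∀ (ϑ : H → ℂ) (g : G), omega (e.toMonoidHom.comp i) ϑ (e g) = omega i ϑ g := by
    intro ϑ g
    unfold omega
    congr 1
    apply finsum_congr
    intro h
    rw [show IsConj (e g) ((e.toMonoidHom.comp i) h) = IsConj g (i h) from propext (hconj _ _)]
  have h2 : ∀ g : G, omega (MonoidHom.id G') χ (e g) = omega (MonoidHom.id G) (fun g => χ (e g)) g := by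
    intro g
    unfold omega
    congr 1
    · rw [← finsum_comp_equiv e.toEquiv]
      apply finsum_congr
      intro h
      have : IsConj (e g) ((MonoidHom.id G') (e h)) = IsConj g ((MonoidHom.id G) h) :=
        propext (hconj _ _)
      show (∑ᶠ _ : IsConj (e g) ((MonoidHom.id G') (e h)), χ (e h)) = _
      rw [this]
    · simp
  ext ϑ
  constructor
  · rintro ⟨h3, h4⟩
    exact ⟨h3, fun g => by rw [← h1, ← h2]; exact h4 (e g)⟩
  · rintro ⟨h3, h4⟩
    refine ⟨h3, fun g' => ?_⟩
    obtain ⟨g, rfl⟩ := e.surjective g'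
    rw [h1, h2]; exact h4 g

omit [Finite G] in
/-- a subgroup and an injective homomorphism with this range -/
theorem weight_range {H : Type} [Group H] (M : Ideal (integralClosure ℤ ℂ)) (χ : G → ℂ)
    (j : H →* G) (hj : Function.Injective j) (T : Subgroup G) (hT : j.range = T) :
    Nat.card T = Nat.card H ∧ (IrrBlock M T.subtype χ).ncard = (IrrBlock M j χ).ncard := by
  subst hT
  refine ⟨(Nat.card_congr (MonoidHom.ofInjective hj).toEquiv).symm, ?_⟩
  symm
  apply ncard_IrrBlock_equiv M χ _ _ (MonoidHom.ofInjective hj)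
  intro h
  exact IsConj.refl _

/-- the alternating sum is invariant under isomorphisms -/
theorem altSum_equiv (ℓ : ℕ) [Fact ℓ.Prime] (M : Ideal (integralClosure ℤ ℂ)) (e : G ≃* G')
    (χ : G' → ℂ) : altSum ℓ M (fun g => χ (e g)) = altSum ℓ M χ := by
  have hc : ((Nat.card G : ℤ)) ≠ 0 := by exact_mod_cast Nat.card_pos.ne'
  apply mul_left_cancel₀ hc
  rw [card_mul_altSum]
  rw [show (Nat.card G : ℤ) = Nat.card G' from by rw [Nat.card_congr e.toEquiv], card_mul_altSum,
    psub_equiv ℓ e, ← opCore_equiv ℓ e, sum_chainsOn_map]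
  apply Finset.sum_congr rfl
  intro d _
  rw [Finset.card_map]
  congr 2
  unfold weight
  have hr : (e.toMonoidHom.comp (stab d).subtype).range = stab (d.map (mapE e).toEmbedding) := by
    rw [stab_equiv, mapE_apply, MonoidHom.range_comp, Subgroup.range_subtype]
  obtain ⟨h1, h2⟩ := weight_range M χ (e.toMonoidHom.comp (stab d).subtype)
    (e.injective.comp (stab d).subtype_injective) _ hr
  rw [h1, h2, IrrBlock_target_equiv]

end iso

/-- powers -/
theorem altSum_fin_pow (ℓ : ℕ) [Fact ℓ.Prime] (M : Ideal (integralClosure ℤ ℂ)) {G : Type}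
    [Group G] [Fintype G] {χ : G → ℂ} (hχ : χ ∈ Irr G) (n : ℕ) :
    altSum ℓ M (piChar (fun _ : Fin (n + 1) => χ)) = altSum ℓ M χ ^ (n + 1) := by
  induction n with
  | zero =>
    let e : (Fin (0 + 1) → G) ≃* G :=
      { toFun := fun f => f 0
        invFun := fun g => fun _ => g
        left_inv := by
          intro f
          funext i
          have : i = 0 := Fin.ext (by have := i.2; omega)
          rw [this]
        right_inv := fun _ => rfl
        map_mul' := fun _ _ => rfl }
    have h1 : piChar (fun _ : Fin (0 + 1) => χ) = fun f => χ (e f) := by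
      funext f
      unfold piChar
      simp [e]
    rw [h1, altSum_equiv, zero_add, pow_one]
  | succ n ih =>
    let e : (Fin (n + 1 + 1) → G) ≃* G × (Fin (n + 1) → G) :=
      { toFun := fun f => (f 0, fun i => f i.succ)
        invFun := fun p => Fin.cons p.1 p.2
        left_inv := by
          intro f
          funext i
          refine Fin.cases ?_ (fun i => ?_) i
          · rfl
          · rfl
        right_inv := fun _ => rfl
        map_mul' := fun _ _ => rfl }
    have h1 : piChar (fun _ : Fin (n + 1 + 1) => χ) =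
        fun f => prodChar χ (piChar (fun _ : Fin (n + 1) => χ)) (e f) := by
      funext f
      unfold piChar prodChar
      rw [Fin.prod_univ_succ]
      rfl
    rw [h1, altSum_equiv, altSum_prod ℓ M hχ (piChar_mem (fun _ => hχ)), ih]
    ring

theorem altSum_zmod_pow (ℓ : ℕ) [Fact ℓ.Prime] (M : Ideal (integralClosure ℤ ℂ)) {G : Type}
    [Group G] [Fintype G] {χ : G → ℂ} (hχ : χ ∈ Irr G) (m : ℕ) [NeZero m] :
    altSum ℓ M (piChar (fun _ : ZMod m => χ)) = altSum ℓ M χ ^ m := by
  obtain ⟨n, rfl⟩ := Nat.exists_eq_succ_of_ne_zero (NeZero.ne m)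
  exact altSum_fin_pow ℓ M hχ n

end Pool.Agent.Helper51_AWC
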