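import Pool.Agent.Helper51_AWC.Wreath
import Pool.Agent.Helper51_AWC.PiChar

/-!
Irreducible characters of `H wr C_m` for a prime `m`.
-/

open scoped BigOperators

noncomputable section

namespace Pool.Agent.Helper51_AWC

variable {m : ℕ} [hm : Fact m.Prime]

/-- going around the cycle in steps of size `s` -/
theorem const_of_step {X : Type*} {w : ZMod m → X} {s : ZMod m} (hs : s ≠ 0)
    (h : ∀ i, i ≠ 0 → w i = w (i - s)) (i : ZMod m) : w i = w 0 := by
  have key : ∀ k : ℕ, k < m → w ((k : ZMod m) * s) = w 0 := by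
    intro k
    induction k with
    | zero => intro _; simp
    | succ k ih =>
      intro hk
      have h1 : ((k + 1 : ℕ) : ZMod m) ≠ 0 := by
        rw [Ne, ZMod.natCast_eq_zero_iff]
        intro hd
        have := Nat.le_of_dvd (Nat.succ_pos k) hd
        omega
      have h2 : ((k + 1 : ℕ) : ZMod m) * s ≠ 0 := mul_ne_zero h1 hs
      rw [h _ h2]
      have h3 : ((k + 1 : ℕ) : ZMod m) * s - s = (k : ZMod m) * s := by push_cast; ring
      rw [h3]
      exact ih (by omega)
  have h1 := key (i * s⁻¹).val (ZMod.val_lt _)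
  rw [ZMod.natCast_zmod_val, mul_assoc, inv_mul_cancel₀ hs, mul_one] at h1
  exact h1

end Pool.Agent.Helper51_AWC

namespace Pool.Agent.Helper51_AWC

section defs

variable {m : ℕ} {H : Type} [Group H]

/-- extension by `1` at the place `0` -/
def ext0 (u : {i : ZMod m // i ≠ 0} → H) : ZMod m → H :=
  fun i => if h : i = 0 then 1 else u ⟨i, h⟩

theorem ext0_zero (u : {i : ZMod m // i ≠ 0} → H) : ext0 u 0 = 1 := by
  simp [ext0]

theorem ext0_ne (u : {i : ZMod m // i ≠ 0} → H) {i : ZMod m} (h : i ≠ 0) :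
    ext0 u i = u ⟨i, h⟩ := by
  simp [ext0, h]

/-- the element `((c, 1, ..., 1); s)` -/
def single (c : H) (s : ZMod m) : Wr m H := ⟨Pi.mulSingle 0 c, s⟩

/-- a conjugate of `single c s` by a base element -/
def jmap (s : ZMod m) (p : ({i : ZMod m // i ≠ 0} → H) × H) : ZMod m → H :=
  fun i => (ext0 p.1 i)⁻¹ * (Pi.mulSingle 0 p.2 : ZMod m → H) i * ext0 p.1 (i - s)

theorem jmap_conj (s : ZMod m) (p : ({i : ZMod m // i ≠ 0} → H) × H) :
    (⟨jmap s p, s⟩ : Wr m H) =
      (Wr.base m H (ext0 p.1))⁻¹ * single p.2 s * ((Wr.base m H (ext0 p.1))⁻¹)⁻¹ := by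
  apply Wr.ext
  · funext i
    rw [Wr.conj_f]
    simp only [Wr.inv_f, Wr.inv_s, Wr.base_f, Wr.base_s, neg_zero, sub_zero, add_zero, inv_inv,
      single]
    rfl
  · rw [Wr.conj_s]; rfl

end defs

variable {m : ℕ} [hm : Fact m.Prime] {H : Type} [Group H]

theorem jmap_injective {s : ZMod m} (hs : s ≠ 0) :
    Function.Injective (jmap (H := H) s) := by
  rintro ⟨u, c⟩ ⟨v, d⟩ h
  have h1 : ∀ i, (ext0 v i * (ext0 u i)⁻¹) * (Pi.mulSingle 0 c : ZMod m → H) i =
      (Pi.mulSingle 0 d : ZMod m → H) i * (ext0 v (i - s) * (ext0 u (i - s))⁻¹) := by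
    intro i
    have := congrFun h i
    simp only [jmap] at this
    calc (ext0 v i * (ext0 u i)⁻¹) * (Pi.mulSingle 0 c : ZMod m → H) i
        = ext0 v i * ((ext0 u i)⁻¹ * (Pi.mulSingle 0 c : ZMod m → H) i * ext0 u (i - s)) *
            (ext0 u (i - s))⁻¹ := by group
      _ = _ := by rw [this]; group
  have h2 : ∀ i, ext0 v i * (ext0 u i)⁻¹ = 1 := by
    intro i
    have := const_of_step (w := fun i => ext0 v i * (ext0 u i)⁻¹) hs (by
      intro i hi
      have := h1 i
      rw [Pi.mulSingle_eq_of_ne hi, Pi.mulSingle_eq_of_ne hi, mul_one, one_mul] at this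
      exact this) i
    rw [this]
    simp only [ext0_zero, inv_one, mul_one]
  have h3 : ∀ i, ext0 v i = ext0 u i := fun i => mul_inv_eq_one.1 (h2 i)
  have h4 : u = v := by
    funext ⟨i, hi⟩
    have := h3 i
    rw [ext0_ne _ hi, ext0_ne _ hi] at this
    exact this.symm
  have h5 : c = d := by
    have := h1 0
    rw [h2, h2] at this
    simpa using this
  rw [h4, h5]

theorem card_ne_zero_sub : Fintype.card {i : ZMod m // i ≠ 0} = m - 1 := by
  rw [Fintype.card_subtype_compl, ZMod.card, Fintype.card_subtype_eq]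

theorem jmap_bijective [Fintype H] {s : ZMod m} (hs : s ≠ 0) :
    Function.Bijective (jmap (H := H) s) := by
  rw [Fintype.bijective_iff_injective_and_card]
  refine ⟨jmap_injective hs, ?_⟩
  rw [Fintype.card_prod, Fintype.card_fun, Fintype.card_fun, card_ne_zero_sub, ZMod.card]
  rw [← pow_succ]
  congr 1
  have := hm.out.pos
  omega

/-- every element outside the base group is conjugate to some `single c s` -/
theorem exists_single [Finite H] (x : Wr m H) (hx : x.s ≠ 0) : ∃ c : H, IsConj (single c x.s) x := by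
  have := Fintype.ofFinite H
  obtain ⟨p, hp⟩ := (jmap_bijective (H := H) hx).2 x.f
  refine ⟨p.2, isConj_iff.2 ⟨(Wr.base m H (ext0 p.1))⁻¹, ?_⟩⟩
  rw [← jmap_conj x.s p, hp]

variable [Fintype H]

instance : Fintype (Wr m H) := Fintype.ofEquiv _ Wr.equivProd.symm

omit [Group H] in
theorem sum_wr (F : Wr m H → ℂ) :
    ∑ x, F x = ∑ s : ZMod m, ∑ f : ZMod m → H, F ⟨f, s⟩ := by
  rw [Finset.sum_comm, ← Fintype.sum_prod_type', ← Equiv.sum_comp Wr.equivProd.symm F]
  rfl

/-- sums of class functions over the coset of `s` -/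
theorem sum_coset {s : ZMod m} (hs : s ≠ 0) (Ψ : Wr m H → ℂ)
    (hΨ : ∀ x y, Ψ (y * x * y⁻¹) = Ψ x) :
    ∑ f : ZMod m → H, Ψ ⟨f, s⟩ = (Fintype.card H : ℂ) ^ (m - 1) * ∑ c : H, Ψ (single c s) := by
  rw [← Equiv.sum_comp (Equiv.ofBijective _ (jmap_bijective (H := H) hs)), Fintype.sum_prod_type]
  have : ∀ (u : {i : ZMod m // i ≠ 0} → H) (c : H),
      Ψ ⟨(Equiv.ofBijective _ (jmap_bijective (H := H) hs)) (u, c), s⟩ = Ψ (single c s) := by
    intro u c
    show Ψ ⟨jmap s (u, c), s⟩ = _
    rw [jmap_conj, hΨ]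
  simp_rw [this]
  rw [Finset.sum_const, nsmul_eq_mul, Finset.card_univ, Fintype.card_fun, card_ne_zero_sub]
  push_cast
  ring

/-- class functions of the wreath product agreeing on the base and on the elements `single` -/
theorem wr_class_ext {Ψ Ψ' : Wr m H → ℂ} (hΨ : ∀ x y, Ψ (y * x * y⁻¹) = Ψ x)
    (hΨ' : ∀ x y, Ψ' (y * x * y⁻¹) = Ψ' x) (h1 : ∀ f, Ψ (Wr.base m H f) = Ψ' (Wr.base m H f))
    (h2 : ∀ s, s ≠ 0 → ∀ c, Ψ (single c s) = Ψ' (single c s)) : Ψ = Ψ' := by
  funext x
  by_cases hx : x.s = 0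
  · have : x = Wr.base m H x.f := by
      apply Wr.ext
      · rfl
      · exact hx
    rw [this]; exact h1 _
  · obtain ⟨c, hc⟩ := exists_single x hx
    obtain ⟨y, hy⟩ := isConj_iff.1 hc
    rw [← hy, hΨ, hΨ', h2 _ hx]

/-! ### induced characters -/

/-- translate of a tuple -/
def tr {X : Type*} (t : ZMod m) (α : ZMod m → X) : ZMod m → X := fun j => α (j - t)

theorem tr_inj {X : Type*} {α : ZMod m → X} (hα : ∃ i, α i ≠ α 0) {t t' : ZMod m}
    (h : tr t α = tr t' α) : t = t' := by
  by_contra hne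
  obtain ⟨i, hi⟩ := hα
  apply hi
  apply const_of_step (s := t - t') (sub_ne_zero.2 hne)
  intro i _
  have := congrFun h (i + t')
  simp only [tr] at this
  rw [show i + t' - t' = i by ring, show i + t' - t = i - (t - t') by ring] at this
  exact this.symm

/-- the character induced from the base group -/
def indChar (α : ZMod m → H → ℂ) : Wr m H → ℂ := fun x =>
  if x.s = 0 then ∑ t : ZMod m, piChar (tr t α) x.f else 0

omit [Group H] [Fintype H] in
theorem piChar_tr (α : ZMod m → H → ℂ) (t : ZMod m) (f : ZMod m → H) :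
    piChar α (fun i => f (i + t)) = piChar (tr t α) f := by
  unfold piChar tr
  rw [← Equiv.prod_comp (Equiv.addRight t) (fun j => α (j - t) (f j))]
  apply Finset.prod_congr rfl
  intro i _
  simp

theorem indChar_inner_base {α β : ZMod m → H → ℂ} (hα : ∀ i, α i ∈ Irr H)
    (hβ : ∀ i, β i ∈ Irr H) [DecidableEq (ZMod m → H → ℂ)] :
    ∑ f : ZMod m → H, (∑ t : ZMod m, piChar (tr t α) f) * piChar β f⁻¹ =
      (Fintype.card H : ℂ) ^ m * (Finset.univ.filter fun t => tr t α = β).card := by
  simp_rw [Finset.sum_mul]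
  rw [Finset.sum_comm]
  have : ∀ t : ZMod m, ∑ f : ZMod m → H, piChar (tr t α) f * piChar β f⁻¹ =
      if tr t α = β then (Fintype.card H : ℂ) ^ m else 0 := by
    intro t
    split_ifs with h
    · rw [h, piChar_inner_self hβ, Fintype.card_fun, ZMod.card]
      push_cast; ring
    · exact piChar_inner_ne (fun i => hα _) hβ h
  simp_rw [this]
  rw [← Finset.sum_filter, Finset.sum_const, nsmul_eq_mul, mul_comm]

theorem indChar_mem {α : ZMod m → H → ℂ} (hα : ∀ i, α i ∈ Irr H) (hne : ∃ i, α i ≠ α 0) :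
    indChar α ∈ Irr (Wr m H) := by
  classical
  have h := fun i => irr_coeff (hα i)
  choose n r hr1 hr2 hr3 using h
  apply mem_Irr_of_coeff (X := ZMod m × (∀ i, Fin (n i)))
    (fun x A B => if A.1 = B.1 + x.s then ∏ i, r i (x.f (i + A.1)) (A.2 i) (B.2 i) else 0)
  · intro A B
    simp only [Wr.one_s, Wr.one_f, add_zero, hr1]
    by_cases h : A = B
    · subst h
      simp
    · rw [if_neg h]
      split_ifs with h1
      · have h2 : A.2 ≠ B.2 := fun h2 => h (Prod.ext h1 h2)
        obtain ⟨i, hi⟩ := Function.ne_iff.1 h2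
        exact Finset.prod_eq_zero (Finset.mem_univ i) (if_neg hi)
      · rfl
  · intro x y A B
    simp only [Wr.mul_s, Wr.mul_f, hr2]
    rw [Fintype.sum_prod_type]
    rw [Finset.sum_eq_single_of_mem (B.1 + y.s) (Finset.mem_univ _)]
    · by_cases h : A.1 = B.1 + y.s + x.s
      · rw [if_pos (by rw [h]; ring)]
        have h1 : ∀ C : (∀ i, Fin (n i)),
            (if A.1 = B.1 + y.s + x.s then ∏ i, r i (x.f (i + A.1)) (A.2 i) (C i) else 0) *
            (if B.1 + y.s = B.1 + y.s then
              ∏ i, r i (y.f (i + (B.1 + y.s))) (C i) (B.2 i) else 0) =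
            ∏ i, (r i (x.f (i + A.1)) (A.2 i) (C i) *
              r i (y.f (i + (B.1 + y.s))) (C i) (B.2 i)) := by
          intro C
          rw [if_pos h, if_pos rfl, Finset.prod_mul_distrib]
        rw [Finset.sum_congr rfl (fun C _ => h1 C)]
        rw [sum_pi_prod (fun i c => r i (x.f (i + A.1)) (A.2 i) c *
              r i (y.f (i + (B.1 + y.s))) c (B.2 i))]
        apply Finset.prod_congr rfl
        intro i _
        apply Finset.sum_congr rfl
        intro c _
        have e : i + A.1 - x.s = i + (B.1 + y.s) := by rw [h]; ring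
        rw [e]
      · rw [if_neg (by intro h'; apply h; rw [h']; ring)]
        symm
        apply Finset.sum_eq_zero
        intro C _
        simp only [if_neg h, zero_mul]
    · intro t _ ht
      apply Finset.sum_eq_zero
      intro C _
      simp only [if_neg ht, mul_zero]
  · intro x
    unfold indChar
    by_cases hx : x.s = 0
    · rw [if_pos hx, Fintype.sum_prod_type]
      apply Finset.sum_congr rfl
      intro t _
      simp only [hx, add_zero, if_true]
      rw [← piChar_tr, sum_pi_prod (fun i a => r i (x.f (i + t)) a a)]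
      unfold piChar
      apply Finset.prod_congr rfl
      intro i _
      rw [hr3 i]
    · rw [if_neg hx]
      apply Finset.sum_eq_zero
      intro A _
      rw [if_neg]
      intro h
      apply hx
      have : A.1 + 0 = A.1 + x.s := by rw [add_zero]; exact h
      exact (add_left_cancel this).symm
  · rw [sum_wr, Finset.sum_eq_single_of_mem 0 (Finset.mem_univ _)]
    · have h1 : ∀ f : ZMod m → H, indChar α ⟨f, 0⟩ * indChar α (⟨f, 0⟩ : Wr m H)⁻¹ =
          ∑ t' : ZMod m, (∑ t : ZMod m, piChar (tr t α) f) * piChar (tr t' α) f⁻¹ := by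
        intro f
        have e1 : indChar α (⟨f, 0⟩ : Wr m H)⁻¹ = ∑ t : ZMod m, piChar (tr t α) f⁻¹ := by
          unfold indChar
          rw [if_pos (by simp [Wr.inv_s])]
          apply Finset.sum_congr rfl
          intro t _
          congr 1
          funext i
          rw [Wr.inv_f]
          simp
        have e2 : indChar α (⟨f, 0⟩ : Wr m H) = ∑ t : ZMod m, piChar (tr t α) f := by
          unfold indChar
          rw [if_pos rfl]
        rw [e1, e2, Finset.mul_sum]
      simp_rw [h1]
      rw [Finset.sum_comm]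
      have h2 : ∀ t' : ZMod m, (Finset.univ.filter fun t => tr t α = tr t' α).card = 1 := by
        intro t'
        rw [Finset.card_eq_one]
        refine ⟨t', ?_⟩
        ext t
        simp only [Finset.mem_filter, Finset.mem_univ, true_and, Finset.mem_singleton]
        exact ⟨fun h => tr_inj hne h, fun h => by rw [h]⟩
      have h3 : ∀ t' : ZMod m, ∑ f : ZMod m → H,
          (∑ t : ZMod m, piChar (tr t α) f) * piChar (tr t' α) f⁻¹ =
          (Fintype.card H : ℂ) ^ m := by
        intro t'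
        rw [indChar_inner_base hα (β := tr t' α) (fun i => hα _), h2]
        simp
      simp_rw [h3]
      rw [Finset.sum_const, Finset.card_univ, ZMod.card, ← Nat.card_eq_fintype_card (α := Wr m H),
        Wr.card_eq, Nat.card_eq_fintype_card, nsmul_eq_mul]
      push_cast; ring
    · intro s _ hs
      apply Finset.sum_eq_zero
      intro f _
      have : indChar α ⟨f, s⟩ = 0 := by
        unfold indChar
        rw [if_neg hs]
      rw [this, zero_mul]

/-! ### extended characters -/

theorem exists_ext {α : H → ℂ} (hα : α ∈ Irr H) (lam : AddChar (ZMod m) ℂ) :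
    ∃ θ ∈ Irr (Wr m H), (∀ f, θ (Wr.base m H f) = piChar (fun _ => α) f) ∧
      ∀ s, s ≠ 0 → ∀ c, θ (single c s) = lam s * α c := by
  classical
  obtain ⟨n, r, hr1, hr2, hr3⟩ := irr_coeff hα
  let S : Wr m H → (ZMod m → Fin n) → (ZMod m → Fin n) → ℂ :=
    fun x A B => lam x.s * ∏ i, r (x.f i) (A i) (B (i - x.s))
  let θ : Wr m H → ℂ := fun x => ∑ A, S x A A
  have hS1 : ∀ A B, S 1 A B = if A = B then 1 else 0 := by
    intro A B
    simp only [S, Wr.one_s, Wr.one_f, hr1, sub_zero, AddChar.map_zero_eq_one, one_mul]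
    by_cases h : A = B
    · subst h
      simp
    · rw [if_neg h]
      obtain ⟨i, hi⟩ := Function.ne_iff.1 h
      exact Finset.prod_eq_zero (Finset.mem_univ i) (if_neg hi)
  have hS2 : ∀ x y A B, S (x * y) A B = ∑ C, S x A C * S y C B := by
    intro x y A B
    simp only [S, Wr.mul_s, Wr.mul_f, hr2, AddChar.map_add_eq_mul]
    have h1 : ∀ C : ZMod m → Fin n,
        lam x.s * (∏ i, r (x.f i) (A i) (C (i - x.s))) *
          (lam y.s * ∏ i, r (y.f i) (C i) (B (i - y.s))) =
        lam x.s * lam y.s * ∏ i, (r (x.f i) (A i) (C (i - x.s)) *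
          r (y.f (i - x.s)) (C (i - x.s)) (B (i - x.s - y.s))) := by
      intro C
      rw [Finset.prod_mul_distrib]
      have h2 := Equiv.prod_comp (Equiv.subRight x.s)
        (fun i => r (y.f i) (C i) (B (i - y.s)))
      simp only [Equiv.subRight_apply] at h2
      rw [h2]
      ring
    simp only [h1]
    rw [← Finset.mul_sum]
    congr 1
    have h3 := Equiv.sum_comp (Equiv.arrowCongr (Equiv.subRight x.s).symm (Equiv.refl (Fin n)))
      (fun D : ZMod m → Fin n => ∏ i, (r (x.f i) (A i) (D i) *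
          r (y.f (i - x.s)) (D i) (B (i - x.s - y.s))))
    simp only [Equiv.arrowCongr_apply, Equiv.symm_symm, Equiv.coe_refl, Function.comp_def,
      Equiv.subRight_apply, id] at h3
    rw [h3, sum_pi_prod (fun i c => r (x.f i) (A i) c * r (y.f (i - x.s)) c (B (i - x.s - y.s)))]
    simp only [sub_sub]
  have hθ1 : ∀ f, θ (Wr.base m H f) = piChar (fun _ => α) f := by
    intro f
    simp only [θ, S, Wr.base_s, Wr.base_f, sub_zero, AddChar.map_zero_eq_one, one_mul]
    rw [sum_pi_prod (fun i a => r (f i) a a)]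
    unfold piChar
    apply Finset.prod_congr rfl
    intro i _
    rw [hr3]
  have hθ2 : ∀ s, s ≠ 0 → ∀ c, θ (single c s) = lam s * α c := by
    intro s hs c
    simp only [θ, S, single]
    rw [← Finset.mul_sum]
    congr 1
    rw [← hr3]
    symm
    apply Finset.sum_of_injOn (fun (a : Fin n) => (fun _ : ZMod m => a))
    · intro a _ b _ h
      exact congrFun h 0
    · intro a _
      exact Finset.mem_coe.2 (Finset.mem_univ _)
    · intro A _ hA
      by_contra hne
      apply hA
      refine ⟨A 0, Finset.mem_coe.2 (Finset.mem_univ _), ?_⟩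
      funext i
      symm
      apply const_of_step hs
      intro i hi
      by_contra hi2
      apply hne
      apply Finset.prod_eq_zero (Finset.mem_univ i)
      rw [Pi.mulSingle_eq_of_ne hi, hr1, if_neg hi2]
    · intro a _
      rw [Finset.prod_eq_single_of_mem 0 (Finset.mem_univ _)]
      · simp
      · intro i _ hi
        rw [Pi.mulSingle_eq_of_ne hi, hr1, if_pos rfl]
  have hθ3 : ∀ x y, θ (y * x * y⁻¹) = θ x := by
    have h1 : ∀ x y, θ (x * y) = θ (y * x) := by
      intro x y
      simp only [θ, hS2]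
      rw [Finset.sum_comm]
      apply Finset.sum_congr rfl
      intro A _
      apply Finset.sum_congr rfl
      intro C _
      ring
    intro x y
    rw [h1, ← mul_assoc, inv_mul_cancel, one_mul]
  refine ⟨θ, mem_Irr_of_coeff S hS1 hS2 θ (fun g => rfl) ?_, hθ1, hθ2⟩
  have hz : ∑ f : ZMod m → H, θ ⟨f, 0⟩ * θ (⟨f, 0⟩ : Wr m H)⁻¹ = (Fintype.card H : ℂ) ^ m := by
    have h1 := piChar_inner_self (ι := ZMod m) (H := fun _ => H) (α := fun _ => α) (fun _ => hα)
    rw [Fintype.card_fun, ZMod.card] at h1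
    push_cast at h1
    rw [← h1]
    apply Finset.sum_congr rfl
    intro f _
    rw [← hθ1, ← hθ1]
    rw [map_inv]
    rfl
  have hnz : ∀ s : ZMod m, s ≠ 0 → ∑ f : ZMod m → H, θ ⟨f, s⟩ * θ (⟨f, s⟩ : Wr m H)⁻¹ =
      (Fintype.card H : ℂ) ^ m := by
    intro s hs
    rw [sum_coset hs (fun x => θ x * θ x⁻¹) (by
      intro x y
      have : (y * x * y⁻¹)⁻¹ = y * x⁻¹ * y⁻¹ := by group
      rw [hθ3, this, hθ3])]
    have h1 : ∀ c : H, θ (single c s)⁻¹ = lam (-s) * α c⁻¹ := by
      intro c
      rw [← hθ2 (-s) (neg_ne_zero.2 hs) c⁻¹]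
      rw [← hθ3 (single c s)⁻¹ (⟨fun _ => 1, s⟩ : Wr m H)]
      congr 1
      apply Wr.ext
      · funext i
        rw [Wr.conj_f, Wr.inv_f]
        simp only [single, one_mul, inv_one, mul_one, sub_add_cancel]
        by_cases hi : i = 0
        · subst hi; simp
        · rw [Pi.mulSingle_eq_of_ne hi, Pi.mulSingle_eq_of_ne hi, inv_one]
      · rw [Wr.conj_s]; rfl
    have h2 : lam s * lam (-s) = 1 := by
      rw [← AddChar.map_add_eq_mul, add_neg_cancel, AddChar.map_zero_eq_one]
    have h3 : ∀ c : H, θ (single c s) * θ (single c s)⁻¹ = α c * α c⁻¹ := by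
      intro c
      rw [h1, hθ2 s hs]
      calc lam s * α c * (lam (-s) * α c⁻¹) = (lam s * lam (-s)) * (α c * α c⁻¹) := by ring
        _ = _ := by rw [h2, one_mul]
    simp_rw [h3]
    rw [irr_orth_self hα, ← pow_succ]
    congr 1
    have := hm.out.pos
    omega
  rw [sum_wr]
  have h4 : ∀ s : ZMod m, ∑ f : ZMod m → H, θ ⟨f, s⟩ * θ (⟨f, s⟩ : Wr m H)⁻¹ =
      (Fintype.card H : ℂ) ^ m := by
    intro s
    by_cases hs : s = 0
    · subst hs; exact hz
    · exact hnz s hs
  simp_rw [h4]
  rw [Finset.sum_const, Finset.card_univ, ZMod.card, ← Nat.card_eq_fintype_card (α := Wr m H),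
    Wr.card_eq, Nat.card_eq_fintype_card, nsmul_eq_mul]
  push_cast; ring

end Pool.Agent.Helper51_AWC
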