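import Pool.Agent.Helper51_AWC.WrSum

/-!
The formula `m S(G wr C_m, X) = S(G, χ)^m + (m² - 1) S(G, χ)`.
-/

open scoped BigOperators

noncomputable section

namespace Pool.Agent.Helper51_AWC

variable {m : ℕ} [hm : Fact m.Prime] {G : Type} [Group G] [Fintype G] {ℓ : ℕ} [hp : Fact ℓ.Prime]

/-- conjugates of diagonal chains -/
def Phi (p : Finset (Subgroup G) × ({i : ZMod m // i ≠ 0} → G)) :
    Finset (Subgroup (ZMod m → G)) :=
  (p.1.map (diag m G)).map (conjEmb (ext0 p.2))

omit [Fintype G] in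
theorem conj_diag (w : ZMod m → G) (P : Subgroup G) :
    conjEmb w (diag m G P) = box fun i => conjS (w i) P := by
  rw [conjEmb_apply, diag_apply, conjS_box]

omit [Fintype G] in
theorem mem_Phi {p : Finset (Subgroup G) × ({i : ZMod m // i ≠ 0} → G)}
    {D : Subgroup (ZMod m → G)} :
    D ∈ Phi p ↔ ∃ P ∈ p.1, (box fun i => conjS (ext0 p.2 i) P) = D := by
  unfold Phi
  rw [Finset.mem_map]
  constructor
  · rintro ⟨E, hE, rfl⟩
    obtain ⟨P, hP, rfl⟩ := Finset.mem_map.1 hE
    exact ⟨P, hP, (conj_diag _ _).symm⟩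
  · rintro ⟨P, hP, rfl⟩
    exact ⟨_, Finset.mem_map_of_mem _ hP, conj_diag _ _⟩

omit [Fintype G] in
theorem pr_zero_Phi (u : {i : ZMod m // i ≠ 0} → G) (P : Subgroup G) :
    pr 0 (box fun i => conjS (ext0 u i) P) = P := by
  rw [pr_box, ext0_zero, conjS_one]

omit [Fintype G] in
theorem image_Phi [DecidableEq (Subgroup G)]
    (p : Finset (Subgroup G) × ({i : ZMod m // i ≠ 0} → G)) :
    (Phi p).image (pr 0) = p.1 := by
  ext P
  rw [Finset.mem_image]
  constructor
  · rintro ⟨D, hD, rfl⟩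
    obtain ⟨Q, hQ, rfl⟩ := mem_Phi.1 hD
    rw [pr_zero_Phi]; exact hQ
  · intro hP
    exact ⟨_, mem_Phi.2 ⟨P, hP, rfl⟩, pr_zero_Phi _ _⟩

omit [Fintype G] in
theorem card_Phi (p : Finset (Subgroup G) × ({i : ZMod m // i ≠ 0} → G)) :
    (Phi p).card = p.1.card := by
  unfold Phi
  rw [Finset.card_map, Finset.card_map]

/-- the product chains -/
def PC (ℓ m : ℕ) [NeZero m] (G : Type) [Group G] [Finite G] :
    Finset (Finset (Subgroup (ZMod m → G))) :=
  @Finset.filter _ (fun d => ∀ D ∈ d, closN D = D) (Classical.decPred _)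
    (chainsOn (psub ℓ (ZMod m → G)) ⊥)

theorem mem_PC (h : opCore ℓ G = ⊥) {d : Finset (Subgroup (ZMod m → G))} :
    d ∈ PC ℓ m G ↔ ((∀ D ∈ d, IsPGroup ℓ D) ∧ ⊥ ∈ d ∧
      IsChain (· ≤ ·) (d : Set (Subgroup (ZMod m → G)))) ∧ ∀ D ∈ d, closN D = D := by
  classical
  unfold PC
  refine (@Finset.mem_filter _ _ (Classical.decPred _) _ _).trans ?_
  rw [mem_chainsOn]
  constructor
  · rintro ⟨⟨h1, h2, h3⟩, h4⟩
    exact ⟨⟨fun D hD => (mem_psub.1 (h1 hD)).2, h2, h3⟩, h4⟩
  · rintro ⟨⟨h1, h2, h3⟩, h4⟩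
    refine ⟨⟨fun D hD => mem_psub.2 ⟨?_, h1 D hD⟩, h2, h3⟩, h4⟩
    rw [opCore_base h]; exact bot_le

theorem mem_CC (h : opCore ℓ G = ⊥) {c : Finset (Subgroup G)} :
    c ∈ chainsOn (psub ℓ G) ⊥ ↔ (∀ D ∈ c, IsPGroup ℓ D) ∧ ⊥ ∈ c ∧
      IsChain (· ≤ ·) (c : Set (Subgroup G)) := by
  classical
  rw [mem_chainsOn]
  constructor
  · rintro ⟨h1, h2, h3⟩
    exact ⟨fun D hD => (mem_psub.1 (h1 hD)).2, h2, h3⟩
  · rintro ⟨h1, h2, h3⟩
    refine ⟨fun D hD => mem_psub.2 ⟨?_, h1 D hD⟩, h2, h3⟩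
    rw [h]; exact bot_le

omit [Fintype G] in
theorem box_bot : (box fun _ : ZMod m => (⊥ : Subgroup G)) = ⊥ := by
  rw [eq_bot_iff]
  intro f hf
  rw [Subgroup.mem_bot]
  funext i
  exact Subgroup.mem_bot.1 (mem_box.1 hf i)

theorem Phi_mem (h : opCore ℓ G = ⊥) {c : Finset (Subgroup G)}
    (hc : c ∈ chainsOn (psub ℓ G) ⊥) (u : {i : ZMod m // i ≠ 0} → G) :
    Phi (c, u) ∈ PC ℓ m G := by
  rw [mem_CC h] at hc
  obtain ⟨h1, h2, h3⟩ := hc
  rw [mem_PC h]
  refine ⟨⟨?_, ?_, ?_⟩, ?_⟩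
  · intro D hD
    obtain ⟨P, hP, rfl⟩ := mem_Phi.1 hD
    exact box_pgroup fun i => conjS_pgroup (h1 P hP)
  · rw [mem_Phi]
    refine ⟨⊥, h2, ?_⟩
    simp only [conjS_bot]
    exact box_bot
  · intro D hD E hE _
    obtain ⟨P, hP, rfl⟩ := mem_Phi.1 (Finset.mem_coe.1 hD)
    obtain ⟨Q, hQ, rfl⟩ := mem_Phi.1 (Finset.mem_coe.1 hE)
    rcases chain_total h3 hP hQ with h4 | h4
    · left; exact box_mono fun i => conjS_mono.2 h4
    · right; exact box_mono fun i => conjS_mono.2 h4
  · intro D hD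
    obtain ⟨P, hP, rfl⟩ := mem_Phi.1 hD
    exact closN_box _

/-- chains with a larger stabiliser are conjugates of diagonal chains -/
theorem exists_Phi (h : opCore ℓ G = ⊥) {d : Finset (Subgroup (ZMod m → G))}
    (hd : d ∈ PC ℓ m G) {t : Wr m G} (ht : t ∈ TT d) (hs : t.s ≠ 0) :
    ∃ c ∈ chainsOn (psub ℓ G) ⊥, ∃ u : {i : ZMod m // i ≠ 0} → G, Phi (c, u) = d := by
  classical
  rw [mem_PC h] at hd
  obtain ⟨⟨h1, h2, h3⟩, h4⟩ := hd
  rw [mem_TT_closed h4] at ht
  have step : ∀ k : ℕ, ∃ g : G, ∀ D ∈ d, conjS g (pr 0 D) = pr ((k : ZMod m) * t.s) D := by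
    intro k
    induction k with
    | zero => exact ⟨1, fun D _ => by rw [conjS_one]; simp⟩
    | succ k ih =>
      obtain ⟨g, hg⟩ := ih
      refine ⟨t.f (((k + 1 : ℕ) : ZMod m) * t.s) * g, fun D hD => ?_⟩
      rw [← conjS_conjS, hg D hD]
      have h5 := ht D hD (((k + 1 : ℕ) : ZMod m) * t.s)
      have h6 : ((k + 1 : ℕ) : ZMod m) * t.s - t.s = (k : ZMod m) * t.s := by push_cast; ring
      rw [h6] at h5
      exact h5
  have hall : ∀ i : ZMod m, ∃ g : G, ∀ D ∈ d, conjS g (pr 0 D) = pr i D := by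
    intro i
    have h5 := step (i * t.s⁻¹).val
    rw [ZMod.natCast_zmod_val, mul_assoc, inv_mul_cancel₀ hs, mul_one] at h5
    exact h5
  choose g hg using hall
  refine ⟨d.image (pr 0), ?_, fun j => g j, ?_⟩
  · rw [mem_CC h]
    refine ⟨?_, ?_, ?_⟩
    · intro P hP
      obtain ⟨D, hD, rfl⟩ := Finset.mem_image.1 hP
      exact (h1 D hD).map _
    · exact Finset.mem_image.2 ⟨⊥, h2, Subgroup.map_bot _⟩
    · intro P hP Q hQ _
      obtain ⟨D, hD, rfl⟩ := Finset.mem_image.1 (Finset.mem_coe.1 hP)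
      obtain ⟨E, hE, rfl⟩ := Finset.mem_image.1 (Finset.mem_coe.1 hQ)
      rcases chain_total h3 hD hE with h5 | h5
      · left; exact pr_mono h5
      · right; exact pr_mono h5
  · have key : ∀ D ∈ d, (box fun i => conjS (ext0 (fun j : {i : ZMod m // i ≠ 0} => g j) i)
        (pr 0 D)) = D := by
      intro D hD
      conv_rhs => rw [← h4 D hD]
      unfold closN
      congr 1
      funext i
      by_cases hi : i = 0
      · subst hi
        rw [ext0_zero, conjS_one]
      · rw [ext0_ne _ hi]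
        exact hg i D hD
    ext D
    rw [mem_Phi]
    constructor
    · rintro ⟨P, hP, rfl⟩
      obtain ⟨E, hE, rfl⟩ := Finset.mem_image.1 hP
      rw [key E hE]; exact hE
    · intro hD
      exact ⟨pr 0 D, Finset.mem_image_of_mem _ hD, key D hD⟩

omit [Fintype G] in
theorem ext0_mul (u v : {i : ZMod m // i ≠ 0} → G) (i : ZMod m) :
    ext0 (fun j => u j * v j) i = ext0 u i * ext0 v i := by
  by_cases hi : i = 0
  · subst hi; simp [ext0_zero]
  · simp [ext0_ne _ hi]

open Classical in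
/-- the fibres of `Phi` -/
theorem card_fibre (c : Finset (Subgroup G)) (C : Finset (Finset (Subgroup G))) (hc : c ∈ C)
    (u : {i : ZMod m // i ≠ 0} → G) :
    ((C ×ˢ (Finset.univ : Finset ({i : ZMod m // i ≠ 0} → G))).filter
      (fun p => Phi p = Phi (c, u))).card = Nat.card (stab c) ^ (m - 1) := by
  have hfin := Fintype.ofFinite (stab c)
  have h1 : Nat.card (stab c) ^ (m - 1) =
      (Finset.univ : Finset ({i : ZMod m // i ≠ 0} → stab c)).card := by
    rw [Finset.card_univ, Fintype.card_fun, card_ne_zero_sub, Nat.card_eq_fintype_card]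
  rw [h1]
  symm
  apply Finset.card_bij (fun v _ => (c, fun j => u j * (v j : G)))
  · intro v _
    rw [Finset.mem_filter]
    refine ⟨Finset.mem_product.2 ⟨hc, Finset.mem_univ _⟩, ?_⟩
    have key : ∀ P ∈ c, (box fun i => conjS (ext0 (fun j => u j * (v j : G)) i) P) =
        box fun i => conjS (ext0 u i) P := by
      intro P hP
      congr 1
      funext i
      rw [ext0_mul, ← conjS_conjS]
      congr 1
      by_cases hi : i = 0
      · subst hi; rw [ext0_zero, conjS_one]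
      · rw [ext0_ne _ hi]
        exact mem_stab.1 (v ⟨i, hi⟩).2 P hP
    ext D
    rw [mem_Phi, mem_Phi]
    constructor
    · rintro ⟨P, hP, rfl⟩; exact ⟨P, hP, (key P hP).symm⟩
    · rintro ⟨P, hP, rfl⟩; exact ⟨P, hP, key P hP⟩
  · intro v _ v' _ h
    funext j
    have := congrFun (congrArg Prod.snd h) j
    exact Subtype.ext (mul_left_cancel this)
  · rintro ⟨c', u'⟩ h
    rw [Finset.mem_filter] at h
    obtain ⟨_, h2⟩ := h
    have h3 : c' = c := by
      have := congrArg (Finset.image (pr 0)) h2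
      rwa [image_Phi, image_Phi] at this
    subst h3
    have h4 : ∀ P ∈ c', ∀ j : {i : ZMod m // i ≠ 0}, conjS (u' j) P = conjS (u j) P := by
      intro P hP j
      have h5 : (box fun i => conjS (ext0 u' i) P) ∈ Phi (c', u) := by
        rw [← h2]; exact mem_Phi.2 ⟨P, hP, rfl⟩
      obtain ⟨Q, hQ, h6⟩ := mem_Phi.1 h5
      have h7 := congrFun (box_injective h6)
      have h8 := h7 0
      simp only [ext0_zero, conjS_one] at h8
      have h9 := h7 j
      simp only [ext0_ne _ j.2] at h9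
      rw [← h9, h8]
    refine ⟨fun j => ⟨(u j)⁻¹ * u' j, mem_stab.2 fun P hP => ?_⟩, Finset.mem_univ _, ?_⟩
    · rw [← conjS_conjS, h4 P hP j, conjS_conjS, inv_mul_cancel, conjS_one]
    · simp

variable {M : Ideal (integralClosure ℤ ℂ)} [hM : M.IsPrime]

/-- the difference of the weights on conjugates of diagonal chains -/
theorem extra_Phi (hℓ : (ℓ : integralClosure ℤ ℂ) ∈ M) (hne : m ≠ ℓ) {χ : G → ℂ}
    (hχ : χ ∈ Irr G) (hX : Cong M ((Nat.card G : ℂ) / χ 1) 0) {c : Finset (Subgroup G)}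
    (hc1 : ∀ D ∈ c, IsPGroup ℓ D) (hc2 : IsChain (· ≤ ·) (c : Set (Subgroup G)))
    (u : {i : ZMod m // i ≠ 0} → G) :
    (weight M (extChar χ 1 : Wr m G → ℂ) ((Phi (c, u)).map (iS m G).toEmbedding) : ℤ) -
      weight M (piChar fun _ : ZMod m => χ) (Phi (c, u)) =
      Nat.card (stab c) ^ (m - 1) * (((m : ℤ) ^ 2 - 1) * weight M χ c) := by
  have h1 : (Phi (c, u)).map (iS m G).toEmbedding =
      ((c.map (diag m G)).map (iS m G).toEmbedding).map (conjEmb (Wr.base m G (ext0 u))) := by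
    unfold Phi
    rw [Finset.map_map, Finset.map_map (iS m G).toEmbedding]
    apply congrArg (fun e => Finset.map e (c.map (diag m G)))
    apply DFunLike.ext
    intro D
    exact (conjS_base (ext0 u) D).symm
  have h2 : weight M (extChar χ 1 : Wr m G → ℂ) ((Phi (c, u)).map (iS m G).toEmbedding) =
      weight M (extChar χ 1 : Wr m G → ℂ) ((c.map (diag m G)).map (iS m G).toEmbedding) := by
    rw [h1, weight_map_conj]
  have h3 : weight M (piChar fun _ : ZMod m => χ) (Phi (c, u)) =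
      weight M (piChar fun _ : ZMod m => χ) (c.map (diag m G)) := by
    unfold Phi
    rw [weight_map_conj]
  rw [h2, h3]
  have h4 := weight_diag (m := m) hℓ hne hχ hX hc1 hc2
  have h5 : (weight M (extChar χ 1 : Wr m G → ℂ)
      ((c.map (diag m G)).map (iS m G).toEmbedding) : ℤ) -
      weight M (piChar fun _ : ZMod m => χ) (c.map (diag m G)) =
      ((m : ℤ) ^ 2 - 1) * (Nat.card (stab c) ^ m * (IrrBlock M (stab c).subtype χ).ncard) := by
    have h6 : (weight M (extChar χ 1 : Wr m G → ℂ)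
      ((c.map (diag m G)).map (iS m G).toEmbedding) : ℤ) +
      Nat.card (stab c) ^ m * (IrrBlock M (stab c).subtype χ).ncard =
      weight M (piChar fun _ : ZMod m => χ) (c.map (diag m G)) +
      m ^ 2 * (Nat.card (stab c) ^ m * (IrrBlock M (stab c).subtype χ).ncard) := by
      exact_mod_cast h4
    linear_combination h6
  rw [h5]
  unfold weight
  obtain ⟨k, hk⟩ := Nat.exists_eq_add_of_le' hm.out.pos
  have h7 : (Nat.card (stab c) : ℤ) ^ m = Nat.card (stab c) ^ (m - 1) * Nat.card (stab c) := by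
    rw [← pow_succ]
    congr 1
    have := hm.out.pos
    omega
  rw [h7]
  push_cast
  ring

theorem sum_extra (hℓ : (ℓ : integralClosure ℤ ℂ) ∈ M) (hne : m ≠ ℓ) (h : opCore ℓ G = ⊥)
    {χ : G → ℂ} (hχ : χ ∈ Irr G) (hX : Cong M ((Nat.card G : ℂ) / χ 1) 0) :
    ∑ d ∈ PC ℓ m G, (-1) ^ (d.card + 1) *
      ((weight M (extChar χ 1 : Wr m G → ℂ) (d.map (iS m G).toEmbedding) : ℤ) -
        weight M (piChar fun _ : ZMod m => χ) d) =
      (Nat.card G : ℤ) ^ (m - 1) * (((m : ℤ) ^ 2 - 1) *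
        ∑ c ∈ chainsOn (psub ℓ G) ⊥, (-1) ^ (c.card + 1) * (weight M χ c : ℤ)) := by
  classical
  set C := chainsOn (psub ℓ G) (⊥ : Subgroup G) with hC
  set U := (Finset.univ : Finset ({i : ZMod m // i ≠ 0} → G)) with hU
  let φ : Finset (Subgroup (ZMod m → G)) → ℤ := fun d =>
    (-1) ^ (d.card + 1) * (((m : ℤ) ^ 2 - 1) * weight M χ (d.image (pr 0)))
  have h1 : ∑ p ∈ C ×ˢ U, φ (Phi p) =
      (Nat.card G : ℤ) ^ (m - 1) * (((m : ℤ) ^ 2 - 1) *
        ∑ c ∈ C, (-1) ^ (c.card + 1) * (weight M χ c : ℤ)) := by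
    have h2 : ∀ p, φ (Phi p) = (-1) ^ (p.1.card + 1) * (((m : ℤ) ^ 2 - 1) * weight M χ p.1) := by
      intro p
      simp only [φ, card_Phi]
      rw [image_Phi]
    simp_rw [h2]
    rw [Finset.sum_product]
    simp only [Finset.sum_const, nsmul_eq_mul]
    rw [hU, Finset.card_univ, Fintype.card_fun, card_ne_zero_sub, Nat.card_eq_fintype_card,
      Finset.mul_sum, Finset.mul_sum]
    apply Finset.sum_congr rfl
    intro c _
    push_cast
    ring
  rw [← h1, Finset.sum_comp φ Phi]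
  -- the sum over product chains reduces to the image of `Phi`
  have hsub : (C ×ˢ U).image Phi ⊆ PC ℓ m G := by
    intro d hd
    obtain ⟨p, hp', rfl⟩ := Finset.mem_image.1 hd
    exact Phi_mem h (Finset.mem_product.1 hp').1 p.2
  rw [← Finset.sum_subset hsub]
  · apply Finset.sum_congr rfl
    intro d hd
    obtain ⟨⟨c, u⟩, hp', rfl⟩ := Finset.mem_image.1 hd
    have hc := (Finset.mem_product.1 hp').1
    have hc' := (mem_CC h).1 hc
    rw [extra_Phi hℓ hne hχ hX hc'.1 hc'.2.2 u, card_fibre c C hc u]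
    simp only [φ]
    rw [image_Phi, nsmul_eq_mul]
    push_cast
    ring
  · intro d hd hd'
    have hs : ∀ t ∈ TT d, t.s = 0 := by
      intro t ht
      by_contra hs
      apply hd'
      obtain ⟨c, hc, u, rfl⟩ := exists_Phi h hd ht hs
      exact Finset.mem_image.2 ⟨(c, u), Finset.mem_product.2 ⟨hc, Finset.mem_univ _⟩, rfl⟩
    rw [weight_inner hℓ hne hχ hX ((mem_PC h).1 hd).2 hs, sub_self, mul_zero]

/-- The alternating sum of the wreath product. -/
theorem altSum_wr (hℓ : (ℓ : integralClosure ℤ ℂ) ∈ M) (hne : m ≠ ℓ) (h : opCore ℓ G = ⊥)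
    {χ : G → ℂ} (hχ : χ ∈ Irr G) (hX : Cong M ((Nat.card G : ℂ) / χ 1) 0) :
    (m : ℤ) * altSum ℓ M (extChar χ 1 : Wr m G → ℂ) =
      altSum ℓ M χ ^ m + ((m : ℤ) ^ 2 - 1) * altSum ℓ M χ := by
  classical
  have hG : ((Nat.card G : ℤ)) ≠ 0 := by exact_mod_cast Nat.card_pos.ne'
  -- the sum for the wreath product
  have e1 : (Nat.card (Wr m G) : ℤ) * altSum ℓ M (extChar χ 1 : Wr m G → ℂ) =
      ∑ d ∈ PC ℓ m G, (-1) ^ (d.card + 1) *
        (weight M (extChar χ 1 : Wr m G → ℂ) (d.map (iS m G).toEmbedding) : ℤ) := by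
    rw [card_mul_altSum, psub_wr hne h, opCore_wr hne h, ← iS_bot (m := m) (G := G),
      sum_chainsOn_map]
    have h1 := sum_closure (psub ℓ (ZMod m → G)) ⊥ closN (f := fun d =>
      (-1) ^ ((d.map (iS m G).toEmbedding).card + 1) *
        (weight M (extChar χ 1 : Wr m G → ℂ) (d.map (iS m G).toEmbedding) : ℤ))
      (by
        intro D hD
        rw [mem_psub] at hD ⊢
        exact ⟨hD.1.trans (le_closN D), box_pgroup fun i => hD.2.map _⟩)
      (fun D _ => le_closN D) (fun D _ E _ hDE => closN_mono hDE) (fun D _ => closN_closN D)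
      (by
        rw [← box_bot, closN_box])
      (fun D _ => bot_le)
      (by
        intro d _ D hD hDn
        have h2 : stab ((insert (closN D) d).map (iS m G).toEmbedding) =
            stab (d.map (iS m G).toEmbedding) := by
          rw [Finset.map_insert]
          exact stab_insert_of (Finset.mem_map_of_mem _ hD) (fun t ht => closN_stable ht)
        unfold weight
        rw [h2, Finset.card_map, Finset.card_map, Finset.card_insert_of_notMem hDn]
        ring)
    rw [h1]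
    simp only [Finset.card_map]
    unfold PC
    apply Finset.sum_congr _ fun _ _ => rfl
    ext d
    simp only [Finset.mem_filter]
  -- the sum for the base group
  have e2 : (Nat.card (ZMod m → G) : ℤ) * altSum ℓ M (piChar fun _ : ZMod m => χ) =
      ∑ d ∈ PC ℓ m G, (-1) ^ (d.card + 1) *
        (weight M (piChar fun _ : ZMod m => χ) d : ℤ) := by
    rw [card_mul_altSum, opCore_base h]
    have h1 := sum_closure (psub ℓ (ZMod m → G)) ⊥ closN (f := fun d =>
      (-1) ^ (d.card + 1) * (weight M (piChar fun _ : ZMod m => χ) d : ℤ))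
      (by
        intro D hD
        rw [mem_psub] at hD ⊢
        exact ⟨hD.1.trans (le_closN D), box_pgroup fun i => hD.2.map _⟩)
      (fun D _ => le_closN D) (fun D _ E _ hDE => closN_mono hDE) (fun D _ => closN_closN D)
      (by
        rw [← box_bot, closN_box])
      (fun D _ => bot_le)
      (by
        intro d _ D hD hDn
        have h2 : stab (insert (closN D) d) = stab d :=
          stab_insert_of hD (fun t ht => closN_stable_base ht)
        unfold weight
        rw [h2, Finset.card_insert_of_notMem hDn]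
        ring)
    rw [h1]
    unfold PC
    apply Finset.sum_congr _ fun _ _ => rfl
    ext d
    simp only [Finset.mem_filter]
  have e3 := sum_extra (m := m) hℓ hne h hχ hX
  simp_rw [mul_sub] at e3
  rw [Finset.sum_sub_distrib, ← e1, ← e2] at e3
  have e4 := card_mul_altSum ℓ M χ
  rw [h] at e4
  rw [← e4, altSum_zmod_pow ℓ M hχ m, Wr.card_eq, Nat.card_fun, Nat.card_zmod] at e3
  have h7 : (Nat.card G : ℤ) ^ m = Nat.card G ^ (m - 1) * Nat.card G := by
    rw [← pow_succ]
    congr 1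
    have := hm.out.pos
    omega
  have h8 : ((Nat.card G : ℤ) ^ m) ≠ 0 := pow_ne_zero _ hG
  apply mul_left_cancel₀ h8
  push_cast at e3
  rw [h7] at e3 ⊢
  linear_combination e3

end Pool.Agent.Helper51_AWC
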