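import Pool.Agent.Helper51_AWC.WrChain

/-!
The alternating sum of the wreath product `G wr C_m`.
-/

open scoped BigOperators

noncomputable section

namespace Pool.Agent.Helper51_AWC

variable {m : ℕ} [hm : Fact m.Prime] {G : Type} [Group G] [Fintype G] {ℓ : ℕ} [hp : Fact ℓ.Prime]

omit [Fintype G] in
theorem Wr.pow_s (x : Wr m G) (n : ℕ) : (x ^ n).s = n * x.s := by
  induction n with
  | zero => simp [Wr.one_s]
  | succ n ih =>
    rw [pow_succ, Wr.mul_s, ih]
    push_cast; ring

omit [Fintype G] in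
theorem iS_bot : iS m G ⊥ = ⊥ := Subgroup.map_bot _

omit [Fintype G] in
theorem pgroup_le_base (hne : m ≠ ℓ) {D : Subgroup (Wr m G)} (hD : IsPGroup ℓ D) :
    ∃ E : Subgroup (ZMod m → G), IsPGroup ℓ E ∧ iS m G E = D := by
  refine ⟨D.comap (Wr.base m G), hD.comap_of_injective _ Wr.base_injective, ?_⟩
  have hs : ∀ x ∈ D, x.s = 0 := by
    intro x hx
    obtain ⟨k, hk⟩ := hD ⟨x, hx⟩
    have h1 : x ^ ℓ ^ k = 1 := congrArg Subtype.val hk
    have h2 := congrArg Wr.s h1
    rw [Wr.pow_s, Wr.one_s] at h2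
    rcases mul_eq_zero.1 h2 with h3 | h3
    · exfalso
      rw [ZMod.natCast_eq_zero_iff] at h3
      exact hne ((Nat.prime_dvd_prime_iff_eq hm.out hp.out).1 (hm.out.dvd_of_dvd_pow h3))
    · exact h3
  ext x
  rw [mem_iS, Subgroup.mem_comap]
  constructor
  · rintro ⟨h1, h2⟩
    have : x = Wr.base m G x.f := by
      apply Wr.ext
      · rfl
      · exact h1
    rw [this]; exact h2
  · intro hx
    refine ⟨hs x hx, ?_⟩
    have : Wr.base m G x.f = x := by
      apply Wr.ext
      · rfl
      · exact (hs x hx).symm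
    rw [this]; exact hx

theorem opCore_base (h : opCore ℓ G = ⊥) : opCore ℓ (ZMod m → G) = ⊥ := by
  obtain ⟨a1, a2, a3⟩ := opCore_spec ℓ G
  obtain ⟨b1, b2, b3⟩ := opCore_spec ℓ (ZMod m → G)
  rw [eq_bot_iff]
  intro f hf
  rw [Subgroup.mem_bot]
  funext i
  have h1 : pr i (opCore ℓ (ZMod m → G)) ≤ opCore ℓ G := by
    apply a3
    · exact b1.map _ (Function.surjective_eval i)
    · exact b2.map _
  rw [h] at h1
  have := h1 ⟨f, hf, rfl⟩
  exact Subgroup.mem_bot.1 this

theorem opCore_wr (hne : m ≠ ℓ) (h : opCore ℓ G = ⊥) : opCore ℓ (Wr m G) = ⊥ := by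
  obtain ⟨b1, b2, b3⟩ := opCore_spec ℓ (ZMod m → G)
  obtain ⟨c1, c2, c3⟩ := opCore_spec ℓ (Wr m G)
  obtain ⟨E, hE, hE'⟩ := pgroup_le_base hne c2
  have hn : E.Normal := by
    constructor
    intro f hf g
    have h1 : Wr.base m G f ∈ opCore ℓ (Wr m G) := by
      rw [← hE', mem_iS]; exact ⟨rfl, hf⟩
    have h2 := c1.conj_mem _ h1 (Wr.base m G g)
    rw [← map_mul, ← map_inv, ← map_mul, ← hE', mem_iS] at h2
    exact h2.2
  have h3 := b3 E hn hE
  rw [opCore_base h, le_bot_iff] at h3
  rw [← hE', h3, iS_bot]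

theorem psub_wr (hne : m ≠ ℓ) (h : opCore ℓ G = ⊥) :
    psub ℓ (Wr m G) = (psub ℓ (ZMod m → G)).map (iS m G).toEmbedding := by
  ext D
  rw [mem_psub, Finset.mem_map, opCore_wr hne h]
  constructor
  · rintro ⟨_, h2⟩
    obtain ⟨E, hE, hE'⟩ := pgroup_le_base hne h2
    exact ⟨E, mem_psub.2 ⟨by rw [opCore_base h]; exact bot_le, hE⟩, hE'⟩
  · rintro ⟨E, hE, rfl⟩
    exact ⟨bot_le, (mem_psub.1 hE).2.map _⟩

/-- the stabiliser in the wreath product of a chain of subgroups of the base group -/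
def TT (d : Finset (Subgroup (ZMod m → G))) : Subgroup (Wr m G) :=
  stab (d.map (iS m G).toEmbedding)

omit [Fintype G] in
theorem mem_TT {d : Finset (Subgroup (ZMod m → G))} {t : Wr m G} :
    t ∈ TT d ↔ ∀ D ∈ d, conjS t (iS m G D) = iS m G D := by
  unfold TT
  rw [mem_stab]
  constructor
  · intro h D hD
    exact h _ (Finset.mem_map_of_mem _ hD)
  · intro h D hD
    obtain ⟨E, hE, rfl⟩ := Finset.mem_map.1 hD
    exact h E hE

omit [Fintype G] in
theorem mem_TT_closed {d : Finset (Subgroup (ZMod m → G))} (hd : ∀ D ∈ d, closN D = D)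
    {t : Wr m G} : t ∈ TT d ↔ ∀ D ∈ d, ∀ i, conjS (t.f i) (pr (i - t.s) D) = pr i D := by
  rw [mem_TT]
  constructor
  · intro h D hD i
    exact pr_of_stable (h D hD) i
  · intro h D hD
    rw [← hd D hD]
    unfold closN
    rw [conjS_iS_box]
    exact h D hD

omit [Fintype G] in
theorem mem_stab_closed {d : Finset (Subgroup (ZMod m → G))} (hd : ∀ D ∈ d, closN D = D)
    {f : ZMod m → G} : f ∈ stab d ↔ ∀ D ∈ d, ∀ i, conjS (f i) (pr i D) = pr i D := by
  rw [mem_stab]
  constructor
  · intro h D hD i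
    have h1 := h D hD
    rw [← hd D hD] at h1
    unfold closN at h1
    rw [conjS_box] at h1
    have h2 := congrFun (box_injective h1) i
    have h3 : pr i D = pr i D := rfl
    exact h2
  · intro h D hD
    rw [← hd D hD]
    unfold closN
    rw [conjS_box]
    congr 1
    funext i
    exact h D hD i

variable {M : Ideal (integralClosure ℤ ℂ)} [hM : M.IsPrime]

open Classical in
/-- chains whose stabiliser lies in the base group -/
theorem weight_inner (hℓ : (ℓ : integralClosure ℤ ℂ) ∈ M) (hne : m ≠ ℓ)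
    {χ : G → ℂ} (hχ : χ ∈ Irr G) (hX : Cong M ((Nat.card G : ℂ) / χ 1) 0)
    {d : Finset (Subgroup (ZMod m → G))} (hd : ∀ D ∈ d, closN D = D)
    (hs : ∀ t ∈ TT d, t.s = 0) :
    weight M (extChar χ 1 : Wr m G → ℂ) (d.map (iS m G).toEmbedding) =
      weight M (piChar fun _ : ZMod m => χ) d := by
  let K : ZMod m → Subgroup G := fun i => stab (d.image (pr i))
  let p : ∀ i : ZMod m, K i →* G := fun i => (K i).subtype
  have hK : ∀ i x, x ∈ K i ↔ ∀ D ∈ d, conjS x (pr i D) = pr i D := by
    intro i x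
    rw [mem_stab]
    constructor
    · intro h D hD
      exact h _ (Finset.mem_image_of_mem _ hD)
    · intro h E hE
      obtain ⟨D, hD, rfl⟩ := Finset.mem_image.1 hE
      exact h D hD
  have hpi : Function.Injective (pimap p) := by
    intro x y h
    funext i
    exact Subtype.ext (congrFun h i)
  have hr1 : (pimap p).range = stab d := by
    ext f
    rw [mem_stab_closed hd]
    constructor
    · rintro ⟨x, rfl⟩ D hD i
      exact (hK i _).1 (x i).2 D hD
    · intro h
      exact ⟨fun i => ⟨f i, (hK i _).2 fun D hD => h D hD i⟩, rfl⟩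
  have hr2 : ((Wr.base m G).comp (pimap p)).range = TT d := by
    ext t
    constructor
    · rintro ⟨x, rfl⟩
      rw [mem_TT_closed hd]
      intro D hD i
      show conjS (x i : G) (pr (i - 0) D) = pr i D
      rw [sub_zero]
      exact (hK i _).1 (x i).2 D hD
    · intro ht
      have h0 := hs t ht
      rw [mem_TT_closed hd] at ht
      refine ⟨fun i => ⟨t.f i, (hK i _).2 fun D hD => ?_⟩, ?_⟩
      · have := ht D hD i
        rwa [h0, sub_zero] at this
      · apply Wr.ext
        · rfl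
        · exact h0.symm
  obtain ⟨a1, a2⟩ := weight_range M (piChar fun _ : ZMod m => χ) (pimap p) hpi _ hr1
  obtain ⟨b1, b2⟩ := weight_range M (extChar χ 1 : Wr m G → ℂ) ((Wr.base m G).comp (pimap p))
    (Wr.base_injective.comp hpi) _ hr2
  unfold weight
  rw [a1, a2]
  have e : stab (d.map (iS m G).toEmbedding) = TT d := rfl
  rw [e, b1, b2, base_block_eq hℓ hne (fun i => (K i).subtype_injective) hχ hX]

/-- the diagonal embedding of subgroups -/
def diag (m : ℕ) (G : Type) [Group G] : Subgroup G ↪ Subgroup (ZMod m → G) where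
  toFun P := box fun _ => P
  inj' := by
    intro P Q h
    exact congrFun (box_injective h) 0

omit [Fintype G] in
theorem diag_apply (P : Subgroup G) : diag m G P = box fun _ => P := rfl

omit hp hM in
theorem ncard_piChar {K : Type} [Group K] [Fintype K] {i : K →* G}
    (hi : Function.Injective i) {χ : G → ℂ} (hχ : χ ∈ Irr G) :
    (IrrBlock M (pimap fun _ : ZMod m => i) (piChar fun _ => χ)).ncard =
      (IrrBlock M i χ).ncard ^ m := by
  classical
  have hf : (IrrBlock M i χ).Finite := irr_finite'.subset fun α hα => hα.1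
  have h1 : IrrBlock M (pimap fun _ : ZMod m => i) (piChar fun _ => χ) =
      piChar '' ((Fintype.piFinset fun _ : ZMod m => hf.toFinset : Finset _) :
        Set (ZMod m → K → ℂ)) := by
    ext θ
    constructor
    · intro h
      obtain ⟨α, hα, rfl⟩ := exists_piChar h.1
      rw [mem_IrrBlock_pi (fun _ => hi) hα (fun _ => hχ)] at h
      exact ⟨α, Finset.mem_coe.2 (Fintype.mem_piFinset.2 fun j => hf.mem_toFinset.2 (h j)), rfl⟩
    · rintro ⟨α, hα, rfl⟩
      have hα' : ∀ j, α j ∈ IrrBlock M i χ := fun j =>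
        hf.mem_toFinset.1 (Fintype.mem_piFinset.1 (Finset.mem_coe.1 hα) j)
      rw [mem_IrrBlock_pi (fun _ => hi) (fun j => (hα' j).1) (fun _ => hχ)]
      exact hα'
  rw [h1, Set.InjOn.ncard_image, Set.ncard_coe_finset, Fintype.card_piFinset,
    Finset.prod_const, Finset.card_univ, ZMod.card, Set.ncard_eq_toFinset_card _ hf]
  intro α hα β hβ h
  have hα' : ∀ j, α j ∈ Irr K := fun j =>
    (hf.mem_toFinset.1 (Fintype.mem_piFinset.1 (Finset.mem_coe.1 hα) j)).1
  have hβ' : ∀ j, β j ∈ Irr K := fun j =>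
    (hf.mem_toFinset.1 (Fintype.mem_piFinset.1 (Finset.mem_coe.1 hβ) j)).1
  exact piChar_inj hα' hβ' h

/-- diagonal chains -/
theorem weight_diag (hℓ : (ℓ : integralClosure ℤ ℂ) ∈ M) (hne : m ≠ ℓ)
    {χ : G → ℂ} (hχ : χ ∈ Irr G) (hX : Cong M ((Nat.card G : ℂ) / χ 1) 0)
    {c : Finset (Subgroup G)} (hc1 : ∀ D ∈ c, IsPGroup ℓ D)
    (hc2 : IsChain (· ≤ ·) (c : Set (Subgroup G))) :
    weight M (extChar χ 1 : Wr m G → ℂ) ((c.map (diag m G)).map (iS m G).toEmbedding) +
      Nat.card (stab c) ^ m * (IrrBlock M (stab c).subtype χ).ncard =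
      weight M (piChar fun _ : ZMod m => χ) (c.map (diag m G)) +
      m ^ 2 * (Nat.card (stab c) ^ m * (IrrBlock M (stab c).subtype χ).ncard) := by
  classical
  have := Fintype.ofFinite (stab c)
  have hd : ∀ D ∈ c.map (diag m G), closN D = D := by
    intro D hD
    obtain ⟨P, hP, rfl⟩ := Finset.mem_map.1 hD
    exact closN_box _
  have hpr : ∀ (P : Subgroup G) (i : ZMod m), pr i (diag m G P) = P := fun P i => pr_box _ i
  have hr1 : (pimap fun _ : ZMod m => (stab c).subtype).range = stab (c.map (diag m G)) := by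
    ext f
    rw [mem_stab_closed hd]
    constructor
    · rintro ⟨x, rfl⟩ D hD i
      obtain ⟨P, hP, rfl⟩ := Finset.mem_map.1 hD
      rw [hpr]
      exact mem_stab.1 (x i).2 P hP
    · intro h
      refine ⟨fun i => ⟨f i, mem_stab.2 fun P hP => ?_⟩, rfl⟩
      have := h _ (Finset.mem_map_of_mem _ hP) i
      rwa [hpr] at this
  have hr2 : (Wr.map (m := m) (stab c).subtype).range = TT (c.map (diag m G)) := by
    ext t
    rw [mem_TT_closed hd]
    constructor
    · rintro ⟨x, rfl⟩ D hD i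
      obtain ⟨P, hP, rfl⟩ := Finset.mem_map.1 hD
      rw [hpr, hpr]
      exact mem_stab.1 (x.f i).2 P hP
    · intro h
      refine ⟨⟨fun i => ⟨t.f i, mem_stab.2 fun P hP => ?_⟩, t.s⟩, rfl⟩
      have := h _ (Finset.mem_map_of_mem _ hP) i
      rwa [hpr, hpr] at this
  have hpi : Function.Injective (pimap fun _ : ZMod m => (stab c).subtype) := by
    intro x y h
    funext i
    exact Subtype.ext (congrFun h i)
  obtain ⟨a1, a2⟩ := weight_range M (piChar fun _ : ZMod m => χ)
    (pimap fun _ : ZMod m => (stab c).subtype) hpi _ hr1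
  obtain ⟨b1, b2⟩ := weight_range M (extChar χ 1 : Wr m G → ℂ)
    (Wr.map (m := m) (stab c).subtype) (Wr.map_injective (stab c).subtype_injective) _ hr2
  have e : stab ((c.map (diag m G)).map (iS m G).toEmbedding) = TT (c.map (diag m G)) := rfl
  unfold weight
  rw [e, a1, a2, b1, b2, ncard_piChar (stab c).subtype_injective hχ, Wr.card_eq, Nat.card_fun,
    Nat.card_zmod]
  have hcount := wr_block_count (m := m) hℓ hne (stab c).subtype_injective hχ hX
    (fun α hα => defect_chain hℓ hχ hX hc1 hc2 hα)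
  set k := (IrrBlock M (stab c).subtype χ).ncard
  set h := Nat.card (stab c)
  calc h ^ m * m * (IrrBlock M (Wr.map (m := m) (stab c).subtype) (extChar χ 1)).ncard +
        h ^ m * k = h ^ m * (m * (IrrBlock M (Wr.map (m := m) (stab c).subtype)
          (extChar χ 1)).ncard + k) := by ring
    _ = _ := by rw [hcount]; ring

end Pool.Agent.Helper51_AWC
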