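import Pool.Agent.Helper51_AWC.Cong

/-!
The wreath product `H wr C_m` for a prime `m`.
-/

open scoped BigOperators

noncomputable section

namespace Pool.Agent.Helper51_AWC

/-- the wreath product of `H` with the cyclic group `ZMod m` acting by translations -/
@[ext] structure Wr (m : ℕ) (H : Type) where
  /-- the base coordinates -/
  f : ZMod m → H
  /-- the translation -/
  s : ZMod m

namespace Wr

variable {m : ℕ} {H K : Type} [Group H] [Group K]

instance : Mul (Wr m H) := ⟨fun x y => ⟨fun i => x.f i * y.f (i - x.s), x.s + y.s⟩⟩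
instance : One (Wr m H) := ⟨⟨fun _ => 1, 0⟩⟩
instance : Inv (Wr m H) := ⟨fun x => ⟨fun i => (x.f (i + x.s))⁻¹, -x.s⟩⟩

theorem mul_f (x y : Wr m H) (i : ZMod m) : (x * y).f i = x.f i * y.f (i - x.s) := rfl
theorem mul_s (x y : Wr m H) : (x * y).s = x.s + y.s := rfl
theorem one_f (i : ZMod m) : (1 : Wr m H).f i = 1 := rfl
theorem one_s : (1 : Wr m H).s = 0 := rfl
theorem inv_f (x : Wr m H) (i : ZMod m) : (x⁻¹).f i = (x.f (i + x.s))⁻¹ := rfl
theorem inv_s (x : Wr m H) : (x⁻¹).s = -x.s := rfl

instance : Group (Wr m H) :=
  Group.ofLeftAxioms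
    (by
      intro x y z
      apply Wr.ext
      · funext i
        simp only [mul_f, mul_s, mul_assoc, sub_sub]
      · simp only [mul_s, add_assoc])
    (by
      intro x
      apply Wr.ext
      · funext i
        simp only [mul_f, one_f, one_s, one_mul, sub_zero]
      · simp only [mul_s, one_s, zero_add])
    (by
      intro x
      apply Wr.ext
      · funext i
        simp only [mul_f, inv_f, inv_s, sub_neg_eq_add, one_f, inv_mul_cancel]
      · simp only [mul_s, inv_s, one_s, neg_add_cancel])

/-- the underlying product type -/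
def equivProd : Wr m H ≃ (ZMod m → H) × ZMod m where
  toFun x := (x.f, x.s)
  invFun p := ⟨p.1, p.2⟩
  left_inv _ := rfl
  right_inv _ := rfl

instance [NeZero m] [Finite H] : Finite (Wr m H) := Finite.of_equiv _ equivProd.symm

omit [Group H] in
theorem card_eq [NeZero m] [Finite H] : Nat.card (Wr m H) = Nat.card H ^ m * m := by
  classical
  have := Fintype.ofFinite H
  rw [Nat.card_congr equivProd, Nat.card_prod, Nat.card_fun, Nat.card_zmod]

/-- the base group -/
def base (m : ℕ) (H : Type) [Group H] : (ZMod m → H) →* Wr m H where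
  toFun f := ⟨f, 0⟩
  map_one' := rfl
  map_mul' f g := by
    apply Wr.ext
    · funext i
      simp only [mul_f, sub_zero, Pi.mul_apply]
    · simp only [mul_s, add_zero]

theorem base_f (f : ZMod m → H) : (base m H f).f = f := rfl
theorem base_s (f : ZMod m → H) : (base m H f).s = 0 := rfl

theorem base_injective : Function.Injective (base m H) := by
  intro f g h
  exact congrArg Wr.f h

/-- functoriality -/
def map (φ : H →* K) : Wr m H →* Wr m K where
  toFun x := ⟨fun i => φ (x.f i), x.s⟩
  map_one' := by
    apply Wr.ext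
    · funext i
      simp only [one_f, map_one]
    · rfl
  map_mul' x y := by
    apply Wr.ext
    · funext i
      simp only [mul_f, map_mul]
    · rfl

theorem map_f (φ : H →* K) (x : Wr m H) (i : ZMod m) : (map φ x).f i = φ (x.f i) := rfl
theorem map_s (φ : H →* K) (x : Wr m H) : (map φ x).s = x.s := rfl

theorem map_injective {φ : H →* K} (hφ : Function.Injective φ) :
    Function.Injective (map (m := m) φ) := by
  intro x y h
  apply Wr.ext
  · funext i
    apply hφ
    have := congrArg (fun z : Wr m K => z.f i) h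
    exact this
  · exact congrArg (fun z : Wr m K => z.s) h

theorem conj_s (x y : Wr m H) : (y * x * y⁻¹).s = x.s := by
  simp only [mul_s, inv_s]; ring

theorem isConj_s {x y : Wr m H} (h : IsConj x y) : x.s = y.s := by
  obtain ⟨c, rfl⟩ := isConj_iff.1 h
  exact (conj_s x c).symm

theorem conj_f (x y : Wr m H) (i : ZMod m) :
    (y * x * y⁻¹).f i = y.f i * x.f (i - y.s) * (y.f (i - x.s))⁻¹ := by
  simp only [mul_f, inv_f, mul_s]
  congr 3
  ring

/-- conjugacy of base elements -/
theorem isConj_base {g h : ZMod m → H} :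
    IsConj (base m H g) (base m H h) ↔ ∃ t : ZMod m, ∀ i, IsConj (g (i - t)) (h i) := by
  rw [isConj_iff]
  constructor
  · rintro ⟨c, hc⟩
    refine ⟨c.s, fun i => isConj_iff.2 ⟨c.f i, ?_⟩⟩
    have := congrArg (fun z : Wr m H => z.f i) hc
    simp only [conj_f, base_f, base_s, sub_zero] at this
    exact this
  · rintro ⟨t, ht⟩
    have : ∀ i, ∃ c, c * g (i - t) * c⁻¹ = h i := fun i => isConj_iff.1 (ht i)
    choose c hc using this
    refine ⟨⟨c, t⟩, ?_⟩
    apply Wr.ext
    · funext i
      simp only [conj_f, base_f, base_s, sub_zero]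
      exact hc i
    · rw [conj_s]; rfl

end Wr

end Pool.Agent.Helper51_AWC
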